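import Mathlib
import Pool.Agent.H36.RW.Core

/-!
The concentration of the number of survivors, for arbitrary sets of primes.
-/

set_option autoImplicit false

namespace Pool.Agent.H36.EX
open Finset Pool.Agent.H373R2.T7 Pool.Agent.H36.RW

/-- the generating function: final form -/
theorem Phi_final2 (u R : ℝ) (hR : 0 ≤ R) (hu : -1 < u) (hu2 : |u| * R ≤ 1) (P : Finset ℕ) (y T : ℕ) (hy : 1 ≤ y) (S : Finset ℕ)
    (hS : S ⊆ Icc 1 T) (hP : ∀ p ∈ P, p.Prime ∧ y < p)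
    (hT : 8 * Wp (P.filter (fun p => T < p)) * T ≤ R * (Wp (P.filter (fun p => p ≤ T)) * y)) :
    Phi P S u ≤ Real.exp (S.card * Wp P * (u + R * u ^ 2)) := by
  classical
  set P1 := P.filter (fun p => p ≤ T) with hP1
  set P2 := P.filter (fun p => T < p) with hP2
  have hPu : P = P1 ∪ P2 := by
    ext p
    rw [mem_union, hP1, hP2, mem_filter, mem_filter]
    constructor
    · intro h
      rcases Nat.lt_or_ge T p with h1 | h1
      · exact Or.inr ⟨h, h1⟩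
      · exact Or.inl ⟨h, h1⟩
    · rintro (h | h)
      · exact h.1
      · exact h.1
  have hd : Disjoint P1 P2 := by
    rw [disjoint_left]
    intro p h1 h2
    rw [hP1, mem_filter] at h1
    rw [hP2, mem_filter] at h2
    omega
  have hW : Wp P = Wp P1 * Wp P2 := by
    unfold Wp
    conv_lhs => rw [hPu]
    rw [prod_union hd]
  have h1P1 : ∀ p ∈ P1, p.Prime ∧ y < p ∧ p ≤ T ∧ p ∉ P2 := by
    intro p hp
    refine ⟨(hP p (mem_filter.1 hp).1).1, (hP p (mem_filter.1 hp).1).2, (mem_filter.1 hp).2, ?_⟩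
    exact disjoint_left.1 hd hp
  have hW1 := Wp_pos P1 (fun p hp => (h1P1 p hp).1.two_le)
  have hW1' := Wp_le_one P1 (fun p hp => (h1P1 p hp).1.two_le)
  have hP2p : ∀ p ∈ P2, p.Prime := fun p hp => (hP p (mem_filter.1 hp).1).1
  have hW2 := Wp_pos P2 (fun p hp => (hP2p p hp).two_le)
  have hT0 : (0 : ℝ) ≤ T := Nat.cast_nonneg T
  have hy0 : (0 : ℝ) < y := by exact_mod_cast hy
  set γ : ℝ := |u| * Wp P2 with hγ
  have hγ0 : 0 ≤ γ := by rw [hγ]; positivity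
  have hγT : 8 * γ * T ≤ y := by
    calc 8 * γ * T = |u| * (8 * Wp P2 * T) := by rw [hγ]; ring
      _ ≤ |u| * (R * (Wp P1 * y)) := mul_le_mul_of_nonneg_left hT (abs_nonneg _)
      _ = (|u| * R) * (Wp P1 * y) := by ring
      _ ≤ 1 * (1 * y) := by
          apply mul_le_mul hu2 (mul_le_mul_of_nonneg_right hW1' hy0.le) (by positivity) (by norm_num)
      _ = y := by ring
  have h2 : ∀ S' ⊆ S, Phi P2 S' u ≤ Real.exp (u * Wp P2 * S'.card) := by
    intro S' hS'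
    have h3 := Phi_large u hu P2 S' (fun p hp => ⟨(hP2p p hp).two_le, fun h hh => by
      have h4 := (mem_Icc.1 (hS (hS' hh))).2
      have h5 := (mem_filter.1 hp).2
      omega⟩)
    refine h3.2.trans ?_
    have h4 : 1 + u * Wp P2 ≤ Real.exp (u * Wp P2) := by
      have := Real.add_one_le_exp (u * Wp P2)
      linarith
    calc (1 + u * ∏ p ∈ P2, (1 - 1 / (p : ℝ))) ^ S'.card ≤ (Real.exp (u * Wp P2)) ^ S'.card :=
          pow_le_pow_left₀ h3.1.le h4 _
      _ = _ := by rw [← Real.exp_nat_mul]; ring_nf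
  have h3 := Phi_mid u (u * Wp P2) γ P2 y T hy (by rw [hγ, abs_mul, abs_of_pos hW2]) hγT P1 S hS h1P1 h2
  rw [← hPu] at h3
  refine h3.trans (Real.exp_le_exp.2 ?_)
  have h4 : ∑ p ∈ P1, 8 * γ ^ 2 * T / (p : ℝ) ^ 2 ≤ R * u ^ 2 * (Wp P1 * Wp P2) := by
    calc ∑ p ∈ P1, 8 * γ ^ 2 * T / (p : ℝ) ^ 2 = 8 * γ ^ 2 * T * ∑ p ∈ P1, 1 / (p : ℝ) ^ 2 := by
          rw [mul_sum]
          apply sum_congr rfl
          intro p _
          ring
      _ ≤ 8 * γ ^ 2 * T * ∑ p ∈ Ioc y T, 1 / (p : ℝ) ^ 2 := by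
          apply mul_le_mul_of_nonneg_left _ (by positivity)
          apply sum_le_sum_of_subset_of_nonneg
          · intro p' hp'
            exact mem_Ioc.2 ⟨(h1P1 p' hp').2.1, (h1P1 p' hp').2.2.1⟩
          · intro _ _ _
            positivity
      _ ≤ 8 * γ ^ 2 * T * (1 / y) := mul_le_mul_of_nonneg_left (sum_inv_sq_aux y T hy) (by positivity)
      _ = u ^ 2 * Wp P2 * (8 * Wp P2 * T / y) := by
          rw [hγ, mul_pow, sq_abs]
          ring
      _ ≤ u ^ 2 * Wp P2 * (R * Wp P1) := by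
          apply mul_le_mul_of_nonneg_left _ (by positivity)
          rw [div_le_iff₀ hy0]
          linarith
      _ = _ := by ring
  have h5 : (0 : ℝ) ≤ S.card := Nat.cast_nonneg _
  rw [hW]
  calc (u * Wp P2 * Wp P1 + ∑ p ∈ P1, 8 * γ ^ 2 * T / (p : ℝ) ^ 2) * S.card
      ≤ (u * Wp P2 * Wp P1 + R * u ^ 2 * (Wp P1 * Wp P2)) * S.card := by
        apply mul_le_mul_of_nonneg_right _ h5
        linarith
    _ = _ := by ring

/-- exponential moments over a full period -/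
lemma per_exp2 (q r : ℕ) (P S : Finset ℕ) (y T : ℕ) (R : ℝ) (hR : 0 ≤ R) (hy : 1 ≤ y) (hS : S ⊆ Icc 1 T)
    (hP : ∀ p ∈ P, p.Prime ∧ y < p ∧ ¬ p ∣ q)
    (hT : 8 * Wp (P.filter (fun p => T < p)) * T ≤ R * (Wp (P.filter (fun p => p ≤ T)) * y))
    (t : ℝ) (htR : |t| * (1 + 4 * R) ≤ 1) :
    ∑ l ∈ range (∏ p ∈ P, p), Real.exp (t * XX q r P S l) ≤
      ((∏ p ∈ P, p : ℕ) : ℝ) * Real.exp (S.card * Wp P * (t + (1 + 4 * R) * t ^ 2)) := by
  have ht : |t| ≤ 1 := by nlinarith [mul_nonneg (abs_nonneg t) hR]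
  set u : ℝ := Real.exp t - 1 with hu
  have h1 : |u - t| ≤ t ^ 2 := by
    have := Real.abs_exp_sub_one_sub_id_le ht
    rwa [hu]
  have ht2 : t ^ 2 ≤ |t| := by
    rw [← sq_abs]
    nlinarith [abs_nonneg t]
  have hu2 : |u| ≤ 2 * |t| := by
    calc |u| = |(u - t) + t| := by ring_nf
      _ ≤ |u - t| + |t| := abs_add_le _ _
      _ ≤ 2 * |t| := by linarith
  have hu1 : -1 < u := by rw [hu]; linarith [Real.exp_pos t]
  have hu3 : |u| * R ≤ 1 := by
    have := mul_le_mul_of_nonneg_right hu2 hR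
    nlinarith [mul_nonneg (abs_nonneg t) hR, abs_nonneg t]
  have h2 := Phi_final2 u R hR hu1 hu3 P y T hy S hS (fun p hp => ⟨(hP p hp).1, (hP p hp).2.1⟩) hT
  have h3 : u + R * u ^ 2 ≤ t + (1 + 4 * R) * t ^ 2 := by
    have h4 : u ^ 2 ≤ 4 * t ^ 2 := by
      have := sq_le_sq' (by linarith [abs_nonneg u, abs_nonneg t]) hu2
      rw [sq_abs] at this
      calc u ^ 2 ≤ (2 * |t|) ^ 2 := this
        _ = 4 * t ^ 2 := by rw [mul_pow, sq_abs]; ring
    have := (abs_le.1 h1).2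
    have h5 := mul_le_mul_of_nonneg_left h4 hR
    linarith
  have h5 : 0 ≤ (S.card : ℝ) * Wp P := mul_nonneg (Nat.cast_nonneg _) (Wp_pos P (fun p hp => (hP p hp).1.two_le)).le
  calc ∑ l ∈ range (∏ p ∈ P, p), Real.exp (t * XX q r P S l)
      = ∑ l ∈ range (∏ p ∈ P, p), (1 + u) ^ (XX q r P S l) := by
        apply sum_congr rfl
        intro l _
        rw [hu, add_sub_cancel, ← Real.exp_nat_mul, mul_comm]
    _ = ((∏ p ∈ P, p : ℕ) : ℝ) * Phi P S u := per_gen q r P S (fun p hp => ⟨(hP p hp).1, (hP p hp).2.2⟩) u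
    _ ≤ ((∏ p ∈ P, p : ℕ) : ℝ) * Real.exp (S.card * Wp P * (u + R * u ^ 2)) :=
        mul_le_mul_of_nonneg_left h2 (Nat.cast_nonneg _)
    _ ≤ _ := by
        apply mul_le_mul_of_nonneg_left _ (Nat.cast_nonneg _)
        exact Real.exp_le_exp.2 (mul_le_mul_of_nonneg_left h3 h5)

/-- central moments over a full period -/
lemma per_central2 (q r : ℕ) (P S : Finset ℕ) (y T : ℕ) (R : ℝ) (hR : 0 ≤ R) (hy : 1 ≤ y) (hS : S ⊆ Icc 1 T)
    (hP : ∀ p ∈ P, p.Prime ∧ y < p ∧ ¬ p ∣ q)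
    (hT : 8 * Wp (P.filter (fun p => T < p)) * T ≤ R * (Wp (P.filter (fun p => p ≤ T)) * y))
    (k : ℕ) (hk : 1 ≤ k) (hkμ : (k : ℝ) * (1 + 4 * R) ≤ S.card * Wp P) :
    ∑ l ∈ range (∏ p ∈ P, p), ((XX q r P S l : ℝ) - S.card * Wp P) ^ (2 * k) ≤
      ((∏ p ∈ P, p : ℕ) : ℝ) * (2 * (4 * Real.exp 1 * k * (1 + 4 * R) * (S.card * Wp P)) ^ k) := by
  set μ : ℝ := S.card * Wp P with hμ
  set G : ℝ := 1 + 4 * R with hG
  have hk0 : (0 : ℝ) < k := by exact_mod_cast hk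
  have hG1 : 1 ≤ G := by rw [hG]; linarith
  have hG0 : 0 < G := by linarith
  have hμ0 : 0 < μ := (show (0 : ℝ) < k * G by positivity).trans_le hkμ
  set t : ℝ := √(k / (μ * G)) with ht
  have ht0 : 0 < t := Real.sqrt_pos.2 (by positivity)
  have ht2 : t ^ 2 = k / (μ * G) := Real.sq_sqrt (by positivity)
  have ht1 : t * G ≤ 1 := by
    have h0 : (k : ℝ) / (μ * G) ≤ (1 / G) ^ 2 := by
      rw [div_le_iff₀ (by positivity)]
      have e : (1 / G) ^ 2 * (μ * G) = μ / G := by field_simp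
      rw [e, le_div_iff₀ hG0]
      exact hkμ
    have h1 : t ≤ 1 / G := by
      calc t ≤ √((1 / G) ^ 2) := Real.sqrt_le_sqrt h0
        _ = 1 / G := Real.sqrt_sq (by positivity)
    rw [le_div_iff₀ hG0] at h1
    exact h1
  have h5 : ∀ s : ℝ, |s| = t → ∑ l ∈ range (∏ p ∈ P, p), Real.exp (s * ((XX q r P S l : ℝ) - μ)) ≤
      ((∏ p ∈ P, p : ℕ) : ℝ) * Real.exp 1 ^ k := by
    intro s hs
    have h6 := per_exp2 q r P S y T R hR hy hS hP hT s (by rw [hs]; exact ht1)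
    have hs2 : s ^ 2 = k / (μ * G) := by rw [← sq_abs, hs, ht2]
    calc ∑ l ∈ range (∏ p ∈ P, p), Real.exp (s * ((XX q r P S l : ℝ) - μ))
        = Real.exp (-(s * μ)) * ∑ l ∈ range (∏ p ∈ P, p), Real.exp (s * (XX q r P S l : ℝ)) := by
          rw [mul_sum]
          apply sum_congr rfl
          intro l _
          rw [← Real.exp_add]
          congr 1
          ring
      _ ≤ Real.exp (-(s * μ)) * (((∏ p ∈ P, p : ℕ) : ℝ) * Real.exp (S.card * Wp P * (s + (1 + 4 * R) * s ^ 2))) :=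
          mul_le_mul_of_nonneg_left h6 (Real.exp_pos _).le
      _ = ((∏ p ∈ P, p : ℕ) : ℝ) * (Real.exp (-(s * μ)) * Real.exp (μ * (s + G * s ^ 2))) := by
          rw [hμ]; ring
      _ = ((∏ p ∈ P, p : ℕ) : ℝ) * Real.exp 1 ^ k := by
          rw [← Real.exp_add, ← Real.exp_nat_mul, hs2]
          congr 2
          field_simp
          ring
  calc ∑ l ∈ range (∏ p ∈ P, p), ((XX q r P S l : ℝ) - μ) ^ (2 * k)
      ≤ ∑ l ∈ range (∏ p ∈ P, p), (2 * k : ℝ) ^ (2 * k) * (1 / t) ^ (2 * k) *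
          (Real.exp (t * ((XX q r P S l : ℝ) - μ)) + Real.exp (-(t * ((XX q r P S l : ℝ) - μ)))) := by
        apply sum_le_sum
        intro l _
        exact pow_le_exp _ t ht0 k
    _ = (2 * k : ℝ) ^ (2 * k) * (1 / t) ^ (2 * k) *
          (∑ l ∈ range (∏ p ∈ P, p), Real.exp (t * ((XX q r P S l : ℝ) - μ)) +
           ∑ l ∈ range (∏ p ∈ P, p), Real.exp ((-t) * ((XX q r P S l : ℝ) - μ))) := by
        rw [← mul_sum, ← sum_add_distrib]
        congr 1
        apply sum_congr rfl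
        intro l _
        rw [neg_mul]
    _ ≤ (2 * k : ℝ) ^ (2 * k) * (1 / t) ^ (2 * k) *
          (((∏ p ∈ P, p : ℕ) : ℝ) * Real.exp 1 ^ k + ((∏ p ∈ P, p : ℕ) : ℝ) * Real.exp 1 ^ k) := by
        apply mul_le_mul_of_nonneg_left _ (by positivity)
        exact add_le_add (h5 t (abs_of_pos ht0)) (h5 (-t) (by rw [abs_neg, abs_of_pos ht0]))
    _ = _ := by
        have e1 : (1 / t) ^ (2 * k) = (μ * G / k) ^ k := by
          rw [pow_mul, div_pow, one_pow, ht2, one_div_div]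
        have e2 : (2 * k : ℝ) ^ (2 * k) = (4 * k ^ 2) ^ k := by rw [pow_mul]; congr 1; ring
        rw [e1, e2]
        have e3 : (4 * (k : ℝ) ^ 2) ^ k * (μ * G / k) ^ k * Real.exp 1 ^ k = (4 * Real.exp 1 * k * G * μ) ^ k := by
          rw [← mul_pow, ← mul_pow]
          congr 1
          field_simp
        rw [← e3]
        ring

/-- the other moments over a full period -/
lemma per_plus2 (q r : ℕ) (P S : Finset ℕ) (y T : ℕ) (R : ℝ) (hR : 0 ≤ R) (hy : 1 ≤ y) (hS : S ⊆ Icc 1 T)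
    (hP : ∀ p ∈ P, p.Prime ∧ y < p ∧ ¬ p ∣ q)
    (hT : 8 * Wp (P.filter (fun p => T < p)) * T ≤ R * (Wp (P.filter (fun p => p ≤ T)) * y))
    (k : ℕ) (hk : 1 ≤ k) (hkμ : (k : ℝ) * (1 + 4 * R) ≤ S.card * Wp P) :
    ∑ l ∈ range (∏ p ∈ P, p), ((XX q r P S l : ℝ) + S.card * Wp P) ^ (2 * k) ≤
      ((∏ p ∈ P, p : ℕ) : ℝ) * (4 * Real.exp 3 * (S.card * Wp P) ^ 2) ^ k := by
  set μ : ℝ := S.card * Wp P with hμ
  set G : ℝ := 1 + 4 * R with hG
  have hk0 : (0 : ℝ) < k := by exact_mod_cast hk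
  have hG1 : 1 ≤ G := by rw [hG]; linarith
  have hG0 : 0 < G := by linarith
  have hμ0 : 0 < μ := (show (0 : ℝ) < k * G by positivity).trans_le hkμ
  set t : ℝ := k / μ with ht
  have ht0 : 0 < t := by positivity
  have ht1 : t * G ≤ 1 := by
    rw [ht, div_mul_eq_mul_div, div_le_one hμ0]
    exact hkμ
  have h6 := per_exp2 q r P S y T R hR hy hS hP hT t (by rw [abs_of_pos ht0]; exact ht1)
  have h1 : ∀ x : ℝ, 0 ≤ x → x ^ (2 * k) ≤ (2 * k : ℝ) ^ (2 * k) * (1 / t) ^ (2 * k) * Real.exp (t * x) := by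
    intro x hx
    have h1 := Real.pow_div_factorial_le_exp (t * x) (by positivity) (2 * k)
    have h4 : (((2 * k).factorial : ℕ) : ℝ) ≤ (2 * k : ℝ) ^ (2 * k) := by
      have := Nat.factorial_le_pow (2 * k)
      exact_mod_cast this
    have hf : (0 : ℝ) < ((2 * k).factorial : ℝ) := by exact_mod_cast Nat.factorial_pos _
    rw [div_le_iff₀ hf, mul_pow] at h1
    have htk : 0 < t ^ (2 * k) := by positivity
    rw [one_div, inv_pow]
    calc x ^ (2 * k) = (t ^ (2 * k))⁻¹ * (t ^ (2 * k) * x ^ (2 * k)) := by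
          rw [← mul_assoc, inv_mul_cancel₀ htk.ne', one_mul]
      _ ≤ (t ^ (2 * k))⁻¹ * (Real.exp (t * x) * (2 * k : ℝ) ^ (2 * k)) := by
          apply mul_le_mul_of_nonneg_left _ (by positivity)
          exact h1.trans (mul_le_mul_of_nonneg_left h4 (Real.exp_pos _).le)
      _ = _ := by ring
  calc ∑ l ∈ range (∏ p ∈ P, p), ((XX q r P S l : ℝ) + μ) ^ (2 * k)
      ≤ ∑ l ∈ range (∏ p ∈ P, p), (2 * k : ℝ) ^ (2 * k) * (1 / t) ^ (2 * k) *
          Real.exp (t * ((XX q r P S l : ℝ) + μ)) := by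
        apply sum_le_sum
        intro l _
        exact h1 _ (by positivity)
    _ = (2 * k : ℝ) ^ (2 * k) * (1 / t) ^ (2 * k) * (Real.exp (t * μ) *
          ∑ l ∈ range (∏ p ∈ P, p), Real.exp (t * (XX q r P S l : ℝ))) := by
        rw [← mul_sum, mul_sum (s := range (∏ p ∈ P, p)) (a := Real.exp (t * μ))]
        congr 1
        apply sum_congr rfl
        intro l _
        rw [← Real.exp_add]
        congr 1
        ring
    _ ≤ (2 * k : ℝ) ^ (2 * k) * (1 / t) ^ (2 * k) * (Real.exp (t * μ) *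
          (((∏ p ∈ P, p : ℕ) : ℝ) * Real.exp (S.card * Wp P * (t + (1 + 4 * R) * t ^ 2)))) := by
        gcongr
    _ = ((∏ p ∈ P, p : ℕ) : ℝ) * ((4 * μ ^ 2) ^ k * (Real.exp (t * μ) * Real.exp (μ * (t + G * t ^ 2)))) := by
        have e2 : (2 * k : ℝ) ^ (2 * k) * (1 / t) ^ (2 * k) = (4 * μ ^ 2) ^ k := by
          rw [← mul_pow, pow_mul]
          congr 1
          rw [ht]
          field_simp
          ring
        rw [e2, hμ]
        ring
    _ ≤ ((∏ p ∈ P, p : ℕ) : ℝ) * ((4 * μ ^ 2) ^ k * Real.exp 3 ^ k) := by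
        apply mul_le_mul_of_nonneg_left _ (Nat.cast_nonneg _)
        apply mul_le_mul_of_nonneg_left _ (by positivity)
        rw [← Real.exp_add, ← Real.exp_nat_mul]
        apply Real.exp_le_exp.2
        have e3 : t * μ = k := by rw [ht]; field_simp
        have e4 : μ * (G * t ^ 2) ≤ k := by
          calc μ * (G * t ^ 2) = (t * μ) * (t * G) := by ring
            _ = k * (t * G) := by rw [e3]
            _ ≤ k * 1 := mul_le_mul_of_nonneg_left ht1 (by positivity)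
            _ = k := mul_one _
        nlinarith
    _ = _ := by
        rw [← mul_pow]
        congr 2
        ring

theorem core2 : ∃ C0 : ℕ, 1 ≤ C0 ∧ ∀ (q r : ℕ) (P S : Finset ℕ) (y T k b Jd X : ℕ) (ε R : ℝ), 0 ≤ R →
    1 ≤ k → C0 * (2 * k) ≤ b → 2 ≤ b → 4 * k + 10 ≤ y →
    (∀ p ∈ P, p.Prime ∧ y < p ∧ p ≤ 2 ^ 2 ^ Jd ∧ ¬ p ∣ q) → S ⊆ Icc 1 T →
    8 * Wp (P.filter (fun p => T < p)) * T ≤ R * (Wp (P.filter (fun p => p ≤ T)) * y) →
    (k : ℝ) * (1 + 4 * R) ≤ S.card * Wp P → 0 < ε →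
    (((Icc 1 X).filter (fun l => ε * (S.card * Wp P) < |(XX q r P S l : ℝ) - S.card * Wp P|)).card : ℝ) ≤
      X * (2 * (4 * Real.exp 1 * k * (1 + 4 * R) / (ε ^ 2 * (S.card * Wp P))) ^ k + (1 / 2) ^ b * (4 * Real.exp 3 / ε ^ 2) ^ k) +
      ((S.card + S.card * Wp P) / (ε * (S.card * Wp P))) ^ (2 * k) *
        (((Jd : ℝ) + 2) * (((2 : ℝ) ^ 2 ^ Jd) ^ (10 * b)) ^ 2) := by
  obtain ⟨C0, hC0, hint⟩ := int_count'
  refine ⟨C0, hC0, ?_⟩
  intro q r P S y T k b Jd X ε R hR hk hb hb2 hy hP hS hT hkμ hε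
  set μ : ℝ := S.card * Wp P with hμ
  have hk0 : (0 : ℝ) < k := by exact_mod_cast hk
  have hμ0 : 0 < μ := (show (0 : ℝ) < k * (1 + 4 * R) by positivity).trans_le hkμ
  set E : ℝ := ((Jd : ℝ) + 2) * (((2 : ℝ) ^ 2 ^ Jd) ^ (10 * b)) ^ 2 with hE
  have hE0 : 0 ≤ E := by rw [hE]; positivity
  set Pi : ℝ := ((∏ p ∈ P, p : ℕ) : ℝ) with hPi
  have hPi0 : 0 < Pi := by
    rw [hPi]
    exact_mod_cast Nat.pos_of_ne_zero (prod_ne_zero_iff.2 fun p hp => (hP p hp).1.ne_zero)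
  have hPq : ∀ p ∈ P, p.Prime ∧ ¬ p ∣ q := fun p hp => ⟨(hP p hp).1, (hP p hp).2.2.2⟩
  set Rg' := range (∏ p ∈ P, p) with hRg'
  set x : ℕ → ℝ := fun l => (XX q r P S l : ℝ) with hx
  set I : ℕ → ℝ := fun i => ∑ l ∈ Icc 1 X, x l ^ i with hI
  set M : ℕ → ℝ := fun i => ∑ l ∈ Rg', x l ^ i with hM
  have hM0 : ∀ i, 0 ≤ M i := fun i => sum_nonneg fun l _ => by positivity
  -- the moments
  have hmom : ∀ i ≤ 2 * k, |I i - X * (M i / Pi)| ≤ (1 / 2) ^ b * (X * (M i / Pi)) + (S.card : ℝ) ^ i * E := by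
    intro i hi
    have e1 : I i = ∑ f ∈ Fintype.piFinset (fun _ : Fin i => S), (NN q r P (Icc 1 X) (univ.image f) : ℝ) :=
      mom_sum q r P S (Icc 1 X) i
    have e2 : M i / Pi = ∑ f ∈ Fintype.piFinset (fun _ : Fin i => S), rho P (univ.image f) := by
      have e3 : M i = ∑ f ∈ Fintype.piFinset (fun _ : Fin i => S), (NN q r P Rg' (univ.image f) : ℝ) :=
        mom_sum q r P S Rg' i
      rw [e3, sum_div]
      apply sum_congr rfl
      intro f _
      rw [hRg', per_NN q r P _ hPq, mul_div_assoc, mul_comm, div_mul_cancel₀ _ hPi0.ne']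
    rw [e1, e2, mul_sum, ← sum_sub_distrib]
    refine (abs_sum_le_sum_abs _ _).trans ?_
    have h1 : ∀ f ∈ Fintype.piFinset (fun _ : Fin i => S), |(NN q r P (Icc 1 X) (univ.image f) : ℝ) -
        X * rho P (univ.image f)| ≤ (1 / 2) ^ b * (X * rho P (univ.image f)) + E := by
      intro f _
      apply hint (2 * k) b Jd y q r P (univ.image f) hb hb2 (by omega) (fun p hp => ⟨(hP p hp).1, (hP p hp).2.1, (hP p hp).2.2.1⟩)
        (fun p hp => (hP p hp).2.2.2)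
      calc (univ.image f).card ≤ (univ : Finset (Fin i)).card := card_image_le
        _ = i := by simp
        _ ≤ 2 * k := hi
    refine (sum_le_sum h1).trans (le_of_eq ?_)
    rw [sum_add_distrib, ← mul_sum, sum_const, nsmul_eq_mul, Fintype.card_piFinset, prod_const, card_univ, Fintype.card_fin]
    push_cast
    rfl
  -- the central moment
  have hcen : ∑ l ∈ Icc 1 X, (x l - μ) ^ (2 * k) ≤ X * (2 * (4 * Real.exp 1 * k * (1 + 4 * R) * μ) ^ k) +
      (1 / 2) ^ b * (X * (4 * Real.exp 3 * μ ^ 2) ^ k) + (S.card + μ) ^ (2 * k) * E := by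
    have e1 : ∑ l ∈ Icc 1 X, (x l - μ) ^ (2 * k) = ∑ i ∈ range (2 * k + 1), I i * (-μ) ^ (2 * k - i) * ((2 * k).choose i : ℝ) := by
      have := binom_expand I (-μ) (2 * k) (Icc 1 X) x (fun i => rfl)
      rw [← this]
      apply sum_congr rfl
      intro l _
      rw [sub_eq_add_neg]
    have e2 : ∑ l ∈ Rg', (x l - μ) ^ (2 * k) = ∑ i ∈ range (2 * k + 1), M i * (-μ) ^ (2 * k - i) * ((2 * k).choose i : ℝ) := by
      have := binom_expand M (-μ) (2 * k) Rg' x (fun i => rfl)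
      rw [← this]
      apply sum_congr rfl
      intro l _
      rw [sub_eq_add_neg]
    have e3 : ∑ l ∈ Rg', (x l + μ) ^ (2 * k) = ∑ i ∈ range (2 * k + 1), M i * μ ^ (2 * k - i) * ((2 * k).choose i : ℝ) :=
      binom_expand M μ (2 * k) Rg' x (fun i => rfl)
    have e4 : ((S.card : ℝ) + μ) ^ (2 * k) = ∑ i ∈ range (2 * k + 1), (S.card : ℝ) ^ i * μ ^ (2 * k - i) * ((2 * k).choose i : ℝ) :=
      add_pow _ _ _
    have h1 : ∑ l ∈ Icc 1 X, (x l - μ) ^ (2 * k) ≤ (X / Pi) * ∑ l ∈ Rg', (x l - μ) ^ (2 * k) +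
        (1 / 2) ^ b * ((X / Pi) * ∑ l ∈ Rg', (x l + μ) ^ (2 * k)) + (S.card + μ) ^ (2 * k) * E := by
      rw [e1, e2, e3, e4, mul_sum, mul_sum, mul_sum, sum_mul, ← sum_add_distrib, ← sum_add_distrib]
      apply sum_le_sum
      intro i hi
      have hi' : i ≤ 2 * k := by
        have := mem_range.1 hi
        omega
      have h2 := hmom i hi'
      set c : ℝ := ((2 * k).choose i : ℝ) with hc
      have hc0 : 0 ≤ c := Nat.cast_nonneg _
      have h3 : (I i - X * (M i / Pi)) * (-μ) ^ (2 * k - i) ≤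
          ((1 / 2) ^ b * (X * (M i / Pi)) + (S.card : ℝ) ^ i * E) * μ ^ (2 * k - i) := by
        calc (I i - X * (M i / Pi)) * (-μ) ^ (2 * k - i) ≤ |(I i - X * (M i / Pi)) * (-μ) ^ (2 * k - i)| := le_abs_self _
          _ = |I i - X * (M i / Pi)| * μ ^ (2 * k - i) := by
              rw [abs_mul, abs_pow, abs_neg, abs_of_pos hμ0]
          _ ≤ _ := mul_le_mul_of_nonneg_right h2 (by positivity)
      have h4 := mul_le_mul_of_nonneg_right h3 hc0
      have e5 : I i * (-μ) ^ (2 * k - i) * c = (X / Pi) * (M i * (-μ) ^ (2 * k - i) * c) +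
          (I i - X * (M i / Pi)) * (-μ) ^ (2 * k - i) * c := by ring
      rw [e5]
      have e6 : ((1 / 2) ^ b * (X * (M i / Pi)) + (S.card : ℝ) ^ i * E) * μ ^ (2 * k - i) * c =
          (1 / 2) ^ b * ((X / Pi) * (M i * μ ^ (2 * k - i) * c)) + (S.card : ℝ) ^ i * μ ^ (2 * k - i) * c * E := by ring
      rw [e6] at h4
      linarith
    have h2 := per_central2 q r P S y T R hR (by omega) hS (fun p hp => ⟨(hP p hp).1, (hP p hp).2.1, (hP p hp).2.2.2⟩) hT k hk hkμ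
    have h3 := per_plus2 q r P S y T R hR (by omega) hS (fun p hp => ⟨(hP p hp).1, (hP p hp).2.1, (hP p hp).2.2.2⟩) hT k hk hkμ
    have h4 : (X / Pi) * ∑ l ∈ Rg', (x l - μ) ^ (2 * k) ≤ X * (2 * (4 * Real.exp 1 * k * (1 + 4 * R) * μ) ^ k) := by
      calc (X / Pi) * ∑ l ∈ Rg', (x l - μ) ^ (2 * k) ≤ (X / Pi) * (Pi * (2 * (4 * Real.exp 1 * k * (1 + 4 * R) * μ) ^ k)) :=
            mul_le_mul_of_nonneg_left h2 (by positivity)
        _ = _ := by field_simp
    have h5 : (X / Pi) * ∑ l ∈ Rg', (x l + μ) ^ (2 * k) ≤ X * (4 * Real.exp 3 * μ ^ 2) ^ k := by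
      calc (X / Pi) * ∑ l ∈ Rg', (x l + μ) ^ (2 * k) ≤ (X / Pi) * (Pi * (4 * Real.exp 3 * μ ^ 2) ^ k) :=
            mul_le_mul_of_nonneg_left h3 (by positivity)
        _ = _ := by field_simp
    have h6 := mul_le_mul_of_nonneg_left h5 (show (0 : ℝ) ≤ (1 / 2) ^ b by positivity)
    linarith
  -- Markov
  set B := (Icc 1 X).filter (fun l => ε * μ < |(XX q r P S l : ℝ) - μ|) with hB
  have hεμ : 0 < ε * μ := by positivity
  have hmar : (B.card : ℝ) * (ε * μ) ^ (2 * k) ≤ ∑ l ∈ Icc 1 X, (x l - μ) ^ (2 * k) := by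
    calc (B.card : ℝ) * (ε * μ) ^ (2 * k) = ∑ l ∈ B, (ε * μ) ^ (2 * k) := by
          rw [sum_const, nsmul_eq_mul]
      _ ≤ ∑ l ∈ B, (x l - μ) ^ (2 * k) := by
          apply sum_le_sum
          intro l hl
          rw [hB, mem_filter] at hl
          have h1 : (x l - μ) ^ (2 * k) = |x l - μ| ^ (2 * k) := by
            rw [pow_mul, pow_mul, sq_abs]
          rw [h1]
          exact pow_le_pow_left₀ hεμ.le hl.2.le _
      _ ≤ _ := by
          apply sum_le_sum_of_subset_of_nonneg (filter_subset _ _)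
          intro l _ _
          rw [pow_mul]
          positivity
  have h1 := hmar.trans hcen
  have hden : 0 < (ε * μ) ^ (2 * k) := by positivity
  rw [← le_div_iff₀ hden] at h1
  refine h1.trans (le_of_eq ?_)
  have e1 : (ε * μ) ^ (2 * k) = (ε ^ 2 * μ ^ 2) ^ k := by rw [pow_mul, mul_pow]
  have e2 : 2 * (4 * Real.exp 1 * k * (1 + 4 * R) * μ) ^ k / (ε * μ) ^ (2 * k) = 2 * (4 * Real.exp 1 * k * (1 + 4 * R) / (ε ^ 2 * μ)) ^ k := by
    rw [e1, mul_div_assoc, ← div_pow]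
    congr 2
    field_simp
  have e3 : (X : ℝ) * (4 * Real.exp 3 * μ ^ 2) ^ k / (ε * μ) ^ (2 * k) = X * (4 * Real.exp 3 / ε ^ 2) ^ k := by
    rw [e1, mul_div_assoc, ← div_pow]
    congr 2
    field_simp
  have e4 : ((S.card : ℝ) + μ) ^ (2 * k) * E / (ε * μ) ^ (2 * k) = ((S.card + μ) / (ε * μ)) ^ (2 * k) * E := by
    rw [div_pow]
    ring
  have e5 : ∀ a c d D : ℝ, (X * a + (1 / 2) ^ b * (X * c) + d) / D =
      X * (a / D) + (1 / 2) ^ b * (X * c / D) + d / D := by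
    intro a c d D
    ring
  rw [e5, e2, e3, e4]
  ring

end Pool.Agent.H36.EX
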