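import Mathlib
import Pool.Agent.H36.EX.Core2
import Pool.Agent.H36.GP.Full

/-!
Small primes: every window is regular, for all sets of primes and all classes.
-/

set_option autoImplicit false

open Finset Filter Topology

namespace Pool.Agent.H36.EX

open Pool.Agent.H373R2.T7 Pool.Agent.H36.RW Pool.Agent.H36.GP Pool.Agent.H36.LH

open Classical in
/-- the fundamental lemma for one class per prime -/
theorem small_sieve (ε : ℝ) (hε : 0 < ε) : ∃ K x0 : ℕ, 2 ≤ K ∧ 3 ≤ x0 ∧ ∀ z T : ℕ, x0 ≤ z → z ^ K ≤ T →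
    ∀ P : Finset ℕ, (∀ p ∈ P, p.Prime ∧ p ≤ z) → ∀ (a : ℕ → ℕ) (c : ℕ),
    |(((Icc 1 T).filter (fun h => FreeS P a (c + h))).card : ℝ) - T * Wp P| ≤ ε * (T * Wp P) := by
  obtain ⟨K1, x1, hK1, hfund⟩ := sys_fund 1 le_rfl (ε / 2) (by positivity)
  obtain ⟨cl, hcl, hVl⟩ := Vz_lower
  have hLt : Tendsto (fun y : ℕ => Real.log (y : ℝ)) atTop atTop :=
    Real.tendsto_log_atTop.comp tendsto_natCast_atTop_atTop
  obtain ⟨x2, hx2⟩ := eventually_atTop.1 (hLt.eventually (ev_pow_exp (2 / (ε * cl)) 1 one_pos 1))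
  refine ⟨max K1 2, max (max x1 x2) 3, le_max_right _ _, le_max_right _ _, ?_⟩
  intro z T hz hT P hP a c
  have hz1 : x1 ≤ z := (le_max_left _ _).trans ((le_max_left _ _).trans hz)
  have hz2 : x2 ≤ z := (le_max_right _ _).trans ((le_max_left _ _).trans hz)
  have hz3 : 3 ≤ z := (le_max_right _ _).trans hz
  have hT1 : z ^ K1 ≤ T := (Nat.pow_le_pow_right (by omega) (le_max_left _ _)).trans hT
  have hT2 : z ^ 2 ≤ T := (Nat.pow_le_pow_right (by omega) (le_max_right _ _)).trans hT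
  have hPz : P ⊆ pz z := fun p hp => mem_pz.2 ⟨(hP p hp).2, (hP p hp).1⟩
  set Q : ℕ → ℕ → Prop := fun p n => p ∈ P ∧ c + n ≡ a p [MOD p] with hQ
  have hmod : ∀ p n, (c + n ≡ a p [MOD p]) ↔ (c + n % p ≡ a p [MOD p]) := by
    intro p n
    have h1 : c + n % p ≡ c + n [MOD p] := Nat.ModEq.add_left c (Nat.mod_modEq n p)
    exact ⟨fun h => h1.trans h, fun h => h1.symm.trans h⟩
  have huniq : ∀ p r r', r < p → r' < p → Q p r → Q p r' → r = r' := by
    intro p r r' hr hr' h1 h1'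
    have h2 : c + r ≡ c + r' [MOD p] := h1.2.trans h1'.2.symm
    have h3 : r ≡ r' [MOD p] := Nat.ModEq.add_left_cancel' c h2
    unfold Nat.ModEq at h3
    rwa [Nat.mod_eq_of_lt hr, Nat.mod_eq_of_lt hr'] at h3
  have hle1 : ∀ p, nuB Q p ≤ 1 := by
    intro p
    unfold nuB
    rw [card_le_one]
    intro r hr r' hr'
    simp only [mem_filter, mem_range] at hr hr'
    exact huniq p r r' hr.1 hr'.1 hr.2 hr'.2
  have hper : PerB Q 1 := by
    refine ⟨fun p n => ?_, fun p _ => hle1 p⟩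
    rw [hQ]
    exact and_congr_right fun _ => hmod p n
  have hnu0 : ∀ p, p ∉ P → nuB Q p = 0 := by
    intro p hp
    unfold nuB
    apply card_eq_zero.2
    ext r
    simp only [mem_filter, notMem_empty, iff_false]
    intro h
    exact hp h.2.1
  have hnu1 : ∀ p ∈ P, nuB Q p = 1 := by
    intro p hp
    apply le_antisymm (hle1 p)
    unfold nuB
    rw [Nat.one_le_iff_ne_zero, Ne, card_eq_zero, ← Ne, ← nonempty_iff_ne_empty]
    have hp0 : 0 < p := (hP p hp).1.pos
    refine ⟨(a p + p * c - c) % p, ?_⟩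
    simp only [mem_filter, mem_range]
    refine ⟨Nat.mod_lt _ hp0, hp, ?_⟩
    have h1 : c ≤ p * c := Nat.le_mul_of_pos_left c hp0
    have h2 : c + (a p + p * c - c) % p ≡ c + (a p + p * c - c) [MOD p] :=
      Nat.ModEq.add_left c (Nat.mod_modEq _ _)
    have h3 : c + (a p + p * c - c) = a p + p * c := by omega
    rw [h3] at h2
    refine h2.trans ?_
    simp [Nat.ModEq]
  have hprod : ∏ p ∈ pz z, (1 - (nuB Q p : ℝ) / p) = Wp P := by
    unfold Wp
    symm
    rw [← prod_subset hPz]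
    · apply prod_congr rfl
      intro p hp
      rw [hnu1 p hp, Nat.cast_one]
    · intro p _ hp
      rw [hnu0 p hp]
      simp
  have hfilt : ∀ n, (∀ p ∈ pz z, ¬ Q p n) ↔ FreeS P a (c + n) := by
    intro n
    constructor
    · intro h p hp hm
      exact h p (hPz hp) ⟨hp, hm⟩
    · intro h p _ hm
      exact h p hm.1 hm.2
  have h1 := hfund T z hz1 hT1 Q hper T
  rw [hprod] at h1
  have h1' : |(((Icc 1 T).filter (fun h => FreeS P a (c + h))).card : ℝ) - T * Wp P| ≤ ε / 2 * (T * Wp P) + √(T : ℝ) := by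
    convert h1 using 4
    apply congrArg card
    ext n
    simp only [mem_filter]
    exact and_congr_right fun _ => (hfilt n).symm
  refine h1'.trans ?_
  have hzr : (3 : ℝ) ≤ z := by exact_mod_cast hz3
  have hl0 : 0 < Real.log z := Real.log_pos (by linarith)
  have hWl : cl / Real.log z ≤ Wp P := by
    refine (hVl z (by omega)).trans ?_
    have e : Vz z = Wp (pz z) := rfl
    rw [e]
    have h2 : pz z = P ∪ (pz z \ P) := (union_sdiff_of_subset hPz).symm
    have h3 : Wp (pz z) = Wp P * Wp (pz z \ P) := by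
      unfold Wp
      conv_lhs => rw [h2]
      exact prod_union disjoint_sdiff
    rw [h3]
    have h4 := Wp_le_one (pz z \ P) (fun p hp => (mem_pz.1 (mem_sdiff.1 hp).1).2.two_le)
    have h5 := Wp_pos P (fun p hp => (hP p hp).1.two_le)
    calc Wp P * Wp (pz z \ P) ≤ Wp P * 1 := mul_le_mul_of_nonneg_left h4 h5.le
      _ = Wp P := mul_one _
  have hsq : (z : ℝ) ≤ √(T : ℝ) := by
    rw [Real.le_sqrt (by positivity) (Nat.cast_nonneg _)]
    exact_mod_cast hT2
  have hlogz : 2 / (ε * cl) * Real.log z ≤ z := by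
    have := hx2 z hz2
    rw [pow_one, one_mul, Real.exp_log (by linarith)] at this
    exact this
  have hsT : √(T : ℝ) * √(T : ℝ) = T := Real.mul_self_sqrt (Nat.cast_nonneg _)
  have hkey : 1 ≤ ε / 2 * (√(T : ℝ) * (cl / Real.log z)) := by
    have h2 : 2 / (ε * cl) * Real.log z ≤ √(T : ℝ) := hlogz.trans hsq
    calc (1 : ℝ) = ε / 2 * ((2 / (ε * cl) * Real.log z) * (cl / Real.log z)) := by field_simp
      _ ≤ _ := by gcongr
  have hfin : √(T : ℝ) ≤ ε / 2 * (T * Wp P) := by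
    calc √(T : ℝ) = √(T : ℝ) * 1 := (mul_one _).symm
      _ ≤ √(T : ℝ) * (ε / 2 * (√(T : ℝ) * (cl / Real.log z))) := mul_le_mul_of_nonneg_left hkey (Real.sqrt_nonneg _)
      _ = ε / 2 * ((√(T : ℝ) * √(T : ℝ)) * (cl / Real.log z)) := by ring
      _ = ε / 2 * (T * (cl / Real.log z)) := by rw [hsT]
      _ ≤ ε / 2 * (T * Wp P) := by gcongr
  linarith

end Pool.Agent.H36.EX
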