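import Mathlib
import Pool.Agent.H36.EX.Small

/-!
Concentration in windows, for all sets of primes, with explicit order.
-/

set_option autoImplicit false

open Finset Filter Topology

namespace Pool.Agent.H36.EX

open Pool.Agent.H373R2.T7 Pool.Agent.H36.RW Pool.Agent.H36.BF Pool.Agent.H36.GP Pool.Agent.H36.LH
open Pool.Agent.TH464.PO

/-- classes and a shift -/
lemma shift_ex (P : Finset ℕ) (hP : ∀ p ∈ P, p.Prime) (a : ℕ → ℕ) :
    ∃ r : ℕ, ∀ p ∈ P, ∀ m : ℕ, m ≡ a p [MOD p] ↔ p ∣ m + r := by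
  classical
  have hpp : ∀ p ∈ P, p ≠ 0 := fun p hp => (hP p hp).ne_zero
  have hco : Set.Pairwise (↑P : Set ℕ) (Function.onFun Nat.Coprime (fun p : ℕ => p)) := by
    intro p hp p' hp' hne
    exact (Nat.coprime_primes (hP p hp) (hP p' hp')).2 hne
  obtain ⟨r, hr⟩ := Nat.chineseRemainderOfFinset (fun p => (p - a p % p)) (fun p => p) P hpp hco
  refine ⟨r, ?_⟩
  intro p hp m
  have hp0 : 0 < p := (hP p hp).pos
  have h1 : a p + r ≡ 0 [MOD p] := by
    have h2 : r + a p ≡ (p - a p % p) + a p % p [MOD p] := Nat.ModEq.add (hr p hp) (Nat.mod_modEq _ _).symm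
    have h3 : (p - a p % p) + a p % p = p := Nat.sub_add_cancel (Nat.mod_lt _ hp0).le
    rw [h3] at h2
    rw [add_comm]
    exact h2.trans (by simp [Nat.ModEq])
  rw [← Nat.modEq_zero_iff_dvd]
  constructor
  · intro h
    exact (Nat.ModEq.add_right _ h).trans h1
  · intro h
    exact Nat.ModEq.add_right_cancel' r (h.trans h1.symm)

open Classical in
/-- survivors of the small primes -/
noncomputable def Sc (P1 : Finset ℕ) (a : ℕ → ℕ) (c T : ℕ) : Finset ℕ :=
  (Icc 1 T).filter (fun h => FreeS P1 a (c + h))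

open Classical in
lemma Wc_XX (P : Finset ℕ) (z : ℕ) (a : ℕ → ℕ) (r0 : ℕ)
    (hr0 : ∀ p ∈ P, ∀ m : ℕ, m ≡ a p [MOD p] ↔ p ∣ m + r0) (Q : ℕ) (hQ : ∀ p ∈ P, p ≤ z → p ∣ Q) (N c l T : ℕ) :
    Wc (FreeS P a) (N + (Q * l + c)) T =
      XX Q (N + c + r0) (P.filter (fun p => z < p)) (Sc (P.filter (fun p => p ≤ z)) a (N + c) T) l := by
  unfold Wc XX Sc
  symm
  apply card_bij (fun h _ => N + (Q * l + c) + h)
  · intro h hh
    rw [mem_filter, mem_filter, mem_Icc] at hh
    obtain ⟨⟨h1, h2⟩, h3⟩ := hh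
    rw [mem_filter, mem_Ioc]
    refine ⟨by omega, ?_⟩
    intro p hp hm
    rcases Nat.lt_or_ge z p with h4 | h4
    · apply h3 p (mem_filter.2 ⟨hp, h4⟩)
      have h5 := (hr0 p hp _).1 hm
      have e : Q * l + (N + c + r0) + h = N + (Q * l + c) + h + r0 := by ring
      rw [e]
      exact h5
    · apply h2 p (mem_filter.2 ⟨hp, h4⟩)
      refine Nat.ModEq.trans ?_ hm
      obtain ⟨Q', hQ'⟩ := hQ p hp h4
      have e : N + (Q * l + c) + h = N + c + h + p * (Q' * l) := by rw [hQ']; ring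
      rw [e]
      simp [Nat.ModEq]
  · intro h _ h' _ hh
    simpa using hh
  · intro m hm
    rw [mem_filter, mem_Ioc] at hm
    obtain ⟨h1, h2⟩ := hm
    refine ⟨m - (N + (Q * l + c)), ?_, by omega⟩
    have em : N + (Q * l + c) + (m - (N + (Q * l + c))) = m := by omega
    rw [mem_filter, mem_filter, mem_Icc]
    refine ⟨⟨by omega, ?_⟩, ?_⟩
    · intro p hp hmod
      rw [mem_filter] at hp
      apply h2 p hp.1
      refine Nat.ModEq.trans ?_ hmod
      obtain ⟨Q', hQ'⟩ := hQ p hp.1 hp.2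
      have e : m = N + c + (m - (N + (Q * l + c))) + p * (Q' * l) := by
        have e1 : p * (Q' * l) = Q * l := by rw [hQ']; ring
        rw [e1]
        omega
      conv_lhs => rw [e]
      simp [Nat.ModEq]
    · intro p hp hdvd
      rw [mem_filter] at hp
      apply h2 p hp.1
      apply (hr0 p hp.1 m).2
      have e : Q * l + (N + c + r0) + (m - (N + (Q * l + c))) = m + r0 := by omega
      rw [e] at hdvd
      exact hdvd

lemma Wp_split (P : Finset ℕ) (q : ℕ → Prop) [DecidablePred q] :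
    Wp P = Wp (P.filter q) * Wp (P.filter (fun p => ¬ q p)) := by
  unfold Wp
  exact (prod_filter_mul_prod_filter_not _ _ _).symm

lemma Wp_sub_ge (P P' : Finset ℕ) (h : P' ⊆ P) (hP : ∀ p ∈ P, 2 ≤ p) : Wp P ≤ Wp P' := by
  classical
  have h2 : P = P' ∪ (P \ P') := (union_sdiff_of_subset h).symm
  have h3 : Wp P = Wp P' * Wp (P \ P') := by
    unfold Wp
    conv_lhs => rw [h2]
    exact prod_union disjoint_sdiff
  rw [h3]
  have h4 := Wp_le_one (P \ P') (fun p hp => hP p (mem_sdiff.1 hp).1)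
  have h5 := Wp_pos P' (fun p hp => hP p (h hp))
  calc Wp P' * Wp (P \ P') ≤ Wp P' * 1 := mul_le_mul_of_nonneg_left h4 h5.le
    _ = Wp P' := mul_one _

/-- the product over the primes in `(z, T]` -/
lemma mid_lower : ∃ c : ℝ, 0 < c ∧ ∀ (K z T : ℕ), 1 ≤ K → 2 ≤ z → z ≤ T → T ≤ z ^ K → ∀ P : Finset ℕ,
    (∀ p ∈ P, p.Prime ∧ z < p ∧ p ≤ T) → c / K ≤ Wp P := by
  obtain ⟨cl, hcl, hVl⟩ := Vz_lower
  obtain ⟨Cu, hCu, hVu⟩ := Vz_upper
  refine ⟨cl / Cu, by positivity, ?_⟩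
  intro K z T hK hz hzT hTz P hP
  have hz0 : (1 : ℝ) < z := by exact_mod_cast hz
  have hlz : 0 < Real.log z := Real.log_pos hz0
  have hT0 : (1 : ℝ) < T := by exact_mod_cast (by omega : 1 < T)
  have hlT : 0 < Real.log T := Real.log_pos hT0
  have hsub : P ⊆ Pyz z T := fun p hp => mem_Pyz.2 ⟨(hP p hp).2.1, (hP p hp).2.2, (hP p hp).1⟩
  have h1 := Wp_sub_ge (Pyz z T) P hsub (fun p hp => (mem_Pyz.1 hp).2.2.two_le)
  refine le_trans ?_ h1
  rw [Wp_Pyz' z T hzT]
  have h2 := hVl T (by omega)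
  have h3 := hVu z hz
  have hVz : 0 < Vz z := lt_of_lt_of_le (by positivity) (hVl z hz)
  have hKr : (0 : ℝ) < K := by exact_mod_cast hK
  have hlog : Real.log T ≤ K * Real.log z := by
    rw [← Real.log_pow]
    apply Real.log_le_log (by linarith)
    exact_mod_cast hTz
  rw [le_div_iff₀ hVz]
  calc cl / Cu / K * Vz z ≤ cl / Cu / K * (Cu / Real.log z) := by gcongr
    _ = cl / (K * Real.log z) := by field_simp
    _ ≤ cl / Real.log T := by gcongr
    _ ≤ Vz T := h2

end Pool.Agent.H36.EX
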