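import Mathlib
import Pool.Agent.H36.EX.Block

/-!
Concentration in windows, for all sets of primes, with explicit order.
-/

set_option autoImplicit false

open Finset Filter Topology

namespace Pool.Agent.H36.EX

open Pool.Agent.H373R2.T7 Pool.Agent.H36.RW Pool.Agent.H36.BF Pool.Agent.H36.GP Pool.Agent.H36.LH
open Pool.Agent.TH464.PO

/-- comparison of the two main terms -/
lemma comp_two (ε X μ M : ℝ) (hε : 0 < ε) (hε1 : ε ≤ 1) (hM : 0 ≤ M) (h1 : |μ - M| ≤ ε / 4 * M)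
    (h2 : |X - μ| ≤ ε / 4 * μ) : |X - M| ≤ ε * M := by
  obtain ⟨a1, a2⟩ := abs_le.1 h1
  obtain ⟨b1, b2⟩ := abs_le.1 h2
  have h3 : ε / 4 * μ ≤ ε / 4 * (5 / 4 * M) := by
    apply mul_le_mul_of_nonneg_left _ (by positivity)
    nlinarith
  have h4 : 0 ≤ ε * M := by positivity
  rw [abs_le]
  constructor <;> nlinarith

/-- the final computation with the three terms -/
lemma three_terms (ε' Q E Y : ℝ) (k : ℕ) (hQ : 0 < Q) (hY : 0 ≤ Y) (XQ : ℝ) (hXQ : XQ ≤ Y / Q) (hXQ0 : 0 ≤ XQ)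
    (s1 s2 s3 : ℝ) (h1 : s1 ≤ Real.exp (-k) / 4) (h2 : s2 ≤ Real.exp (-k) / 4) (h3 : s3 ≤ E) (hE : 0 ≤ E)
    (hbig : Q * (1 + E) ≤ Y * (Real.exp (-k) / 2)) : Q * (1 + (XQ * (s1 + s2) + s3)) ≤ Y * Real.exp (-k) := by
  have h4 : XQ * (s1 + s2) ≤ (Y / Q) * (Real.exp (-k) / 2) := by
    have h5 : XQ * (s1 + s2) ≤ XQ * (Real.exp (-k) / 2) := mul_le_mul_of_nonneg_left (by linarith) hXQ0
    exact h5.trans (mul_le_mul_of_nonneg_right hXQ (by positivity))
  calc Q * (1 + (XQ * (s1 + s2) + s3)) ≤ Q * (1 + ((Y / Q) * (Real.exp (-k) / 2) + E)) := by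
        apply mul_le_mul_of_nonneg_left _ hQ.le
        linarith
    _ = Y * (Real.exp (-k) / 2) + Q * (1 + E) := by
        field_simp
        ring
    _ ≤ Y * (Real.exp (-k) / 2) + Y * (Real.exp (-k) / 2) := by linarith
    _ = _ := by ring

lemma shift_card (N Y : ℕ) (bad : ℕ → Prop) [DecidablePred bad] [DecidablePred (fun n => bad (N + n))] :
    ((Ioc N (N + Y)).filter bad).card ≤ ((Icc 1 Y).filter (fun n => bad (N + n))).card := by
  apply card_le_card_of_injOn (fun n => n - N)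
  · intro n hn
    rw [mem_coe, mem_filter, mem_Ioc] at hn
    rw [mem_coe, mem_filter, mem_Icc]
    have e : N + (n - N) = n := by omega
    simp only [e]
    exact ⟨by omega, hn.2⟩
  · intro n hn n' hn' h
    rw [mem_coe, mem_filter, mem_Ioc] at hn hn'
    simp only at h
    omega

open Classical in
lemma Wc_eq (F : ℕ → Prop) (n T : ℕ) : Wc F n T = ((Icc 1 T).filter (fun h => F (n + h))).card := by
  unfold Wc
  symm
  apply card_bij (fun h _ => n + h)
  · intro h hh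
    rw [mem_filter, mem_Icc] at hh
    rw [mem_filter, mem_Ioc]
    exact ⟨by omega, hh.2⟩
  · intro h _ h' _ hh
    simpa using hh
  · intro m hm
    rw [mem_filter, mem_Ioc] at hm
    have e : n + (m - n) = m := by omega
    refine ⟨m - n, ?_, e⟩
    rw [mem_filter, mem_Icc, e]
    exact ⟨by omega, hm.2⟩

open Classical in
theorem dev_block (ε : ℝ) (hε : 0 < ε) (hε1 : ε ≤ 1) : ∃ (K x0 C1 : ℕ) (C : ℝ), 2 ≤ K ∧ 3 ≤ x0 ∧ 1 ≤ C ∧
    (∀ (y z T : ℕ) (P : Finset ℕ) (a : ℕ → ℕ) (n : ℕ), x0 ≤ z → y ≤ z → z ^ K ≤ T → P ⊆ pz y →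
      |(Wc (FreeS P a) n T : ℝ) - T * Wp P| ≤ ε * (T * Wp P)) ∧
    ∀ (y z k Y T : ℕ) (P : Finset ℕ) (a : ℕ → ℕ) (N : ℕ), x0 ≤ z → z ^ K ≤ T → T ≤ z ^ (2 * K) →
      P ⊆ pz y → 1 ≤ k → C * k * Real.log z ≤ z → C * k ≤ T * Wp P → 4 ^ z * y ^ (C1 * k) ≤ Y →
    (((Ioc N (N + Y)).filter (fun n => ε * (T * Wp P) < |(Wc (FreeS P a) n T : ℝ) - T * Wp P|)).card : ℝ) ≤
      Y * Real.exp (-k) := by
  obtain ⟨K, x1, hK2, hx1, hsm⟩ := small_sieve (ε / 4) (by positivity)
  obtain ⟨C0, hC0, hcore⟩ := core2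
  obtain ⟨cm, hcm, hmid⟩ := mid_lower
  obtain ⟨cl, hcl, hVl⟩ := Vz_lower
  obtain ⟨Ci, hCi, hinv⟩ := Wp_inv
  set ε' : ℝ := ε / 4 with hε'
  have hε'0 : 0 < ε' := by rw [hε']; positivity
  set A : ℝ := 32 * Real.exp 2 / ε' ^ 2 with hA
  have hA0 : 0 < A := by rw [hA]; positivity
  obtain ⟨B0, hB0⟩ := exists_pow_lt_of_lt_one (show 0 < ε' ^ 2 / (16 * Real.exp 4) by positivity)
    (show (1 / 2 : ℝ) < 1 by norm_num)
  set B := B0 + 2 * C0 + 2 with hB
  have hBε : (1 / 2 : ℝ) ^ B ≤ ε' ^ 2 / (16 * Real.exp 4) := by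
    refine le_trans ?_ hB0.le
    apply pow_le_pow_of_le_one (by norm_num) (by norm_num)
    omega
  have hKr : (0 : ℝ) < K := by exact_mod_cast (by omega : 0 < K)
  set c2 : ℝ := cm / ((2 * K : ℕ) : ℝ) with hc2
  have hc20 : 0 < c2 := by
    rw [hc2]
    have : (0 : ℝ) < ((2 * K : ℕ) : ℝ) := by exact_mod_cast (by omega : 0 < 2 * K)
    positivity
  refine ⟨K, max x1 ⌈2 * Ci / ε'⌉₊, 51 + 40 * B, 14 + 4 * A + 64 * A / (c2 ^ 2 * cl), hK2,
    hx1.trans (le_max_left _ _), by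
      have : 0 < 64 * A / (c2 ^ 2 * cl) := by positivity
      linarith, ?_⟩
  have hdet : ∀ (y z T : ℕ) (P : Finset ℕ) (a : ℕ → ℕ) (n : ℕ), max x1 ⌈2 * Ci / ε'⌉₊ ≤ z → y ≤ z → z ^ K ≤ T → P ⊆ pz y →
      |(Wc (FreeS P a) n T : ℝ) - T * Wp P| ≤ ε * (T * Wp P) := by
    intro y z T P a n hxz hyz hzT hP
    rw [Wc_eq]
    have h1 := hsm z T ((le_max_left _ _).trans hxz) hzT P (fun p hp =>
      ⟨(mem_pz.1 (hP hp)).2, ((mem_pz.1 (hP hp)).1).trans hyz⟩) a n
    refine h1.trans ?_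
    have h2 : 0 ≤ T * Wp P := mul_nonneg (Nat.cast_nonneg _) (Wp_pos P (fun p hp => (mem_pz.1 (hP hp)).2.two_le)).le
    nlinarith
  refine ⟨hdet, ?_⟩
  intro y z k Y T P a N hxz hzT hTz hP hk hkz hkT hY
  rcases Nat.lt_or_ge y z with hyz | hzy
  · have h0 : (Ioc N (N + Y)).filter (fun n => ε * (T * Wp P) < |(Wc (FreeS P a) n T : ℝ) - T * Wp P|) = ∅ := by
      rw [filter_eq_empty_iff]
      intro n _
      rw [not_lt]
      exact hdet y z T P a n hxz hyz.le hzT hP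
    rw [h0, card_empty, Nat.cast_zero]
    positivity
  set C : ℝ := 14 + 4 * A + 64 * A / (c2 ^ 2 * cl) with hC
  have hC3 : 0 < 64 * A / (c2 ^ 2 * cl) := by positivity
  have hz1 : x1 ≤ z := (le_max_left _ _).trans hxz
  have hz2 : ⌈2 * Ci / ε'⌉₊ ≤ z := (le_max_right _ _).trans hxz
  have hz3 : 3 ≤ z := hx1.trans hz1
  have hy3 : 3 ≤ y := hz3.trans hzy
  have hzr : (3 : ℝ) ≤ z := by exact_mod_cast hz3
  have hyr : (3 : ℝ) ≤ y := by exact_mod_cast hy3
  have hlz : 1 ≤ Real.log z := by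
    rw [Real.le_log_iff_exp_le (by linarith)]
    have := Real.exp_one_lt_d9
    linarith
  have hk0 : (1 : ℝ) ≤ k := by exact_mod_cast hk
  have hkp : (0 : ℝ) < k := by linarith
  have hT1 : z ≤ T := by
    calc z = z ^ 1 := (pow_one z).symm
      _ ≤ z ^ K := Nat.pow_le_pow_right (by omega) (by omega)
      _ ≤ T := hzT
  have hT0 : (0 : ℝ) < T := by exact_mod_cast (by omega : 0 < T)
  have hPp : ∀ p ∈ P, p.Prime := fun p hp => (mem_pz.1 (hP hp)).2
  have hPy : ∀ p ∈ P, p ≤ y := fun p hp => (mem_pz.1 (hP hp)).1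
  set P1 := P.filter (fun p => p ≤ z) with hP1
  set P2 := P.filter (fun p => z < p) with hP2
  have hP1p : ∀ p ∈ P1, p.Prime ∧ p ≤ z := fun p hp => ⟨hPp p (mem_filter.1 hp).1, (mem_filter.1 hp).2⟩
  have hP2p : ∀ p ∈ P2, p.Prime ∧ z < p ∧ p ≤ y := fun p hp =>
    ⟨hPp p (mem_filter.1 hp).1, (mem_filter.1 hp).2, hPy p (mem_filter.1 hp).1⟩
  have hW12 : Wp P = Wp P1 * Wp P2 := by
    rw [Wp_split P (fun p => p ≤ z)]
    congr 2
    apply filter_congr
    intro p _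
    omega
  set PM := P2.filter (fun p => p ≤ T) with hPM
  set PL := P2.filter (fun p => T < p) with hPL
  have hW2 : Wp P2 = Wp PM * Wp PL := by
    rw [Wp_split P2 (fun p => p ≤ T)]
    congr 2
    apply filter_congr
    intro p _
    omega
  have hW1p : 0 < Wp P1 := Wp_pos P1 (fun p hp => (hP1p p hp).1.two_le)
  have hW2p : 0 < Wp P2 := Wp_pos P2 (fun p hp => (hP2p p hp).1.two_le)
  have hWLp : 0 < Wp PL := Wp_pos PL (fun p hp => (hP2p p (mem_filter.1 hp).1).1.two_le)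
  have hWp : 0 < Wp P := by rw [hW12]; positivity
  have hWM : c2 ≤ Wp PM := hmid (2 * K) z T (by omega) (by omega) hT1 hTz PM (fun p hp =>
    ⟨(hP2p p (mem_filter.1 hp).1).1, (hP2p p (mem_filter.1 hp).1).2.1, (mem_filter.1 hp).2⟩)
  have hW1l : cl / Real.log z ≤ Wp P1 := (hVl z (by omega)).trans
    (Wp_sub_ge (pz z) P1 (fun p hp => mem_pz.2 ⟨(hP1p p hp).2, (hP1p p hp).1⟩) (fun p hp => (mem_pz.1 hp).2.two_le))
  -- the modulus
  set Q := ∏ p ∈ P1, p with hQ
  have hQ0 : 0 < Q := Finset.prod_pos fun p hp => (hP1p p hp).1.pos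
  have hQr : (0 : ℝ) < Q := by exact_mod_cast hQ0
  have hQ4 : Q ≤ 4 ^ z := by
    refine le_trans ?_ (primorial_le_four_pow z)
    apply Finset.prod_le_prod_of_subset_of_one_le'
    · intro p hp
      rw [mem_filter, mem_range]
      exact ⟨by have := (hP1p p hp).2; omega, (hP1p p hp).1⟩
    · intro p hp _
      exact (mem_filter.1 hp).2.one_lt.le
  have hQd : ∀ p ∈ P, p ≤ z → p ∣ Q := fun p hp hpz => dvd_prod_of_mem _ (mem_filter.2 ⟨hp, hpz⟩)
  have hQn : ∀ p ∈ P2, ¬ p ∣ Q := by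
    intro p hp hd
    obtain ⟨h1, h2, _⟩ := hP2p p hp
    rw [hQ, Prime.dvd_finsetProd_iff h1.prime] at hd
    obtain ⟨p', hp', h⟩ := hd
    have h3 := (Nat.prime_dvd_prime_iff_eq h1 (hP1p p' hp').1).1 h
    have h4 := (hP1p p' hp').2
    omega
  obtain ⟨r0, hr0⟩ := shift_ex P hPp a
  -- the parameter `R`
  set R : ℝ := 8 * T * Wp PL / (c2 * z) with hR
  have hR0 : 0 ≤ R := by rw [hR]; positivity
  have hRT : 8 * Wp PL * T ≤ R * (Wp PM * z) := by
    calc 8 * Wp PL * T = R * (c2 * z) := by rw [hR]; field_simp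
      _ ≤ R * (Wp PM * z) := by gcongr
  -- the main condition
  have hmain : A * (k * (1 + 4 * R)) ≤ 3 / 4 * (T * Wp P) := by
    have h1 : A * k ≤ 1 / 4 * (T * Wp P) := by
      have h2 : 4 * A * k ≤ C * k := by
        apply mul_le_mul_of_nonneg_right _ hkp.le
        rw [hC]; linarith
      linarith
    have h2 : A * (k * (4 * R)) ≤ 1 / 2 * (T * Wp P) := by
      have h3 : 64 * A * k ≤ c2 * z * (Wp P1 * Wp PM) := by
        have h4 : 64 * A / (c2 ^ 2 * cl) * k * Real.log z ≤ z := by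
          refine le_trans ?_ hkz
          have h5 : 64 * A / (c2 ^ 2 * cl) ≤ C := by rw [hC]; linarith
          gcongr
        calc 64 * A * k = (64 * A / (c2 ^ 2 * cl) * k * Real.log z) * (c2 ^ 2 * (cl / Real.log z)) := by field_simp
          _ ≤ z * (c2 ^ 2 * (cl / Real.log z)) := mul_le_mul_of_nonneg_right h4 (by positivity)
          _ = c2 * z * ((cl / Real.log z) * c2) := by ring
          _ ≤ c2 * z * (Wp P1 * Wp PM) := by gcongr
      calc A * (k * (4 * R)) = (64 * A * k) * (T * Wp PL) / (2 * (c2 * z)) := by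
            rw [hR]; field_simp; ring
        _ ≤ (c2 * z * (Wp P1 * Wp PM)) * (T * Wp PL) / (2 * (c2 * z)) := by gcongr
        _ = 1 / 2 * (T * (Wp P1 * (Wp PM * Wp PL))) := by field_simp
        _ = 1 / 2 * (T * Wp P) := by rw [hW12, hW2]
    have h3 : A * (k * (1 + 4 * R)) = A * k + A * (k * (4 * R)) := by ring
    rw [h3]
    linarith
  have hA1 : 1 ≤ A := by
    rw [hA, le_div_iff₀ (by positivity)]
    have h1 : ε' ^ 2 ≤ 1 := by
      have : ε' ≤ 1 := by rw [hε']; linarith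
      exact pow_le_one₀ hε'0.le this
    have h2 : 1 ≤ Real.exp 2 := Real.one_le_exp (by norm_num)
    linarith
  -- the error term
  set b := B * k with hb
  set E : ℝ := (y : ℝ) ^ ((46 + 40 * B) * k) with hE
  have hE0 : 0 ≤ E := by rw [hE]; positivity
  set J := JJ y with hJ
  have hJ1 : ((J : ℝ) + 2) ≤ y ^ 2 := by
    have h1 : J + 2 ≤ 2 * y := JJ_small y hy3
    have h2 : ((J : ℝ) + 2) ≤ 2 * y := by exact_mod_cast h1
    nlinarith
  have hJ2 : (2 : ℝ) ^ 2 ^ J ≤ (y : ℝ) ^ 2 := by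
    have h1 := JJ_le y (by omega)
    exact_mod_cast h1
  have hErr : ((J : ℝ) + 2) * (((2 : ℝ) ^ 2 ^ J) ^ (10 * b)) ^ 2 ≤ (y : ℝ) ^ (2 + 40 * b) := by
    calc ((J : ℝ) + 2) * (((2 : ℝ) ^ 2 ^ J) ^ (10 * b)) ^ 2 ≤ (y : ℝ) ^ 2 * (((y : ℝ) ^ 2) ^ (10 * b)) ^ 2 := by
          gcongr
      _ = (y : ℝ) ^ (2 + 40 * b) := by
          rw [← pow_mul, ← pow_mul, ← pow_add]
          congr 1
          ring
  -- every class
  have hcls : ∀ c : ℕ, (((Icc 1 (Y / Q)).filter (fun l => ε * (T * Wp P) <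
      |(Wc (FreeS P a) (N + (Q * l + c)) T : ℝ) - T * Wp P|)).card : ℝ) ≤
      ((Y / Q : ℕ) : ℝ) * (2 * (4 * Real.exp 1 * k * (1 + 4 * R) / (ε' ^ 2 * (((Sc P1 a (N + c) T).card : ℝ) * Wp P2))) ^ k +
        (1 / 2) ^ b * (4 * Real.exp 3 / ε' ^ 2) ^ k) +
      ((((Sc P1 a (N + c) T).card : ℝ) + (Sc P1 a (N + c) T).card * Wp P2) /
        (ε' * ((Sc P1 a (N + c) T).card * Wp P2))) ^ (2 * k) *
        (((J : ℝ) + 2) * (((2 : ℝ) ^ 2 ^ J) ^ (10 * b)) ^ 2) ∧
      3 / 4 * (T * Wp P1) ≤ ((Sc P1 a (N + c) T).card : ℝ) := by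
    intro c
    set S := Sc P1 a (N + c) T with hS
    have hS1 : |(S.card : ℝ) - T * Wp P1| ≤ ε / 4 * (T * Wp P1) := hsm z T hz1 hzT P1 hP1p a (N + c)
    have hS2 : 3 / 4 * (T * Wp P1) ≤ (S.card : ℝ) := by
      have h1 := (abs_le.1 hS1).1
      have h2 : 0 ≤ T * Wp P1 := by positivity
      nlinarith
    refine ⟨?_, hS2⟩
    have hμ : 3 / 4 * (T * Wp P) ≤ S.card * Wp P2 := by
      calc 3 / 4 * (T * Wp P) = (3 / 4 * (T * Wp P1)) * Wp P2 := by rw [hW12]; ring
        _ ≤ S.card * Wp P2 := mul_le_mul_of_nonneg_right hS2 hW2p.le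
    have hkμ : (k : ℝ) * (1 + 4 * R) ≤ S.card * Wp P2 := by
      refine le_trans ?_ (hmain.trans hμ)
      have h1 : 0 ≤ (k : ℝ) * (1 + 4 * R) := by positivity
      calc (k : ℝ) * (1 + 4 * R) = 1 * (k * (1 + 4 * R)) := (one_mul _).symm
        _ ≤ A * (k * (1 + 4 * R)) := mul_le_mul_of_nonneg_right hA1 h1
    have h14 : 14 * k ≤ z := by
      have h1 : (14 : ℝ) * k ≤ z := by
        refine le_trans ?_ hkz
        have h2 : (14 : ℝ) ≤ C := by rw [hC]; linarith
        calc (14 : ℝ) * k = 14 * k * 1 := (mul_one _).symm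
          _ ≤ C * k * Real.log z := by gcongr
      exact_mod_cast h1
    have key := hcore Q (N + c + r0) P2 S z T k b J (Y / Q) ε' R hR0 hk
      (by
        rw [hb, hB]
        calc C0 * (2 * k) = (2 * C0) * k := by ring
          _ ≤ (B0 + 2 * C0 + 2) * k := Nat.mul_le_mul_right _ (by omega))
      (by
        rw [hb]
        calc 2 = 2 * 1 := by norm_num
          _ ≤ B * k := Nat.mul_le_mul (by omega) hk)
      (by omega)
      (fun p hp => ⟨(hP2p p hp).1, (hP2p p hp).2.1, (hP2p p hp).2.2.trans (JJ_lt y).le, hQn p hp⟩)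
      (filter_subset _ _) (by convert hRT using 3) hkμ hε'0
    refine le_trans ?_ key
    rw [Nat.cast_le]
    apply card_le_card
    intro l hl
    rw [mem_filter] at hl ⊢
    refine ⟨hl.1, ?_⟩
    by_contra hcon
    rw [not_lt] at hcon
    apply absurd hl.2
    rw [not_lt]
    rw [Wc_XX P z a r0 hr0 Q hQd N c l T]
    apply comp_two ε _ (S.card * Wp P2) _ hε hε1 (by positivity) _ hcon
    have e : (S.card : ℝ) * Wp P2 - T * Wp P = (S.card - T * Wp P1) * Wp P2 := by rw [hW12]; ring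
    have e2 : ε / 4 * (T * Wp P) = (ε / 4 * (T * Wp P1)) * Wp P2 := by rw [hW12]; ring
    rw [e, e2, abs_mul, abs_of_pos hW2p]
    exact mul_le_mul_of_nonneg_right hS1 hW2p.le
  -- the bound for every class
  have hM : ∀ c : ℕ, (((Icc 1 (Y / Q)).filter (fun l => ε * (T * Wp P) <
      |(Wc (FreeS P a) (N + (Q * l + c)) T : ℝ) - T * Wp P|)).card : ℝ) ≤
      ((Y / Q : ℕ) : ℝ) * (Real.exp (-k) / 4 + Real.exp (-k) / 4) + E := by
    intro c
    obtain ⟨h1, h2⟩ := hcls c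
    refine h1.trans ?_
    set s := ((Sc P1 a (N + c) T).card : ℝ) with hs
    have hs0 : 0 < s := lt_of_lt_of_le (by positivity) h2
    have hμ : 3 / 4 * (T * Wp P) ≤ s * Wp P2 := by
      calc 3 / 4 * (T * Wp P) = (3 / 4 * (T * Wp P1)) * Wp P2 := by rw [hW12]; ring
        _ ≤ s * Wp P2 := mul_le_mul_of_nonneg_right h2 hW2p.le
    have hexpk : (Real.exp (-1)) ^ k = Real.exp (-k) := by
      rw [← Real.exp_nat_mul]
      congr 1
      ring
    have h3 : 2 * (4 * Real.exp 1 * k * (1 + 4 * R) / (ε' ^ 2 * (s * Wp P2))) ^ k ≤ Real.exp (-k) / 4 := by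
      have h4 : 4 * Real.exp 1 * k * (1 + 4 * R) / (ε' ^ 2 * (s * Wp P2)) ≤ Real.exp (-1) / 8 := by
        rw [div_le_iff₀ (by positivity)]
        have h5 := hmain.trans hμ
        have e2 : Real.exp 2 = Real.exp 1 * Real.exp 1 := by rw [← Real.exp_add]; norm_num
        have e3 : Real.exp (-1) * Real.exp 1 = 1 := by rw [← Real.exp_add]; norm_num
        have h6 : ε' ^ 2 * (A * (k * (1 + 4 * R))) = 32 * Real.exp 2 * (k * (1 + 4 * R)) := by
          rw [hA]; field_simp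
        have h7 : 32 * Real.exp 2 * (k * (1 + 4 * R)) ≤ ε' ^ 2 * (s * Wp P2) := by
          rw [← h6]
          exact mul_le_mul_of_nonneg_left h5 (by positivity)
        calc 4 * Real.exp 1 * k * (1 + 4 * R) = (Real.exp (-1) * Real.exp 1) * (4 * Real.exp 1 * k * (1 + 4 * R)) := by
              rw [e3, one_mul]
          _ = Real.exp (-1) / 8 * (32 * Real.exp 2 * (k * (1 + 4 * R))) := by rw [e2]; ring
          _ ≤ Real.exp (-1) / 8 * (ε' ^ 2 * (s * Wp P2)) := mul_le_mul_of_nonneg_left h7 (by positivity)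
      calc 2 * (4 * Real.exp 1 * k * (1 + 4 * R) / (ε' ^ 2 * (s * Wp P2))) ^ k ≤ 2 * (Real.exp (-1) / 8) ^ k := by
            gcongr
        _ = Real.exp (-k) * (2 * (1 / 8) ^ k) := by
            have : (Real.exp (-1) / 8) ^ k = Real.exp (-k) * (1 / 8) ^ k := by
              rw [← hexpk, ← mul_pow]
              congr 1
              ring
            rw [this]; ring
        _ ≤ Real.exp (-k) * (1 / 4) := by
            apply mul_le_mul_of_nonneg_left _ (Real.exp_pos _).le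
            have : (1 / 8 : ℝ) ^ k ≤ (1 / 8) ^ 1 := pow_le_pow_of_le_one (by norm_num) (by norm_num) hk
            linarith
        _ = _ := by ring
    have h4 : (1 / 2 : ℝ) ^ b * (4 * Real.exp 3 / ε' ^ 2) ^ k ≤ Real.exp (-k) / 4 := by
      rw [hb, pow_mul, ← mul_pow]
      have h5 : (1 / 2 : ℝ) ^ B * (4 * Real.exp 3 / ε' ^ 2) ≤ Real.exp (-1) / 4 := by
        calc (1 / 2 : ℝ) ^ B * (4 * Real.exp 3 / ε' ^ 2) ≤ ε' ^ 2 / (16 * Real.exp 4) * (4 * Real.exp 3 / ε' ^ 2) := by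
              gcongr
          _ = Real.exp 3 / Real.exp 4 / 4 := by field_simp; ring
          _ = Real.exp (-1) / 4 := by
              rw [← Real.exp_sub]
              norm_num
      calc ((1 / 2 : ℝ) ^ B * (4 * Real.exp 3 / ε' ^ 2)) ^ k ≤ (Real.exp (-1) / 4) ^ k := by gcongr
        _ = Real.exp (-k) * (1 / 4) ^ k := by
            rw [← hexpk, ← mul_pow]
            congr 1
            ring
        _ ≤ Real.exp (-k) * (1 / 4) := by
            apply mul_le_mul_of_nonneg_left _ (Real.exp_pos _).le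
            have : (1 / 4 : ℝ) ^ k ≤ (1 / 4) ^ 1 := pow_le_pow_of_le_one (by norm_num) (by norm_num) hk
            linarith
        _ = _ := by ring
    have h5 : ((s + s * Wp P2) / (ε' * (s * Wp P2))) ^ (2 * k) *
        (((J : ℝ) + 2) * (((2 : ℝ) ^ 2 ^ J) ^ (10 * b)) ^ 2) ≤ E := by
      have h6 : (s + s * Wp P2) / (ε' * (s * Wp P2)) ≤ (y : ℝ) ^ 2 := by
        have hW2' : Wp P2 ≤ 1 := Wp_le_one P2 (fun p hp => (hP2p p hp).1.two_le)
        have h7 : (s + s * Wp P2) / (ε' * (s * Wp P2)) ≤ 2 / (ε' * Wp P2) := by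
          rw [div_le_div_iff₀ (by positivity) (by positivity)]
          have : s * Wp P2 ≤ s := mul_le_of_le_one_right hs0.le hW2'
          have h8 : 0 < ε' * Wp P2 := by positivity
          nlinarith
        have h8 : 1 / Wp P2 ≤ Ci * y := by
          have h9 : 1 / Wp P2 ≤ 1 / Wp P := by
            apply one_div_le_one_div_of_le hWp
            rw [hW12]
            exact mul_le_of_le_one_left hW2p.le (Wp_le_one P1 (fun p hp => (hP1p p hp).1.two_le))
          have h10 := hinv y (by omega) P hP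
          have h11 : Real.log y ≤ y := Real.log_le_self (by linarith)
          calc 1 / Wp P2 ≤ Ci * Real.log y := h9.trans h10
            _ ≤ Ci * y := mul_le_mul_of_nonneg_left h11 hCi.le
        have h9 : 2 * Ci / ε' ≤ y := by
          refine (Nat.le_ceil _).trans ?_
          exact_mod_cast hz2.trans hzy
        calc (s + s * Wp P2) / (ε' * (s * Wp P2)) ≤ 2 / (ε' * Wp P2) := h7
          _ = 2 / ε' * (1 / Wp P2) := by field_simp
          _ ≤ 2 / ε' * (Ci * y) := by gcongr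
          _ = (2 * Ci / ε') * y := by ring
          _ ≤ y * y := by gcongr
          _ = (y : ℝ) ^ 2 := by ring
      calc ((s + s * Wp P2) / (ε' * (s * Wp P2))) ^ (2 * k) *
        (((J : ℝ) + 2) * (((2 : ℝ) ^ 2 ^ J) ^ (10 * b)) ^ 2) ≤ ((y : ℝ) ^ 2) ^ (2 * k) * (y : ℝ) ^ (2 + 40 * b) := by
            gcongr
        _ = (y : ℝ) ^ (4 * k + (2 + 40 * (B * k))) := by
            rw [hb, ← pow_mul, ← pow_add]
            congr 1
            ring
        _ ≤ E := by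
            rw [hE]
            apply pow_le_pow_right₀ (by linarith)
            nlinarith
    have h6 : (0 : ℝ) ≤ ((Y / Q : ℕ) : ℝ) := Nat.cast_nonneg _
    have h7 := mul_le_mul_of_nonneg_left (add_le_add h3 h4) h6
    linarith
  have hsplit := class_split Q hQ0 Y (fun n' => ε * (T * Wp P) < |(Wc (FreeS P a) (N + n') T : ℝ) - T * Wp P|) _ hM
  have hsh : (((Ioc N (N + Y)).filter (fun n => ε * (T * Wp P) < |(Wc (FreeS P a) n T : ℝ) - T * Wp P|)).card : ℝ) ≤
      (((Icc 1 Y).filter (fun n' => ε * (T * Wp P) < |(Wc (FreeS P a) (N + n') T : ℝ) - T * Wp P|)).card : ℝ) := by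
    exact_mod_cast shift_card N Y (fun n => ε * (T * Wp P) < |(Wc (FreeS P a) n T : ℝ) - T * Wp P|)
  refine hsh.trans (le_trans ?_ (three_terms ε' Q E Y k hQr (Nat.cast_nonneg _) ((Y / Q : ℕ) : ℝ) Nat.cast_div_le (Nat.cast_nonneg _)
    (Real.exp (-k) / 4) (Real.exp (-k) / 4) E le_rfl le_rfl le_rfl hE0 ?_))
  · convert hsplit using 3
  · -- the length of the interval
    have h1 : ((4 ^ z * y ^ ((51 + 40 * B) * k) : ℕ) : ℝ) ≤ Y := by exact_mod_cast hY
    push_cast at h1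
    have hQ4r : (Q : ℝ) ≤ 4 ^ z := by exact_mod_cast hQ4
    have h2 : 1 + E ≤ 2 * E := by
      have : 1 ≤ E := by rw [hE]; exact one_le_pow₀ (by linarith)
      linarith
    have h3 : Real.exp k ≤ (y : ℝ) ^ k := by
      have h4 : Real.exp 1 ≤ y := by
        have := Real.exp_one_lt_d9
        linarith
      calc Real.exp k = Real.exp 1 ^ k := by rw [← Real.exp_nat_mul]; ring_nf
        _ ≤ (y : ℝ) ^ k := pow_le_pow_left₀ (Real.exp_pos _).le h4 k
    have h4 : (4 : ℝ) ≤ (y : ℝ) ^ (4 * k) := by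
      calc (4 : ℝ) ≤ 3 ^ 2 := by norm_num
        _ ≤ (y : ℝ) ^ 2 := by gcongr
        _ ≤ (y : ℝ) ^ (4 * k) := pow_le_pow_right₀ (by linarith) (by omega)
    have h5 : Q * (1 + E) * (2 * Real.exp k) ≤ Y := by
      calc Q * (1 + E) * (2 * Real.exp k) ≤ 4 ^ z * (2 * E) * (2 * (y : ℝ) ^ k) := by gcongr
        _ = 4 * (4 ^ z * (E * (y : ℝ) ^ k)) := by ring
        _ ≤ (y : ℝ) ^ (4 * k) * (4 ^ z * (E * (y : ℝ) ^ k)) := by gcongr
        _ = 4 ^ z * (y : ℝ) ^ ((51 + 40 * B) * k) := by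
            have e : (51 + 40 * B) * k = 4 * k + ((46 + 40 * B) * k + k) := by ring
            rw [e, pow_add, pow_add, hE]
            ring
        _ ≤ Y := h1
    have h6 : Real.exp k * Real.exp (-k) = 1 := by rw [← Real.exp_add]; simp
    calc Q * (1 + E) = (Q * (1 + E) * (2 * Real.exp k)) * (Real.exp (-k) / 2) := by
          calc Q * (1 + E) = Q * (1 + E) * 1 := (mul_one _).symm
            _ = Q * (1 + E) * (Real.exp k * Real.exp (-k)) := by rw [h6]
            _ = _ := by ring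
      _ ≤ Y * (Real.exp (-k) / 2) := mul_le_mul_of_nonneg_right h5 (by positivity)

end Pool.Agent.H36.EX
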