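import Mathlib
import Pool.Agent.H36.EX.Dev

/-!
Exponential tails, for all sets of primes.
-/

set_option autoImplicit false

open Finset Filter Topology

namespace Pool.Agent.H36.EX

open Pool.Agent.H373R2.T7 Pool.Agent.H36.RW Pool.Agent.H36.BF Pool.Agent.H36.GP Pool.Agent.H36.LH
open Pool.Agent.TH464.PO

lemma log_le_two_sqrt (x : ℝ) (hx : 0 < x) : Real.log x ≤ 2 * √x := by
  have h1 : 0 < √x := Real.sqrt_pos.2 hx
  have h2 : Real.log (√x) ≤ √x := Real.log_le_self h1.le
  have h3 : Real.log x = 2 * Real.log (√x) := by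
    rw [Real.log_sqrt hx.le]
    ring
  rw [h3]
  linarith

/-- the length of the interval -/
lemma len_ok (y z k κ C1 Y : ℕ) (hy : 2 ≤ y) (hz : (z : ℝ) ≤ κ * Real.log y / 4) (hk : 2 * (C1 * k) ≤ κ)
    (hY : y ^ κ ≤ Y) : 4 ^ z * y ^ (C1 * k) ≤ Y := by
  refine le_trans ?_ hY
  have hy0 : (0 : ℝ) < y := by exact_mod_cast (by omega : 0 < y)
  have hl4 : Real.log 4 ≤ 1.4 := by
    have e : Real.log 4 = 2 * Real.log 2 := by
      rw [← Real.log_rpow (by norm_num)]
      norm_num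
    rw [e]
    have := log_two_bounds.2
    linarith
  have hl0 : 0 < Real.log y := Real.log_pos (by exact_mod_cast (by omega : 1 < y))
  have h1 : (4 : ℝ) ^ z * (y : ℝ) ^ (C1 * k) ≤ (y : ℝ) ^ κ := by
    have e1 : (4 : ℝ) ^ z = Real.exp (z * Real.log 4) := by
      rw [Real.exp_nat_mul, Real.exp_log (by norm_num)]
    have e2 : ∀ m : ℕ, (y : ℝ) ^ m = Real.exp (m * Real.log y) := fun m => by
      rw [Real.exp_nat_mul, Real.exp_log hy0]
    rw [e1, e2, e2, ← Real.exp_add]
    apply Real.exp_le_exp.2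
    have h2 : (z : ℝ) * Real.log 4 ≤ (κ * Real.log y / 4) * 1.4 := by
      apply mul_le_mul hz hl4 (Real.log_nonneg (by norm_num)) (by positivity)
    have h3 : ((C1 * k : ℕ) : ℝ) ≤ κ / 2 := by
      rw [le_div_iff₀ (by norm_num)]
      exact_mod_cast (by omega : C1 * k * 2 ≤ κ)
    have h4 : ((C1 * k : ℕ) : ℝ) * Real.log y ≤ κ / 2 * Real.log y := mul_le_mul_of_nonneg_right h3 hl0.le
    have h5 : 0 ≤ κ * Real.log y := by positivity
    nlinarith
  exact_mod_cast h1

open Classical in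
/-- **Exponential concentration for windows of bounded length** -/
theorem expDev (ε : ℝ) (hε : 0 < ε) (hε1 : ε < 1) : ∃ (c δ C : ℝ), 0 < c ∧ 0 < δ ∧ 0 < C ∧
    ∀ (y κ Y : ℕ), y ^ κ ≤ Y → ∀ P : Finset ℕ, P ⊆ pz y → ∀ (a : ℕ → ℕ) (N T : ℕ),
    ((T : ℝ) ^ (2 * δ) ≤ κ * Real.log y →
      (((Ioc N (N + Y)).filter (fun n => ε * (T * Wp P) < |(Wc (FreeS P a) n T : ℝ) - T * Wp P|)).card : ℝ) ≤
        C * (Y * Real.exp (-(c * min (T * Wp P) (min ((T : ℝ) ^ δ) κ))))) ∧
    ((Em (FreeS P a) N Y T : ℝ) ≤ C * (Y * Real.exp (-(c * min (T * Wp P) (min ((T : ℝ) ^ δ) κ))))) := by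
  obtain ⟨K, x0, C1, Cd, hK, hx0, hCd, hdet, hdev⟩ := dev_block ε hε hε1.le
  obtain ⟨Ci, hCi, hinv⟩ := Wp_inv
  have hKr : (0 : ℝ) < K := by exact_mod_cast (by omega : 0 < K)
  set c : ℝ := 1 / (2 * C1 + 8 * Cd + 8 * Ci * Cd + 1) with hc
  have hC1 : (0 : ℝ) ≤ C1 := Nat.cast_nonneg _
  have hden : 0 < 2 * (C1 : ℝ) + 8 * Cd + 8 * Ci * Cd + 1 := by positivity
  have hc0 : 0 < c := by rw [hc]; positivity
  have hcden : c * (2 * C1 + 8 * Cd + 8 * Ci * Cd + 1) = 1 := by rw [hc]; field_simp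
  have hcC1 : c * C1 ≤ 1 / 2 := by
    have h1 : 0 ≤ c * (8 * Cd + 8 * Ci * Cd + 1) := by positivity
    nlinarith
  have hcCd : c * Cd ≤ 1 / 8 := by
    have h1 : 0 ≤ c * (2 * C1 + 8 * Ci * Cd + 1) := by positivity
    nlinarith
  have hcCi : c * (Ci * Cd) ≤ 1 / 8 := by
    have h1 : 0 ≤ c * (2 * C1 + 8 * Cd + 1) := by positivity
    nlinarith
  set M0 : ℝ := 32 * ((x0 : ℝ) + 5) + 1 / c with hM0
  have hx0r : (3 : ℝ) ≤ x0 := by exact_mod_cast hx0
  have hM00 : 0 < M0 := by rw [hM0]; positivity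
  have hcM0 : 1 ≤ c * M0 := by
    have : c * M0 = c * (32 * ((x0 : ℝ) + 5)) + 1 := by rw [hM0]; field_simp
    rw [this]
    have : 0 < c * (32 * ((x0 : ℝ) + 5)) := by positivity
    linarith
  set δ : ℝ := 1 / (2 * K) with hδ
  have hδ0 : 0 < δ := by rw [hδ]; positivity
  refine ⟨c, δ, Real.exp (c * M0) + Real.exp 1, hc0, hδ0, by positivity, ?_⟩
  intro y κ Y hY P hP a N T
  set d := Wp P with hd
  have hd0 : 0 < d := Wp_pos' P y hP
  set M : ℝ := min (T * d) (min ((T : ℝ) ^ δ) κ) with hM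
  have hY0 : (0 : ℝ) ≤ Y := Nat.cast_nonneg _
  set CC : ℝ := Real.exp (c * M0) + Real.exp 1 with hCC
  have hCC0 : 0 < CC := by rw [hCC]; positivity
  -- trivial bound
  rcases le_or_gt M M0 with hMs | hMl
  · have h1 : (Y : ℝ) ≤ CC * (Y * Real.exp (-(c * M))) := by
      have h2 : Real.exp (c * M) ≤ CC := by
        rw [hCC]
        have h3 : Real.exp (c * M) ≤ Real.exp (c * M0) := Real.exp_le_exp.2 (by gcongr)
        linarith [Real.exp_pos 1]
      calc (Y : ℝ) = Y * (Real.exp (c * M) * Real.exp (-(c * M))) := by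
            rw [← Real.exp_add]; simp
        _ = Real.exp (c * M) * (Y * Real.exp (-(c * M))) := by ring
        _ ≤ CC * (Y * Real.exp (-(c * M))) := by
            apply mul_le_mul_of_nonneg_right h2 (by positivity)
    refine ⟨fun _ => le_trans ?_ h1, le_trans ?_ h1⟩
    · rw [Nat.cast_le]
      refine (card_filter_le _ _).trans ?_
      rw [Nat.card_Ioc]
      omega
    · exact_mod_cast Em_le _ N Y T
  -- the order
  have hM1 : M ≤ T * d := min_le_left _ _
  have hM2 : M ≤ (T : ℝ) ^ δ := (min_le_right _ _).trans (min_le_left _ _)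
  have hM3 : M ≤ κ := (min_le_right _ _).trans (min_le_right _ _)
  have hMp : 0 < M := hM00.trans hMl
  set k := ⌊c * M⌋₊ with hk
  have hkM : (k : ℝ) ≤ c * M := Nat.floor_le (by positivity)
  have hkM' : c * M < k + 1 := Nat.lt_floor_add_one _
  have hk1 : 1 ≤ k := by
    rw [hk]
    apply Nat.le_floor
    rw [Nat.cast_one]
    exact hcM0.trans (by gcongr)
  have hfin : (Y : ℝ) * Real.exp (-k) ≤ CC * (Y * Real.exp (-(c * M))) := by
    have h1 : Real.exp (-(k : ℝ)) ≤ Real.exp 1 * Real.exp (-(c * M)) := by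
      rw [← Real.exp_add]
      apply Real.exp_le_exp.2
      linarith
    calc (Y : ℝ) * Real.exp (-k) ≤ Y * (Real.exp 1 * Real.exp (-(c * M))) := mul_le_mul_of_nonneg_left h1 hY0
      _ = Real.exp 1 * (Y * Real.exp (-(c * M))) := by ring
      _ ≤ CC * (Y * Real.exp (-(c * M))) := by
          apply mul_le_mul_of_nonneg_right _ (by positivity)
          rw [hCC]
          linarith [Real.exp_pos (c * M0)]
  have hκk : 2 * (C1 * k) ≤ κ := by
    have h1 : 2 * ((C1 : ℝ) * k) ≤ κ := by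
      calc 2 * ((C1 : ℝ) * k) ≤ 2 * (C1 * (c * M)) := by gcongr
        _ = 2 * (c * C1) * M := by ring
        _ ≤ 2 * (1 / 2) * M := by gcongr
        _ = M := by ring
        _ ≤ κ := hM3
    exact_mod_cast h1
  have hT0 : (0 : ℝ) < T := by
    rcases (Nat.cast_nonneg T : (0 : ℝ) ≤ T).lt_or_eq with h | h
    · exact h
    · rw [← h, zero_mul] at hM1
      linarith
  have hκ0 : (0 : ℝ) < κ := by linarith
  -- the roots
  set ρ : ℝ := (T : ℝ) ^ (2 * δ) with hρ
  have hρδ : ρ = ((T : ℝ) ^ δ) ^ 2 := by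
    rw [hρ, mul_comm, Real.rpow_mul hT0.le]
    norm_num
  have hρK : ρ ^ K = T := by
    rw [hρ, ← Real.rpow_natCast, ← Real.rpow_mul hT0.le, hδ]
    have e : 2 * (1 / (2 * (K : ℝ))) * (K : ℝ) = 1 := by field_simp
    rw [e, Real.rpow_one]
  have hρ0 : 0 < ρ := by rw [hρ]; positivity
  have hM0ρ : M0 ≤ ρ := by
    rw [hρδ]
    have h1 : M0 ≤ (T : ℝ) ^ δ := hMl.le.trans hM2
    have h2 : 1 ≤ M0 := by
      rw [hM0]
      have : 0 < 1 / c := by positivity
      linarith
    nlinarith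
  have hM0x : 32 * ((x0 : ℝ) + 5) ≤ M0 := by
    rw [hM0]
    have : 0 < 1 / c := by positivity
    linarith
  -- bounded windows
  have hA : ρ ≤ κ * Real.log y → (((Ioc N (N + Y)).filter (fun n => ε * (T * d) <
      |(Wc (FreeS P a) n T : ℝ) - T * d|)).card : ℝ) ≤ Y * Real.exp (-k) := by
    intro hle
    have hy2 : 2 ≤ y := by
      by_contra hcon
      have h1 : y = 0 ∨ y = 1 := by omega
      rcases h1 with h | h <;> rw [h] at hle <;> simp at hle <;> linarith
    set z := ⌊ρ / 4⌋₊ with hz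
    have hz1 : (z : ℝ) ≤ ρ / 4 := Nat.floor_le (by positivity)
    have hz2 : ρ / 4 < z + 1 := Nat.lt_floor_add_one _
    have hzx : x0 ≤ z := by
      have : (x0 : ℝ) ≤ z := by linarith
      exact_mod_cast this
    have hz0 : (8 : ℝ) ≤ z := by linarith
    have hzT : z ^ K ≤ T := by
      have : (z : ℝ) ^ K ≤ T := by
        rw [← hρK]
        exact pow_le_pow_left₀ (Nat.cast_nonneg _) (by linarith) K
      exact_mod_cast this
    have hTz : T ≤ z ^ (2 * K) := by
      have : (T : ℝ) ≤ (z : ℝ) ^ (2 * K) := by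
        rw [← hρK, pow_mul]
        apply pow_le_pow_left₀ hρ0.le
        nlinarith
      exact_mod_cast this
    refine hdev y z k Y T P a N hzx hzT hTz hP hk1 ?_ ?_ ?_
    · -- `k` and `z`
      have h1 : (k : ℝ) ≤ c * (3 * √(z : ℝ)) := by
        refine hkM.trans ?_
        apply mul_le_mul_of_nonneg_left _ hc0.le
        have h2 : (T : ℝ) ^ δ = √ρ := by
          rw [hρδ, Real.sqrt_sq (by positivity)]
        refine hM2.trans ?_
        rw [h2]
        apply Real.sqrt_le_iff.2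
        refine ⟨by positivity, ?_⟩
        rw [mul_pow, Real.sq_sqrt (Nat.cast_nonneg _)]
        nlinarith
      have h2 := log_le_two_sqrt (z : ℝ) (by linarith)
      calc Cd * k * Real.log z ≤ Cd * (c * (3 * √(z : ℝ))) * (2 * √(z : ℝ)) := by gcongr
        _ = 6 * (c * Cd) * (√(z : ℝ) * √(z : ℝ)) := by ring
        _ = 6 * (c * Cd) * z := by rw [Real.mul_self_sqrt (Nat.cast_nonneg _)]
        _ ≤ 6 * (1 / 8) * z := by gcongr
        _ ≤ z := by linarith
    · calc Cd * k ≤ Cd * (c * M) := by gcongr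
        _ = (c * Cd) * M := by ring
        _ ≤ 1 * M := by
            apply mul_le_mul_of_nonneg_right _ hMp.le
            linarith
        _ ≤ T * d := by linarith
    · exact len_ok y z k κ C1 Y hy2 (by linarith) hκk hY
  refine ⟨fun h => (hA h).trans hfin, ?_⟩
  -- empty windows
  have hEW : ∀ T' : ℕ, 0 < T' → (Em (FreeS P a) N Y T' : ℝ) ≤ (((Ioc N (N + Y)).filter (fun n => ε * (T' * d) <
      |(Wc (FreeS P a) n T' : ℝ) - T' * d|)).card : ℝ) := by
    intro T' hT'
    rw [Nat.cast_le]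
    unfold Em
    apply card_le_card
    intro n hn
    rw [mem_filter] at hn ⊢
    refine ⟨hn.1, ?_⟩
    have h1 : Wc (FreeS P a) n T' = 0 := by
      rw [Wc_eq, card_eq_zero, filter_eq_empty_iff]
      exact fun h hh => hn.2 h hh
    rw [h1, Nat.cast_zero, zero_sub, abs_neg]
    have h2 : 0 < (T' : ℝ) * d := by
      have : (0 : ℝ) < T' := by exact_mod_cast hT'
      positivity
    rw [abs_of_pos h2]
    nlinarith
  have hTn : 0 < T := by exact_mod_cast hT0
  rcases le_or_gt ρ (κ * Real.log y) with hle | hgt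
  · exact (hEW T hTn).trans ((hA hle).trans hfin)
  -- the case of few classes
  rcases Nat.lt_or_ge y 2 with hy | hy2
  · have hPe : P = ∅ := by
      rw [eq_empty_iff_forall_notMem]
      intro p hp
      obtain ⟨h2, h3⟩ := mem_pz.1 (hP hp)
      have := h3.two_le
      omega
    have hE : Em (FreeS P a) N Y T = 0 := by
      unfold Em
      rw [card_eq_zero, filter_eq_empty_iff]
      intro n _ h1
      apply h1 1 (by rw [mem_Icc]; omega)
      rw [hPe]
      intro p hp
      simp at hp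
    rw [hE, Nat.cast_zero]
    positivity
  set H : ℝ := κ * Real.log y / 4 with hH
  have hly : 0 < Real.log y := Real.log_pos (by exact_mod_cast (by omega : 1 < y))
  have hly2 : 0.69 ≤ Real.log y := by
    have h1 := log_two_bounds.1
    have h2 : Real.log 2 ≤ Real.log y := Real.log_le_log (by norm_num) (by exact_mod_cast hy2)
    linarith
  have hH0 : 0 ≤ H := by rw [hH]; positivity
  have hHM : (x0 : ℝ) + 5 ≤ H := by
    have h1 : M0 ≤ κ := hMl.le.trans hM3
    have h2 : 32 * ((x0 : ℝ) + 5) ≤ κ := hM0x.trans h1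
    rw [hH]
    nlinarith
  set z := ⌊H⌋₊ with hz
  have hz1 : (z : ℝ) ≤ H := Nat.floor_le hH0
  have hz2 : H < z + 1 := Nat.lt_floor_add_one _
  have hzx : x0 ≤ z := by
    have : (x0 : ℝ) ≤ z := by linarith
    exact_mod_cast this
  have hz0 : (3 : ℝ) ≤ z := by linarith
  have hzn : 3 ≤ z := by exact_mod_cast hz0
  have hzH : H ≤ 2 * z := by linarith
  have hTT : z ^ K ≤ T := by
    have : (z : ℝ) ^ K ≤ T := by
      rw [← hρK]
      apply pow_le_pow_left₀ (Nat.cast_nonneg _)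
      have : H ≤ κ * Real.log y := by
        rw [hH]
        have : 0 ≤ κ * Real.log y := by positivity
        linarith
      linarith
    exact_mod_cast this
  have hTp : 0 < z ^ K := Nat.pow_pos (by omega)
  have hEmT : (Em (FreeS P a) N Y T : ℝ) ≤ Em (FreeS P a) N Y (z ^ K) := by
    exact_mod_cast Em_anti (FreeS P a) N Y (z ^ K) T hTT
  have hkκ : (k : ℝ) ≤ c * κ := hkM.trans (mul_le_mul_of_nonneg_left hM3 hc0.le)
  refine hEmT.trans ((hEW (z ^ K) hTp).trans (le_trans ?_ hfin))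
  rcases Nat.lt_or_ge y z with hyz | hyz
  · -- all primes are small
    have h0 : (Ioc N (N + Y)).filter (fun n => ε * (((z ^ K : ℕ) : ℝ) * d) <
        |(Wc (FreeS P a) n (z ^ K) : ℝ) - ((z ^ K : ℕ) : ℝ) * d|) = ∅ := by
      rw [filter_eq_empty_iff]
      intro n _
      rw [not_lt]
      exact hdet y z (z ^ K) P a n hzx hyz.le le_rfl hP
    rw [h0, card_empty, Nat.cast_zero]
    positivity
  have hlz : Real.log z ≤ Real.log y := Real.log_le_log (by linarith) (by exact_mod_cast hyz)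
  refine hdev y z k Y (z ^ K) P a N hzx le_rfl (Nat.pow_le_pow_right (by omega) (by omega)) hP hk1 ?_ ?_
    (len_ok y z k κ C1 Y hy2 hz1 hκk hY)
  · have hκy : (κ : ℝ) * Real.log y ≤ 8 * z := by
      have : (κ : ℝ) * Real.log y = 4 * H := by rw [hH]; ring
      linarith
    calc Cd * k * Real.log z ≤ Cd * (c * κ) * Real.log y := by gcongr
      _ = (c * Cd) * (κ * Real.log y) := by ring
      _ ≤ (1 / 8) * (8 * z) := by gcongr
      _ = z := by ring
  · have h1 : (z : ℝ) ^ 2 ≤ ((z ^ K : ℕ) : ℝ) := by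
      push_cast
      exact pow_le_pow_right₀ (by linarith) hK
    have h2 := hinv y hy2 P hP
    rw [div_le_iff₀ hd0] at h2
    -- `κ / 8 ≤ z² d Ci`
    have h3 : (κ : ℝ) * Real.log y ≤ 8 * z := by
      have : (κ : ℝ) * Real.log y = 4 * H := by rw [hH]; ring
      linarith
    have h4 : (κ : ℝ) ≤ 8 * Ci * ((z : ℝ) ^ 2 * d) := by
      calc (κ : ℝ) = κ * 1 := (mul_one _).symm
        _ ≤ κ * (Ci * Real.log y * d) := mul_le_mul_of_nonneg_left h2 hκ0.le
        _ = Ci * (κ * Real.log y) * d := by ring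
        _ ≤ Ci * (8 * z) * d := by gcongr
        _ = 8 * Ci * (z * 1 * d) := by ring
        _ ≤ 8 * Ci * (z * z * d) := by
            have : (1 : ℝ) ≤ z := by linarith
            gcongr
        _ = _ := by ring
    calc Cd * k ≤ Cd * (c * κ) := by gcongr
      _ ≤ Cd * (c * (8 * Ci * ((z : ℝ) ^ 2 * d))) := by gcongr
      _ = 8 * (c * (Ci * Cd)) * ((z : ℝ) ^ 2 * d) := by ring
      _ ≤ 8 * (1 / 8) * ((z : ℝ) ^ 2 * d) := by gcongr
      _ = (z : ℝ) ^ 2 * d := by ring
      _ ≤ ((z ^ K : ℕ) : ℝ) * d := mul_le_mul_of_nonneg_right h1 hd0.le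

end Pool.Agent.H36.EX
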