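import Mathlib
import Pool.Agent.H36.EX.Exp

/-!
Transfer: the classes of the large primes are free.
-/

set_option autoImplicit false

open Finset Filter Topology

namespace Pool.Agent.H36.EX

open Pool.Agent.H373R2.T7 Pool.Agent.H36.RW Pool.Agent.H36.BF Pool.Agent.H36.GP Pool.Agent.H36.LH
open Pool.Agent.TH464.PO

open Classical in
/-- the number of irregular windows of length `T` -/
noncomputable def Dv (ε : ℝ) (P : Finset ℕ) (a : ℕ → ℕ) (N Y T : ℕ) : ℕ :=
  ((Ioc N (N + Y)).filter (fun n => ε * (T * Wp P) < |(Wc (FreeS P a) n T : ℝ) - T * Wp P|)).card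

/-- the second moment for classes modulo large primes -/
lemma second (R S : Finset ℕ) (T r : ℕ) (hT : 1 ≤ T) (hR : ∀ p ∈ R, p.Prime ∧ T < p) (hS : S ⊆ Icc 1 T)
    (hμ : 33 ≤ (S.card : ℝ) * Wp R) :
    ∑ l ∈ range (∏ p ∈ R, p), ((XX 1 r R S l : ℝ) - S.card * Wp R) ^ 2 ≤
      ((∏ p ∈ R, p : ℕ) : ℝ) * (800 * (S.card * Wp R)) := by
  have e1 : R.filter (fun p => T < p) = R := filter_true_of_mem fun p hp => (hR p hp).2
  have e2 : R.filter (fun p => p ≤ T) = ∅ := by
    rw [filter_eq_empty_iff]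
    intro p hp
    have := (hR p hp).2
    omega
  have h := per_central2 1 r R S T T 8 (by norm_num) hT hS (fun p hp => ⟨(hR p hp).1, (hR p hp).2, by
      intro h
      exact (hR p hp).1.one_lt.ne' (Nat.dvd_one.1 h)⟩) (by
    rw [e1, e2]
    have h1 : Wp R ≤ 1 := Wp_le_one R fun p hp => (hR p hp).1.two_le
    have h2 : Wp (∅ : Finset ℕ) = 1 := by
      unfold Wp
      rw [prod_empty]
    rw [h2]
    have h3 : Wp R * T ≤ 1 * T := mul_le_mul_of_nonneg_right h1 (Nat.cast_nonneg _)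
    linarith) 1 le_rfl (by push_cast; linarith)
  refine h.trans ?_
  apply mul_le_mul_of_nonneg_left _ (Nat.cast_nonneg _)
  rw [pow_one]
  have he := Real.exp_one_lt_d9
  have hp : 0 < Real.exp 1 := Real.exp_pos 1
  push_cast
  nlinarith

/-- Chebyshev -/
lemma cheb (q : ℕ) (X : ℕ → ℝ) (μ A t : ℝ) (ht : 0 < t) (h : ∑ l ∈ range q, (X l - μ) ^ 2 ≤ q * A)
    (G : Finset ℕ) (hG : G ⊆ range q) (hG2 : ∀ l ∈ G, t ≤ |X l - μ|) : (G.card : ℝ) * t ^ 2 ≤ q * A := by
  calc (G.card : ℝ) * t ^ 2 = ∑ l ∈ G, t ^ 2 := by rw [sum_const, nsmul_eq_mul]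
    _ ≤ ∑ l ∈ G, (X l - μ) ^ 2 := by
        apply sum_le_sum
        intro l hl
        rw [← sq_abs (X l - μ)]
        exact pow_le_pow_left₀ ht.le (hG2 l hl) 2
    _ ≤ ∑ l ∈ range q, (X l - μ) ^ 2 := sum_le_sum_of_subset_of_nonneg hG fun l _ _ => sq_nonneg _
    _ ≤ q * A := h

open Classical in
/-- few choices of the classes are good for an irregular window -/
lemma few_good (ε : ℝ) (hε : 0 < ε) (hε1 : ε ≤ 1) (P R : Finset ℕ) (T r : ℕ) (hT : 1 ≤ T)
    (hP : ∀ p ∈ P, p.Prime) (hR : ∀ p ∈ R, p.Prime ∧ T < p)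
    (S : Finset ℕ) (hS : S ⊆ Icc 1 T) (hbad : ε * (T * Wp P) < |(S.card : ℝ) - T * Wp P|)
    (hbig : 30000 / ε ^ 2 ≤ T * (Wp P * Wp R)) :
    (((range (∏ p ∈ R, p)).filter (fun l => ¬ (ε / 2 * (T * (Wp P * Wp R)) <
      |(XX 1 r R S l : ℝ) - T * (Wp P * Wp R)|))).card : ℝ) ≤ ((∏ p ∈ R, p : ℕ) : ℝ) / 2 := by
  set q := ∏ p ∈ R, p with hq
  set D : ℝ := T * (Wp P * Wp R) with hD
  have hWP : 0 < Wp P := Wp_pos P fun p hp => (hP p hp).two_le
  have hWP1 : Wp P ≤ 1 := Wp_le_one P fun p hp => (hP p hp).two_le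
  have hWR : 0 < Wp R := Wp_pos R fun p hp => (hR p hp).1.two_le
  have hWR1 : Wp R ≤ 1 := Wp_le_one R fun p hp => (hR p hp).1.two_le
  have hTr : (1 : ℝ) ≤ T := by exact_mod_cast hT
  have hε2 : ε ^ 2 ≤ 1 := pow_le_one₀ hε.le hε1
  have hD1 : 30000 ≤ D := by
    refine le_trans ?_ hbig
    rw [le_div_iff₀ (by positivity)]
    linarith
  have hD0 : 0 < D := by linarith
  have hDε : 30000 ≤ ε ^ 2 * D := by
    rw [div_le_iff₀ (by positivity)] at hbig
    linarith
  have hq0 : (0 : ℝ) ≤ q := Nat.cast_nonneg _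
  have hTP : D ≤ T * Wp P := by
    rw [hD, ← mul_assoc]
    exact mul_le_of_le_one_right (by positivity) hWR1
  set G := (range q).filter (fun l => ¬ (ε / 2 * D < |(XX 1 r R S l : ℝ) - D|)) with hG
  rcases lt_or_ge (T * Wp P) (S.card : ℝ) with hw | hw
  · -- too many survivors
    rw [abs_of_pos (by linarith)] at hbad
    set μ : ℝ := S.card * Wp R with hμ
    have hμD : (1 + ε) * D ≤ μ := by
      calc (1 + ε) * D = ((1 + ε) * (T * Wp P)) * Wp R := by rw [hD]; ring
        _ ≤ S.card * Wp R := mul_le_mul_of_nonneg_right (by linarith) hWR.le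
    have hμ0 : D ≤ μ := by nlinarith
    have h1 := second R S T r hT hR hS (by rw [← hμ]; linarith)
    have h2 := cheb q (fun l => (XX 1 r R S l : ℝ)) μ (800 * μ) (ε / 4 * μ) (by nlinarith) h1 G (filter_subset _ _) (by
      intro l hl
      rw [hG, mem_filter, not_lt] at hl
      have h3 := (abs_le.1 hl.2).2
      have h4 : ε / 4 * μ ≤ μ - XX 1 r R S l := by
        have h5 : (XX 1 r R S l : ℝ) ≤ (1 + ε / 2) * D := by linarith
        have h6 : (1 + ε / 2) * D ≤ (1 - ε / 4) * μ := by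
          have h7 : (1 - ε / 4) * ((1 + ε) * D) ≤ (1 - ε / 4) * μ := mul_le_mul_of_nonneg_left hμD (by linarith)
          nlinarith
        linarith
      rw [abs_sub_comm]
      exact h4.trans (le_abs_self _))
    have hμp : 0 < μ := by linarith
    have h3 : (G.card : ℝ) * (ε ^ 2 * μ) ≤ q * 12800 := by
      have h4 : (G.card : ℝ) * (ε / 4 * μ) ^ 2 = ((G.card : ℝ) * (ε ^ 2 * μ)) * (μ / 16) := by ring
      have h5 : (q : ℝ) * (800 * μ) = (q * 12800) * (μ / 16) := by ring
      rw [h4, h5] at h2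
      exact le_of_mul_le_mul_right h2 (by positivity)
    have h4 : (G.card : ℝ) * 30000 ≤ (G.card : ℝ) * (ε ^ 2 * μ) := by
      apply mul_le_mul_of_nonneg_left _ (Nat.cast_nonneg _)
      refine hDε.trans ?_
      gcongr
    linarith
  · -- too few survivors
    rw [abs_of_nonpos (by linarith)] at hbad
    set m0 := ⌊(1 - 3 * ε / 4) * (T * Wp P)⌋₊ with hm0
    have h14 : 0 ≤ (1 - 3 * ε / 4) * (T * Wp P) := by
      apply mul_nonneg (by linarith)
      positivity
    have hm1 : (m0 : ℝ) ≤ (1 - 3 * ε / 4) * (T * Wp P) := Nat.floor_le h14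
    have hm2 : (1 - 3 * ε / 4) * (T * Wp P) < m0 + 1 := Nat.lt_floor_add_one _
    have hεD : 30000 ≤ ε * D := by nlinarith
    have hεT : 30000 ≤ ε * (T * Wp P) := hεD.trans (mul_le_mul_of_nonneg_left hTP hε.le)
    have hSm : S.card ≤ m0 := by
      have : (S.card : ℝ) ≤ m0 := by nlinarith
      exact_mod_cast this
    have hmT : m0 ≤ T := by
      have : (m0 : ℝ) ≤ T := by
        refine hm1.trans ?_
        calc (1 - 3 * ε / 4) * (T * Wp P) ≤ 1 * (T * 1) := by gcongr; linarith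
          _ = T := by ring
      exact_mod_cast this
    obtain ⟨S', hS1, hS2, hS3⟩ := exists_subsuperset_card_eq hS hSm (by rw [Nat.card_Icc]; omega)
    set μ : ℝ := S'.card * Wp R with hμ
    have hμ1 : μ ≤ (1 - 3 * ε / 4) * D := by
      calc μ = m0 * Wp R := by rw [hμ, hS3]
        _ ≤ ((1 - 3 * ε / 4) * (T * Wp P)) * Wp R := mul_le_mul_of_nonneg_right hm1 hWR.le
        _ = _ := by rw [hD]; ring
    have hμ2 : D / 8 ≤ μ := by
      have h1 : (1 - 3 * ε / 4) * D - 1 ≤ μ := by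
        calc (1 - 3 * ε / 4) * D - 1 ≤ (1 - 3 * ε / 4) * D - Wp R := by linarith
          _ = ((1 - 3 * ε / 4) * (T * Wp P) - 1) * Wp R := by rw [hD]; ring
          _ ≤ m0 * Wp R := mul_le_mul_of_nonneg_right (by linarith) hWR.le
          _ = μ := by rw [hμ, hS3]
      nlinarith
    have h1 := second R S' T r hT hR hS2 (by rw [← hμ]; linarith)
    have h2 := cheb q (fun l => (XX 1 r R S' l : ℝ)) μ (800 * μ) (ε / 4 * D) (by positivity) h1 G (filter_subset _ _) (by
      intro l hl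
      rw [hG, mem_filter, not_lt] at hl
      have h3 := (abs_le.1 hl.2).1
      have h4 : (XX 1 r R S l : ℝ) ≤ XX 1 r R S' l := by
        rw [Nat.cast_le]
        exact card_le_card (filter_subset_filter _ hS1)
      have h5 : ε / 4 * D ≤ XX 1 r R S' l - μ := by linarith
      exact h5.trans (le_abs_self _))
    have hμD : μ ≤ D := by nlinarith
    have h3 : (G.card : ℝ) * (ε ^ 2 * D) ≤ q * 12800 := by
      have h4 : (G.card : ℝ) * (ε / 4 * D) ^ 2 = ((G.card : ℝ) * (ε ^ 2 * D)) * (D / 16) := by ring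
      have h5 : (q : ℝ) * (800 * μ) ≤ (q * 12800) * (D / 16) := by
        calc (q : ℝ) * (800 * μ) ≤ q * (800 * D) := by gcongr
          _ = _ := by ring
      rw [h4] at h2
      exact le_of_mul_le_mul_right (h2.trans h5) (by positivity)
    have h4 : (G.card : ℝ) * 30000 ≤ (G.card : ℝ) * (ε ^ 2 * D) :=
      mul_le_mul_of_nonneg_left hDε (Nat.cast_nonneg _)
    linarith

/-- classes given by a shift -/
def shiftC (R : Finset ℕ) (a : ℕ → ℕ) (l : ℕ) (p : ℕ) : ℕ := if p ∈ R then p - l % p else a p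

open Classical in
lemma Wc_shift (P R : Finset ℕ) (a : ℕ → ℕ) (n T l : ℕ) (hPR : Disjoint P R) (hR : ∀ p ∈ R, 0 < p) :
    Wc (FreeS (P ∪ R) (shiftC R a l)) n T = XX 1 n R ((Icc 1 T).filter (fun h => FreeS P a (n + h))) l := by
  rw [Wc_eq]
  unfold XX
  rw [filter_filter]
  congr 1
  apply filter_congr
  intro h _
  have key : ∀ p ∈ R, (n + h ≡ shiftC R a l p [MOD p] ↔ p ∣ 1 * l + n + h) := by
    intro p hp
    have hp0 := hR p hp
    unfold shiftC
    rw [if_pos hp]
    have h1 : (p - l % p) + l ≡ 0 [MOD p] := by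
      have h2 : (p - l % p) + l ≡ (p - l % p) + l % p [MOD p] := Nat.ModEq.add_left _ (Nat.mod_modEq _ _).symm
      have h3 : (p - l % p) + l % p = p := Nat.sub_add_cancel (Nat.mod_lt _ hp0).le
      rw [h3] at h2
      exact h2.trans (by simp [Nat.ModEq])
    rw [← Nat.modEq_zero_iff_dvd]
    have e : 1 * l + n + h = (n + h) + l := by ring
    rw [e]
    constructor
    · intro h2
      exact (Nat.ModEq.add_right l h2).trans h1
    · intro h2
      exact Nat.ModEq.add_right_cancel' l (h2.trans h1.symm)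
  constructor
  · intro h1
    refine ⟨fun p hp hm => ?_, fun p hp hd => ?_⟩
    · apply h1 p (mem_union_left _ hp)
      unfold shiftC
      rw [if_neg (disjoint_left.1 hPR hp)]
      exact hm
    · exact h1 p (mem_union_right _ hp) ((key p hp).2 hd)
  · rintro ⟨h1, h2⟩ p hp hm
    by_cases hpR : p ∈ R
    · exact h2 p hpR ((key p hpR).1 hm)
    · have hpP : p ∈ P := (mem_union.1 hp).resolve_right hpR
      apply h1 p hpP
      unfold shiftC at hm
      rw [if_neg hpR] at hm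
      exact hm

open Classical in
/-- **Transfer** -/
theorem transfer (ε : ℝ) (hε : 0 < ε) (hε1 : ε ≤ 1) (P R : Finset ℕ) (T : ℕ) (hT : 1 ≤ T) (hPR : Disjoint P R)
    (hP : ∀ p ∈ P, p.Prime) (hR : ∀ p ∈ R, p.Prime ∧ T < p) (hbig : 30000 / ε ^ 2 ≤ T * Wp (P ∪ R))
    (a : ℕ → ℕ) (N Y : ℕ) : ∃ a' : ℕ → ℕ, (Dv ε P a N Y T : ℝ) ≤ 2 * Dv (ε / 2) (P ∪ R) a' N Y T := by
  have hW : Wp (P ∪ R) = Wp P * Wp R := by
    unfold Wp
    exact prod_union hPR
  rw [hW] at hbig
  set q := ∏ p ∈ R, p with hq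
  have hq0 : 0 < q := Finset.prod_pos fun p hp => (hR p hp).1.pos
  have hqr : (0 : ℝ) < q := by exact_mod_cast hq0
  by_contra hcon
  push Not at hcon
  -- double counting
  set E := (Ioc N (N + Y)).filter (fun n => ε * (T * Wp P) < |(Wc (FreeS P a) n T : ℝ) - T * Wp P|) with hE
  have hEc : E.card = Dv ε P a N Y T := rfl
  set bad : ℕ → ℕ → Prop := fun n l => ε / 2 * (T * (Wp P * Wp R)) <
    |(Wc (FreeS (P ∪ R) (shiftC R a l)) n T : ℝ) - T * (Wp P * Wp R)| with hbad
  have h1 : ∀ n ∈ E, (q : ℝ) / 2 ≤ (((range q).filter (fun l => bad n l)).card : ℝ) := by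
    intro n hn
    rw [hE, mem_filter, Wc_eq] at hn
    have h2 := few_good ε hε hε1 P R T n hT hP hR ((Icc 1 T).filter (fun h => FreeS P a (n + h))) (filter_subset _ _)
      hn.2 hbig
    have h3 := card_filter_add_card_filter_not (s := range q) (fun l => bad n l)
    rw [card_range] at h3
    have h4 : (range q).filter (fun l => ¬ bad n l) = (range q).filter (fun l => ¬ (ε / 2 * (T * (Wp P * Wp R)) <
      |(XX 1 n R ((Icc 1 T).filter (fun h => FreeS P a (n + h))) l : ℝ) - T * (Wp P * Wp R)|)) := by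
      apply filter_congr
      intro l _
      rw [hbad]
      simp only
      rw [Wc_shift P R a n T l hPR (fun p hp => (hR p hp).1.pos)]
    rw [h4] at h3
    have h5 : (((range q).filter (fun l => bad n l)).card : ℝ) + (((range q).filter (fun l => ¬ (ε / 2 * (T * (Wp P * Wp R)) <
      |(XX 1 n R ((Icc 1 T).filter (fun h => FreeS P a (n + h))) l : ℝ) - T * (Wp P * Wp R)|))).card : ℝ) = q := by
      exact_mod_cast h3
    linarith
  have h2 : (E.card : ℝ) * (q / 2) ≤ ∑ n ∈ Ioc N (N + Y), (((range q).filter (fun l => bad n l)).card : ℝ) := by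
    calc (E.card : ℝ) * (q / 2) = ∑ n ∈ E, (q : ℝ) / 2 := by rw [sum_const, nsmul_eq_mul]
      _ ≤ ∑ n ∈ E, (((range q).filter (fun l => bad n l)).card : ℝ) := sum_le_sum h1
      _ ≤ _ := sum_le_sum_of_subset_of_nonneg (filter_subset _ _) fun _ _ _ => Nat.cast_nonneg _
  have h3 : ∑ n ∈ Ioc N (N + Y), ((range q).filter (fun l => bad n l)).card =
      ∑ l ∈ range q, ((Ioc N (N + Y)).filter (fun n => bad n l)).card := by
    simp_rw [card_filter]
    exact sum_comm
  have h4 : ∀ l, ((Ioc N (N + Y)).filter (fun n => bad n l)).card = Dv (ε / 2) (P ∪ R) (shiftC R a l) N Y T := by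
    intro l
    unfold Dv
    rw [hW]
  have h5 : ∑ l ∈ range q, (((Ioc N (N + Y)).filter (fun n => bad n l)).card : ℝ) < ∑ _l ∈ range q, (E.card : ℝ) / 2 := by
    apply sum_lt_sum_of_nonempty (nonempty_range_iff.2 hq0.ne')
    intro l _
    rw [h4, hEc]
    have := hcon (shiftC R a l)
    linarith
  have h6 : (∑ n ∈ Ioc N (N + Y), (((range q).filter (fun l => bad n l)).card : ℝ)) =
      ∑ l ∈ range q, (((Ioc N (N + Y)).filter (fun n => bad n l)).card : ℝ) := by
    exact_mod_cast h3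
  rw [h6] at h2
  rw [sum_const, card_range, nsmul_eq_mul] at h5
  linarith

end Pool.Agent.H36.EX
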