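import Mathlib
import Pool.Agent.H36.EX.Trans

/-!
Windows of all lengths, for all sets of primes: the three ranges which are known.
-/

set_option autoImplicit false

open Finset Filter Topology

namespace Pool.Agent.H36.EX

open Pool.Agent.H373R2.T7 Pool.Agent.H36.RW Pool.Agent.H36.BF Pool.Agent.H36.BE Pool.Agent.H36.KT
open Pool.Agent.H36.GP Pool.Agent.H36.LH Pool.Agent.TH464.PO

open Classical in
lemma Wc_RK (P : Finset ℕ) (y : ℕ) (hP : P ⊆ pz y) (a : ℕ → ℕ) (r : ℕ)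
    (hr : FreeS P a = Sur {0} (restS P y) r y) (n T : ℕ) :
    Wc (FreeS P a) n T = RK {0} (restS P y) y (restS P y * n + r) T := by
  have hr' : ∀ m, FreeS P a m ↔ ∀ p ∈ P, ¬ p ∣ restS P y * m + r := fun m => by
    rw [hr]
    unfold Sur
    rw [p0_restS P y hP]
    constructor
    · intro h p hp hd
      exact h p hp 0 (mem_singleton_self 0) (by simpa using hd)
    · intro h p hp d hd hdvd
      rw [mem_singleton] at hd
      subst hd
      exact h p hp (by simpa using hdvd)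
  set w := restS P y with hw
  rw [Wc_eq]
  unfold RK
  rw [p0_restS P y hP]
  congr 1
  apply filter_congr
  intro h _
  rw [hr']
  constructor
  · intro h1 p hp g hg hd
    obtain ⟨d, hd0, rfl⟩ := mem_pt.1 hg
    rw [mem_singleton] at hd0
    subst hd0
    apply h1 p hp
    have e : w * n + r + (w * h + 0) = w * (n + h) + r := by ring
    rwa [e] at hd
  · intro h1 p hp hd
    apply h1 p hp (w * h + 0) (mem_pt.2 ⟨0, by simp, rfl⟩)
    have e : w * n + r + (w * h + 0) = w * (n + h) + r := by ring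
    rw [e]
    exact hd

open Classical in
/-- short windows, few survivors -/
theorem devTiny (ε : ℝ) (hε : 0 < ε) (hε1 : ε ≤ 1) : ∃ δ0 : ℝ, 0 < δ0 ∧ δ0 ≤ 1 / 12 ∧ ∀ A : ℕ,
    ∃ (K T0 : ℕ) (lam1 : ℝ), 4 ≤ lam1 ∧ ∀ᶠ y : ℕ in atTop, ∀ Y : ℕ, y ^ K ≤ Y → ∀ P : Finset ℕ, P ⊆ pz y →
    ∀ (a : ℕ → ℕ) (N T : ℕ), T0 ≤ T → (T : ℝ) ≤ Real.log y → 4 * lam1 ≤ T * Wp P → T * Wp P ≤ 4 * (T : ℝ) ^ δ0 →
    (Dv ε P a N Y T : ℝ) ≤ Y / (T * Wp P / 4) ^ A := by
  obtain ⟨δ0, hδ0, hδ1, h⟩ := evT 1 le_rfl ε hε hε1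
  refine ⟨δ0, hδ0, hδ1, fun A => ?_⟩
  obtain ⟨c, lam0, T0, hc, hc2, hlam0, hev⟩ := h A
  refine ⟨⌈1 / c⌉₊, T0, lam0, hlam0, ?_⟩
  have hLt : Tendsto (fun y : ℕ => Real.log (y : ℝ)) atTop atTop :=
    Real.tendsto_log_atTop.comp tendsto_natCast_atTop_atTop
  have hLt' : Tendsto (fun y : ℕ => Real.log (y : ℝ) / c) atTop atTop := hLt.atTop_div_const hc
  filter_upwards [hLt'.eventually hev, eventually_ge_atTop 2] with y h1 hy2 Y hY P hP a N T hTT hTl hTV hT2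
  obtain ⟨r, hr⟩ := FreeS_Sur P y hP a
  have hz := zE_log c hc y (by omega)
  have hX := exp_log_le c y Y _ (by omega) (Nat.le_ceil _) hY
  rw [hz] at h1
  set w := restS P y with hw
  have hVW : VK {0} w y = Wp P := VK_restS P y hP
  set V := Wp P with hVd
  have hTL : (T : ℝ) ≤ Real.log y / c := by
    rw [le_div_iff₀ hc]
    have h3 : (T : ℝ) * c ≤ T * 1 := mul_le_mul_of_nonneg_left (by linarith) (Nat.cast_nonneg T)
    linarith
  have h3 := h1 Y hX T hTT hTL (T * V / 4) (by linarith) (by linarith) w {0} (by simp) (restS_pos P y) (adm0 w)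
    (fun T p hp hT hpw => sep0 w T p hp hT hpw) (by rw [hVW]; linarith) (by rw [hVW]; linarith) (w * N + r)
  rw [hVW] at h3
  refine le_trans ?_ h3
  rw [Nat.cast_le]
  unfold Dv
  have hsub : (Ioc N (N + Y)).filter (fun n => ε * (T * Wp P) < |(Wc (FreeS P a) n T : ℝ) - T * Wp P|) ⊆
      ((Icc 1 Y).filter (fun l => ε * (T * V) <
        |(RK {0} w y (w * l + (w * N + r)) T : ℝ) - T * V|)).image (fun l => N + l) := by
    intro n hn
    rw [mem_filter, mem_Ioc] at hn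
    rw [mem_image]
    refine ⟨n - N, ?_, by omega⟩
    rw [mem_filter, mem_Icc]
    refine ⟨by omega, ?_⟩
    have e : w * (n - N) + (w * N + r) = w * n + r := by
      rw [← add_assoc, ← mul_add]
      congr 2
      omega
    rw [e, ← Wc_RK P y hP a r hr n T]
    exact hn.2
  refine (card_le_card hsub).trans (card_image_le.trans (le_of_eq ?_))
  congr!

open Classical in
/-- sparse sets -/
theorem devSparse (ε : ℝ) (hε : 0 < ε) (hε1 : ε ≤ 1 / 2) (A : ℕ) : ∃ (K : ℕ) (C : ℝ), 0 < C ∧ ∀ᶠ y : ℕ in atTop,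
    ∀ Y : ℕ, y ^ K ≤ Y → ∀ P : Finset ℕ, P ⊆ pz y → Wp P ≤ Real.log y ^ (-(1 / 2) : ℝ) →
    ∀ (a : ℕ → ℕ) (N T : ℕ), 1 ≤ T * Wp P → (Dv ε P a N Y T : ℝ) ≤ C * (Y / (T * Wp P) ^ A) := by
  obtain ⟨K, C, hC, h⟩ := tailsY ε hε hε1 A (1 / 2) (by norm_num)
  refine ⟨K, C, hC, ?_⟩
  filter_upwards [h] with y h1 Y hY P hP hd a N T hT
  obtain ⟨r, hr⟩ := FreeS_Sur P y hP a
  have hVW : VK {0} (restS P y) y = Wp P := VK_restS P y hP
  have h2 := h1 Y hY (restS P y) r N (restS_pos P y) (by rw [hVW]; exact hd) (T * Wp P) hT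
  refine le_trans ?_ h2
  rw [Nat.cast_le]
  unfold Dv
  apply card_le_card
  intro n hn
  rw [mem_filter] at hn ⊢
  refine ⟨hn.1, T, by rw [hVW], ?_⟩
  unfold BadK
  rw [hVW, ← Wc_RK P y hP a r hr n T]
  exact hn.2

open Classical in
/-- long windows -/
theorem longAll (ε : ℝ) (hε : 0 < ε) (A : ℕ) : ∃ (B K : ℕ), ∀ᶠ y : ℕ in atTop, ∀ Y : ℕ, y ^ K ≤ Y →
    ∀ P : Finset ℕ, P ⊆ pz y → ∀ (a : ℕ → ℕ) (N : ℕ) (lam : ℝ), Real.log y ^ B ≤ lam →
    (((Ioc N (N + Y)).filter (fun n => ∃ T : ℕ, lam ≤ T ∧ ε * (T * Wp P) <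
      |(Wc (FreeS P a) n T : ℝ) - T * Wp P|)).card : ℝ) ≤ Y / lam ^ A := by
  obtain ⟨B, hB, c, hc, hc2, hlong⟩ := lh_all 1 le_rfl ε hε A
  have hlong := hlong c hc le_rfl
  refine ⟨B + 1, ⌈1 / c⌉₊, ?_⟩
  have hLt : Tendsto (fun y : ℕ => Real.log (y : ℝ)) atTop atTop :=
    Real.tendsto_log_atTop.comp tendsto_natCast_atTop_atTop
  have hLt' : Tendsto (fun y : ℕ => Real.log (y : ℝ) / c) atTop atTop := hLt.atTop_div_const hc
  filter_upwards [hLt'.eventually hlong, eventually_ge_atTop 2, hLt.eventually_ge_atTop ((1 / c) ^ B),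
    hLt.eventually_ge_atTop 1] with y h1 hy2 g1 g2 Y hY P hP a N lam hlam
  have hz := zE_log c hc y (by omega)
  have hX := exp_log_le c y Y _ (by omega) (Nat.le_ceil _) hY
  rw [hz] at h1
  have hl0 : 0 < Real.log y := by linarith
  obtain ⟨r, hr⟩ := FreeS_Sur P y hP a
  have hVW : VK {0} (restS P y) y = Wp P := VK_restS P y hP
  set w := restS P y with hw
  have hT' : (Real.log y / c) ^ B ≤ lam := by
    refine le_trans ?_ hlam
    rw [pow_succ, div_eq_mul_one_div, mul_pow]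
    exact mul_le_mul_of_nonneg_left g1 (by positivity)
  have h2 := h1 Y hX (RT {0} w r) (RT_per 1 {0} (by simp) w r) (RT_adm {0} w r (adm0 w)) N lam hT'
  rw [RT_V, hVW] at h2
  refine le_trans ?_ h2
  rw [Nat.cast_le]
  apply card_le_card
  intro n hn
  rw [mem_filter] at hn ⊢
  obtain ⟨hn1, T, hT1, hT2⟩ := hn
  refine ⟨hn1, T, hT1, ?_⟩
  rw [RT_SC, ← Wc_RK P y hP a r hr n T]
  exact hT2

end Pool.Agent.H36.EX
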