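import Mathlib
import Pool.Agent.H36.EX.Uni
import Pool.Agent.H36.GP.Full

/-!
Windows of one length, for all sets of primes.
-/

set_option autoImplicit false

open Finset Filter Topology

namespace Pool.Agent.H36.EX

open Pool.Agent.H373R2.T7 Pool.Agent.H36.RW Pool.Agent.H36.BF Pool.Agent.H36.BE Pool.Agent.H36.KT
open Pool.Agent.H36.GP Pool.Agent.H36.LH Pool.Agent.TH464.PO

lemma Dv_le (ε : ℝ) (P : Finset ℕ) (a : ℕ → ℕ) (N Y T : ℕ) : (Dv ε P a N Y T : ℝ) ≤ Y := by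
  classical
  unfold Dv
  have h := card_filter_le (Ioc N (N + Y)) (fun n => ε * (T * Wp P) < |(Wc (FreeS P a) n T : ℝ) - T * Wp P|)
  rw [Nat.card_Ioc, Nat.add_sub_cancel_left] at h
  exact_mod_cast h

lemma Dv_mono (ε ε' : ℝ) (h : ε ≤ ε') (P : Finset ℕ) (hP : 0 ≤ Wp P) (a : ℕ → ℕ) (N Y T : ℕ) :
    (Dv ε' P a N Y T : ℝ) ≤ Dv ε P a N Y T := by
  classical
  rw [Nat.cast_le]
  unfold Dv
  apply card_le_card
  intro n hn
  rw [mem_filter] at hn ⊢
  refine ⟨hn.1, lt_of_le_of_lt ?_ hn.2⟩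
  exact mul_le_mul_of_nonneg_right h (mul_nonneg (Nat.cast_nonneg _) hP)

/-- primes between `T` and `y` -/
lemma Wp_between : ∃ C : ℝ, 0 < C ∧ ∀ y T : ℕ, 2 ≤ T → T ≤ y →
    Wp ((pz y).filter (fun p => T < p)) ≤ C * Real.log T / Real.log y := by
  obtain ⟨C, hC, hinv⟩ := Wp_inv
  obtain ⟨Cu, hCu, hVu⟩ := Vz_upper
  refine ⟨C * Cu, by positivity, ?_⟩
  intro y T hT hTy
  have h1 : 1 / Wp (pz T) ≤ C * Real.log T := hinv T hT (pz T) (subset_refl _)
  have h2 : Wp (pz y) ≤ Cu / Real.log y := hVu y (by omega)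
  have h3 : Wp (pz y) = Wp (pz T) * Wp ((pz y).filter (fun p => T < p)) := by
    unfold Wp
    rw [← prod_filter_mul_prod_filter_not (pz y) (fun p => p ≤ T)]
    congr 1
    · apply prod_congr _ fun _ _ => rfl
      ext p
      rw [mem_filter, mem_pz, mem_pz]
      constructor
      · rintro ⟨⟨_, h2⟩, h3⟩
        exact ⟨h3, h2⟩
      · rintro ⟨h2, h3⟩
        exact ⟨⟨by omega, h3⟩, h2⟩
    · apply prod_congr _ fun _ _ => rfl
      apply filter_congr
      intro p _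
      exact not_le
  have hW := Wp_pos (pz T) fun p hp => (mem_pz.1 hp).2.two_le
  have hlT : 0 < Real.log T := Real.log_pos (by exact_mod_cast (by omega : 1 < T))
  have hly : 0 < Real.log y := Real.log_pos (by exact_mod_cast (by omega : 1 < y))
  have h4 : Wp ((pz y).filter (fun p => T < p)) = Wp (pz y) * (1 / Wp (pz T)) := by
    rw [h3]
    field_simp
  rw [h4]
  calc Wp (pz y) * (1 / Wp (pz T)) ≤ (Cu / Real.log y) * (C * Real.log T) :=
        mul_le_mul h2 h1 (by positivity) (by positivity)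
    _ = C * Cu * Real.log T / Real.log y := by ring

lemma Wp_le_sub (P R : Finset ℕ) (h : P ⊆ R) (hR : ∀ p ∈ R, 2 ≤ p) : Wp R ≤ Wp P := by
  classical
  have h1 : Wp (R \ P) * Wp P = Wp R := by
    unfold Wp
    exact prod_sdiff h
  have h2 : Wp (R \ P) ≤ 1 := Wp_le_one _ fun p hp => hR p (Finset.mem_sdiff.1 hp).1
  have h3 : 0 < Wp P := Wp_pos P fun p hp => hR p (h hp)
  rw [← h1]
  exact mul_le_of_le_one_left h3.le h2

/-- `Q = P ∪ R` of prescribed density with large new primes -/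
lemma fatten (P : Finset ℕ) (y T : ℕ) (hP : P ⊆ pz y) (τ : ℝ)
    (h1 : Wp ((pz y).filter (fun p => T < p)) ≤ τ) (h2 : τ ≤ Wp P) :
    ∃ Q R : Finset ℕ, Q = P ∪ R ∧ Disjoint P R ∧ (∀ p ∈ R, p.Prime ∧ T < p) ∧ Q ⊆ pz y ∧ Wp Q ≤ τ ∧ τ / 2 ≤ Wp Q := by
  have hU : P ∪ (pz y).filter (fun p => T < p) ⊆ pz y := union_subset hP (filter_subset _ _)
  obtain ⟨Q, hPQ, hQU, hQ1, hQ2⟩ := superset P (P ∪ (pz y).filter (fun p => T < p)) subset_union_left
    (fun p hp => (mem_pz.1 (hU hp)).2) τ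
    ((Wp_le_sub _ _ subset_union_right fun p hp => (mem_pz.1 (hU hp)).2.two_le).trans h1) h2
  refine ⟨Q, Q \ P, (union_sdiff_of_subset hPQ).symm, disjoint_sdiff, ?_, hQU.trans hU, hQ1, hQ2⟩
  intro p hp
  rw [Finset.mem_sdiff] at hp
  have h3 := (mem_union.1 (hQU hp.1)).resolve_left hp.2
  rw [mem_filter] at h3
  exact ⟨(mem_pz.1 h3.1).2, h3.2⟩

/-- windows up to `log y` -/
theorem winShort (ε : ℝ) (hε : 0 < ε) (hε1 : ε ≤ 1) (A : ℕ) : ∃ (K : ℕ) (C : ℝ), 0 < C ∧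
    ∀ᶠ y : ℕ in atTop, ∀ Y : ℕ, y ^ K ≤ Y → ∀ P : Finset ℕ, P ⊆ pz y →
    ∀ (a : ℕ → ℕ) (N T : ℕ), (T : ℝ) ≤ Real.log y → 1 ≤ T * Wp P →
    (Dv ε P a N Y T : ℝ) ≤ C * (Y / (T * Wp P) ^ A) := by
  obtain ⟨δ, hδ0, hδ1, htiny⟩ := devTiny (ε / 2) (by positivity) (by linarith)
  obtain ⟨A1, hA1⟩ := exists_nat_ge ((A : ℝ) / δ)
  have hA1' : (A : ℝ) ≤ δ * A1 := by
    rw [div_le_iff₀ hδ0] at hA1
    linarith
  obtain ⟨K1, T1, lam1, hlam1, h1⟩ := htiny A1
  obtain ⟨K2, T2, lam2, hlam2, h2⟩ := htiny A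
  obtain ⟨Cw, hCw, hbet⟩ := Wp_between
  -- thresholds
  have hlogd : Tendsto (fun x : ℝ => Real.log x / x ^ δ) atTop (𝓝 0) :=
    (isLittleO_log_rpow_atTop hδ0).tendsto_div_nhds_zero
  have hpw : Tendsto (fun x : ℝ => x ^ δ) atTop atTop := tendsto_rpow_atTop hδ0
  obtain ⟨M0, hM0⟩ := eventually_atTop.1 ((hlogd.eventually (eventually_le_nhds (show (0 : ℝ) < 1 / Cw by positivity))).and
    (hpw.eventually_ge_atTop (8 * lam1 + 60000 / ε ^ 2)))
  set M : ℝ := max 1 (max M0 (max (T1 + T2) (4 * lam2))) with hM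
  have hM1 : 1 ≤ M := le_max_left _ _
  have hMM0 : M0 ≤ M := (le_max_left _ _).trans (le_max_right _ _)
  have hMT : (T1 : ℝ) + T2 ≤ M := (le_max_left _ _).trans ((le_max_right _ _).trans (le_max_right _ _))
  have hMl : 4 * lam2 ≤ M := (le_max_right _ _).trans ((le_max_right _ _).trans (le_max_right _ _))
  refine ⟨K1 + K2, M ^ A + 4 ^ A + 2 * 8 ^ A1, by positivity, ?_⟩
  have hlogy : Tendsto (fun y : ℕ => Real.log (y : ℝ) / (y : ℝ)) atTop (𝓝 0) := by
    have := (isLittleO_log_rpow_atTop (show (0 : ℝ) < 1 by norm_num)).tendsto_div_nhds_zero.comp tendsto_natCast_atTop_atTop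
    simpa [Function.comp_def] using this
  filter_upwards [h1, h2, eventually_ge_atTop 3, hlogy.eventually (eventually_le_nhds (show (0 : ℝ) < 1 by norm_num))]
    with y g1 g2 hy3 gy Y hY P hP a N T hTl hT1
  have hy0 : (0 : ℝ) < y := by exact_mod_cast (by omega : 0 < y)
  have hly : 0 < Real.log y := Real.log_pos (by exact_mod_cast (by omega : 1 < y))
  have hW := Wp_pos' P y hP
  have hW1 := Wp_le1 P y hP
  have hY0 : (0 : ℝ) ≤ Y := Nat.cast_nonneg Y
  set μ : ℝ := T * Wp P with hμ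
  have hμ0 : 0 < μ := by linarith
  have hX0 : 0 ≤ (Y : ℝ) / μ ^ A := by positivity
  have hT0 : (0 : ℝ) ≤ T := Nat.cast_nonneg T
  have hμT : μ ≤ T := mul_le_of_le_one_right hT0 hW1
  rcases le_or_gt μ M with hs | hs
  · refine (Dv_le _ _ _ _ _ _).trans ?_
    have h3 : (Y : ℝ) ≤ M ^ A * (Y / μ ^ A) := by
      rw [mul_div_assoc', le_div_iff₀ (by positivity), mul_comm]
      apply mul_le_mul_of_nonneg_right _ hY0
      exact pow_le_pow_left₀ hμ0.le hs A
    refine h3.trans (mul_le_mul_of_nonneg_right ?_ hX0)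
    have : (0 : ℝ) < 4 ^ A := by positivity
    have : (0 : ℝ) < 8 ^ A1 := by positivity
    linarith
  · have hTM : M < T := hs.trans_le hμT
    have hT1' : (1 : ℝ) ≤ T := by linarith
    have hTp : (0 : ℝ) < T := by linarith
    have hTT1 : T1 ≤ T := by
      have h5 : (T1 : ℝ) ≤ T := by
        have := Nat.cast_nonneg (α := ℝ) T2
        linarith
      exact_mod_cast h5
    have hTT2 : T2 ≤ T := by
      have h5 : (T2 : ℝ) ≤ T := by
        have := Nat.cast_nonneg (α := ℝ) T1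
        linarith
      exact_mod_cast h5
    obtain ⟨m1, m2⟩ := hM0 T (by linarith)
    rcases le_or_gt μ (4 * (T : ℝ) ^ δ) with hd | hd
    · refine (Dv_mono (ε / 2) ε (by linarith) P hW.le a N Y T).trans ?_
      refine (g2 Y ((Nat.pow_le_pow_right (by omega) (by omega)).trans hY) P hP a N T hTT2 hTl (by linarith) hd).trans ?_
      have h3 : (Y : ℝ) / (μ / 4) ^ A = 4 ^ A * (Y / μ ^ A) := by
        rw [div_pow]
        field_simp
      rw [h3]
      apply mul_le_mul_of_nonneg_right _ hX0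
      have : (0 : ℝ) < M ^ A := by positivity
      have : (0 : ℝ) < 8 ^ A1 := by positivity
      linarith
    · have hTδ : 0 < (T : ℝ) ^ δ := by positivity
      set τ : ℝ := (T : ℝ) ^ (δ - 1) with hτ
      have hτT : T * τ = (T : ℝ) ^ δ := by
        rw [hτ, Real.rpow_sub_one hTp.ne']
        field_simp
      have hT2 : 2 ≤ T := by
        have h6 : (1 : ℝ) < T := by linarith
        have h7 : 1 < T := by exact_mod_cast h6
        omega
      have hTy : T ≤ y := by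
        have h6 : (T : ℝ) ≤ y := by
          rw [div_le_iff₀ hy0] at gy
          linarith
        exact_mod_cast h6
      have hup : Wp ((pz y).filter (fun p => T < p)) ≤ τ := by
        refine (hbet y T hT2 hTy).trans ?_
        rw [div_le_iff₀ hly]
        have h6 : Cw * Real.log T ≤ (T : ℝ) ^ δ := by
          rw [div_le_iff₀ hTδ] at m1
          have h7 := mul_le_mul_of_nonneg_left m1 hCw.le
          have h8 : Cw * (1 / Cw * (T : ℝ) ^ δ) = (T : ℝ) ^ δ := by field_simp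
          rwa [h8] at h7
        calc Cw * Real.log T ≤ (T : ℝ) ^ δ := h6
          _ = τ * T := by rw [← hτT]; ring
          _ ≤ τ * Real.log y := mul_le_mul_of_nonneg_left hTl (by rw [hτ]; positivity)
      have hlow : τ ≤ Wp P := by
        have h3 : T * τ ≤ T * Wp P := by rw [hτT, ← hμ]; linarith
        exact le_of_mul_le_mul_left h3 hTp
      obtain ⟨Q, R, hQR, hdis, hR, hQ, hQ1, hQ2⟩ := fatten P y T hP τ hup hlow
      have hTQ1 : T * Wp Q ≤ (T : ℝ) ^ δ := by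
        rw [← hτT]
        exact mul_le_mul_of_nonneg_left hQ1 hTp.le
      have hTQ2 : (T : ℝ) ^ δ / 2 ≤ T * Wp Q := by
        rw [← hτT]
        have := mul_le_mul_of_nonneg_left hQ2 hTp.le
        linarith
      have hc0 : 0 < 60000 / ε ^ 2 := by positivity
      have hc1 : 60000 / ε ^ 2 / 2 = 30000 / ε ^ 2 := by ring
      obtain ⟨a', ha'⟩ := transfer ε hε hε1 P R T (by omega) hdis (fun p hp => (mem_pz.1 (hP hp)).2) hR
        (by rw [← hQR]; linarith) a N Y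
      rw [← hQR] at ha'
      have h3 := g1 Y ((Nat.pow_le_pow_right (by omega) (by omega)).trans hY) Q hQ a' N T hTT1 hTl (by linarith)
        (by linarith)
      have hQp : 0 < T * Wp Q := by linarith
      have h4 : (Y : ℝ) / (T * Wp Q / 4) ^ A1 ≤ 8 ^ A1 * (Y / μ ^ A) := by
        have h5 : (Y : ℝ) / (T * Wp Q / 4) ^ A1 ≤ Y / ((T : ℝ) ^ δ / 8) ^ A1 := by
          apply div_le_div_of_nonneg_left hY0 (by positivity)
          apply pow_le_pow_left₀ (by positivity)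
          linarith
        have h6 : (Y : ℝ) / ((T : ℝ) ^ δ / 8) ^ A1 = 8 ^ A1 * (Y / ((T : ℝ) ^ δ) ^ A1) := by
          rw [div_pow]
          field_simp
        rw [h6] at h5
        refine h5.trans ?_
        apply mul_le_mul_of_nonneg_left _ (by positivity)
        apply div_le_div_of_nonneg_left hY0 (by positivity)
        calc μ ^ A ≤ (T : ℝ) ^ A := pow_le_pow_left₀ hμ0.le hμT A
          _ = (T : ℝ) ^ (A : ℝ) := (Real.rpow_natCast _ _).symm
          _ ≤ (T : ℝ) ^ (δ * A1) := Real.rpow_le_rpow_of_exponent_le hT1' hA1'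
          _ = ((T : ℝ) ^ δ) ^ A1 := by rw [Real.rpow_mul hTp.le, Real.rpow_natCast]
      calc (Dv ε P a N Y T : ℝ) ≤ 2 * Dv (ε / 2) Q a' N Y T := ha'
        _ ≤ 2 * (8 ^ A1 * (Y / μ ^ A)) := by linarith
        _ = (2 * 8 ^ A1) * (Y / μ ^ A) := by ring
        _ ≤ _ := by
            apply mul_le_mul_of_nonneg_right _ hX0
            have : (0 : ℝ) < M ^ A := by positivity
            have : (0 : ℝ) < 4 ^ A := by positivity
            linarith

/-- windows between `log y` and a power of `log y` -/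
theorem winMid (ε : ℝ) (hε : 0 < ε) (hε1 : ε ≤ 1 / 2) (A B : ℕ) : ∃ (K : ℕ) (C : ℝ), 0 < C ∧
    ∀ᶠ y : ℕ in atTop, ∀ Y : ℕ, y ^ K ≤ Y → ∀ P : Finset ℕ, P ⊆ pz y →
    ∀ (a : ℕ → ℕ) (N T : ℕ), Real.log y < T → (T : ℝ) ≤ Real.log y ^ B → 1 ≤ T * Wp P →
    (Dv ε P a N Y T : ℝ) ≤ C * (Y / (T * Wp P) ^ A) := by
  obtain ⟨K1, C1, hC1, h1⟩ := devSparse ε hε hε1 A
  obtain ⟨K2, C2, hC2, h2⟩ := devSparse (ε / 2) (by positivity) (by linarith) (2 * A)
  obtain ⟨Cw, hCw, hbet⟩ := Wp_between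
  refine ⟨K1 + K2, C1 + 2 * (C2 * 2 ^ (2 * A)), by positivity, ?_⟩
  have hLt : Tendsto (fun y : ℕ => Real.log (y : ℝ)) atTop atTop :=
    Real.tendsto_log_atTop.comp tendsto_natCast_atTop_atTop
  have hpw : Tendsto (fun x : ℝ => x ^ (1 / 2 : ℝ)) atTop atTop := tendsto_rpow_atTop (by norm_num)
  have hlogd : Tendsto (fun x : ℝ => Real.log x / x ^ (1 / 2 : ℝ)) atTop (𝓝 0) :=
    (isLittleO_log_rpow_atTop (by norm_num)).tendsto_div_nhds_zero
  have hcw0 : 0 < 1 / (Cw * B + 1) := by positivity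
  filter_upwards [h1, h2, eventually_ge_atTop 3, hLt.eventually (hpw.eventually_ge_atTop (60000 / ε ^ 2)),
    hLt.eventually (hlogd.eventually (eventually_le_nhds hcw0)), hLt.eventually_ge_atTop 2,
    hLt.eventually (ev_pow_exp 1 1 one_pos B)]
    with y g1 g2 hy3 g4 g5 g6 g7 Y hY P hP a N T hTl hTB hT1
  have hy0 : (0 : ℝ) < y := by exact_mod_cast (by omega : 0 < y)
  have hW := Wp_pos' P y hP
  have hW1 := Wp_le1 P y hP
  have hY0 : (0 : ℝ) ≤ Y := Nat.cast_nonneg Y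
  set L := Real.log y with hL
  have hL0 : 0 < L := by linarith
  set μ : ℝ := T * Wp P with hμ
  have hμ0 : 0 < μ := by linarith
  have hX0 : 0 ≤ (Y : ℝ) / μ ^ A := by positivity
  have hTp : (0 : ℝ) < T := by linarith
  have hμT : μ ≤ T := mul_le_of_le_one_right hTp.le hW1
  rcases le_or_gt (Wp P) (L ^ (-(1 / 2) : ℝ)) with hd | hd
  · refine (g1 Y ((Nat.pow_le_pow_right (by omega) (by omega)).trans hY) P hP hd a N T hT1).trans ?_
    apply mul_le_mul_of_nonneg_right _ hX0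
    have : 0 < C2 * 2 ^ (2 * A) := by positivity
    linarith
  · set τ : ℝ := L ^ (-(1 / 2) : ℝ) with hτ
    have hτ0 : 0 < τ := by rw [hτ]; positivity
    have hT2 : 2 ≤ T := by
      have h6 : (2 : ℝ) < T := by linarith
      have h7 : 2 < T := by exact_mod_cast h6
      omega
    have hTy : T ≤ y := by
      rw [one_mul, one_mul, Real.exp_log hy0] at g7
      exact_mod_cast hTB.trans g7
    have hLh : L ^ (1 / 2 : ℝ) * τ = 1 := by
      rw [hτ, ← Real.rpow_add hL0]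
      norm_num
    have hLL : L ^ (1 / 2 : ℝ) * L ^ (1 / 2 : ℝ) = L := by
      rw [← Real.rpow_add hL0]
      norm_num
    have hLh0 : 0 < L ^ (1 / 2 : ℝ) := by positivity
    have hup : Wp ((pz y).filter (fun p => T < p)) ≤ τ := by
      refine (hbet y T hT2 hTy).trans ?_
      rw [div_le_iff₀ hL0]
      have h6 : Real.log T ≤ B * Real.log L := by
        rw [← Real.log_pow]
        exact Real.log_le_log hTp hTB
      have hlL : 0 ≤ Real.log L := Real.log_nonneg (by linarith)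
      have h7 : Cw * B * Real.log L ≤ L ^ (1 / 2 : ℝ) := by
        rw [div_le_iff₀ hLh0] at g5
        have h8 : (Cw * B + 1) * Real.log L ≤ L ^ (1 / 2 : ℝ) := by
          have h9 := mul_le_mul_of_nonneg_left g5 (show 0 ≤ Cw * B + 1 by positivity)
          have h10 : (Cw * B + 1) * (1 / (Cw * B + 1) * L ^ (1 / 2 : ℝ)) = L ^ (1 / 2 : ℝ) := by field_simp
          rwa [h10] at h9
        linarith
      calc Cw * Real.log T ≤ Cw * (B * Real.log L) := mul_le_mul_of_nonneg_left h6 hCw.le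
        _ = Cw * B * Real.log L := by ring
        _ ≤ L ^ (1 / 2 : ℝ) := h7
        _ = (L ^ (1 / 2 : ℝ) * τ) * L ^ (1 / 2 : ℝ) := by rw [hLh, one_mul]
        _ = τ * (L ^ (1 / 2 : ℝ) * L ^ (1 / 2 : ℝ)) := by ring
        _ = τ * L := by rw [hLL]
    obtain ⟨Q, R, hQR, hdis, hR, hQ, hQ1, hQ2⟩ := fatten P y T hP τ hup hd.le
    have hTh : (T : ℝ) ^ (1 / 2 : ℝ) * (T : ℝ) ^ (1 / 2 : ℝ) = T := by
      rw [← Real.rpow_add hTp]
      norm_num
    have hTh0 : 0 < (T : ℝ) ^ (1 / 2 : ℝ) := by positivity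
    have hLT : L ^ (1 / 2 : ℝ) ≤ (T : ℝ) ^ (1 / 2 : ℝ) := Real.rpow_le_rpow hL0.le hTl.le (by norm_num)
    have hTQ2 : (T : ℝ) ^ (1 / 2 : ℝ) / 2 ≤ T * Wp Q := by
      calc (T : ℝ) ^ (1 / 2 : ℝ) / 2 = (L ^ (1 / 2 : ℝ) * τ) * (T : ℝ) ^ (1 / 2 : ℝ) / 2 := by rw [hLh, one_mul]
        _ ≤ ((T : ℝ) ^ (1 / 2 : ℝ) * τ) * (T : ℝ) ^ (1 / 2 : ℝ) / 2 := by gcongr
        _ = ((T : ℝ) ^ (1 / 2 : ℝ) * (T : ℝ) ^ (1 / 2 : ℝ)) * (τ / 2) := by ring
        _ = T * (τ / 2) := by rw [hTh]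
        _ ≤ T * Wp Q := mul_le_mul_of_nonneg_left hQ2 hTp.le
    have hc1 : 60000 / ε ^ 2 / 2 = 30000 / ε ^ 2 := by ring
    have hbig : 30000 / ε ^ 2 ≤ T * Wp Q := by
      have h3 : 60000 / ε ^ 2 ≤ (T : ℝ) ^ (1 / 2 : ℝ) := g4.trans hLT
      linarith
    have hge1 : 1 ≤ T * Wp Q := by
      refine le_trans ?_ hbig
      rw [le_div_iff₀ (by positivity)]
      have : ε ^ 2 ≤ 1 := pow_le_one₀ hε.le (by linarith)
      linarith
    obtain ⟨a', ha'⟩ := transfer ε hε (by linarith) P R T (by omega) hdis (fun p hp => (mem_pz.1 (hP hp)).2) hR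
      (by rw [← hQR]; exact hbig) a N Y
    rw [← hQR] at ha'
    have h3 := g2 Y ((Nat.pow_le_pow_right (by omega) (by omega)).trans hY) Q hQ hQ1 a' N T hge1
    have h4 : (Y : ℝ) / (T * Wp Q) ^ (2 * A) ≤ 2 ^ (2 * A) * (Y / μ ^ A) := by
      have h5 : (Y : ℝ) / (T * Wp Q) ^ (2 * A) ≤ Y / ((T : ℝ) ^ (1 / 2 : ℝ) / 2) ^ (2 * A) := by
        apply div_le_div_of_nonneg_left hY0 (by positivity)
        exact pow_le_pow_left₀ (by positivity) hTQ2 _
      have h6 : (Y : ℝ) / ((T : ℝ) ^ (1 / 2 : ℝ) / 2) ^ (2 * A) = 2 ^ (2 * A) * (Y / (T : ℝ) ^ A) := by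
        rw [div_pow, pow_mul ((T : ℝ) ^ (1 / 2 : ℝ)) 2 A, pow_two ((T : ℝ) ^ (1 / 2 : ℝ)), hTh]
        field_simp
      rw [h6] at h5
      refine h5.trans ?_
      apply mul_le_mul_of_nonneg_left _ (by positivity)
      apply div_le_div_of_nonneg_left hY0 (by positivity)
      exact pow_le_pow_left₀ hμ0.le hμT A
    calc (Dv ε P a N Y T : ℝ) ≤ 2 * Dv (ε / 2) Q a' N Y T := ha'
      _ ≤ 2 * (C2 * (2 ^ (2 * A) * (Y / μ ^ A))) := by
          have h7 : C2 * ((Y : ℝ) / (T * Wp Q) ^ (2 * A)) ≤ C2 * (2 ^ (2 * A) * (Y / μ ^ A)) :=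
            mul_le_mul_of_nonneg_left h4 hC2.le
          linarith
      _ = (2 * (C2 * 2 ^ (2 * A))) * (Y / μ ^ A) := by ring
      _ ≤ _ := by
          apply mul_le_mul_of_nonneg_right _ hX0
          linarith

/-- windows up to a power of `log y` -/
theorem winAll (ε : ℝ) (hε : 0 < ε) (hε1 : ε ≤ 1 / 2) (A B : ℕ) : ∃ (K : ℕ) (C : ℝ), 0 < C ∧
    ∀ᶠ y : ℕ in atTop, ∀ Y : ℕ, y ^ K ≤ Y → ∀ P : Finset ℕ, P ⊆ pz y →
    ∀ (a : ℕ → ℕ) (N T : ℕ), (T : ℝ) ≤ Real.log y ^ B → 1 ≤ T * Wp P →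
    (Dv ε P a N Y T : ℝ) ≤ C * (Y / (T * Wp P) ^ A) := by
  obtain ⟨K1, C1, hC1, h1⟩ := winShort ε hε (by linarith) A
  obtain ⟨K2, C2, hC2, h2⟩ := winMid ε hε hε1 A B
  refine ⟨K1 + K2, C1 + C2, by positivity, ?_⟩
  filter_upwards [h1, h2, eventually_ge_atTop 1] with y g1 g2 hy Y hY P hP a N T hTB hT1
  have hW := Wp_pos' P y hP
  have hX0 : 0 ≤ (Y : ℝ) / (T * Wp P) ^ A := by positivity
  rcases le_or_gt (T : ℝ) (Real.log y) with h | h
  · refine (g1 Y ((Nat.pow_le_pow_right hy (by omega)).trans hY) P hP a N T h hT1).trans ?_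
    exact mul_le_mul_of_nonneg_right (by linarith) hX0
  · refine (g2 Y ((Nat.pow_le_pow_right hy (by omega)).trans hY) P hP a N T h hTB hT1).trans ?_
    exact mul_le_mul_of_nonneg_right (by linarith) hX0

end Pool.Agent.H36.EX
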