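import Mathlib
import Pool.Agent.H36.EX.Win

/-!
Windows of all lengths, for all sets of primes and all `y`.
-/

set_option autoImplicit false

open Finset Filter Topology

namespace Pool.Agent.H36.EX

open Pool.Agent.H373R2.T7 Pool.Agent.H36.RW Pool.Agent.H36.BF Pool.Agent.H36.BE Pool.Agent.H36.KT
open Pool.Agent.H36.GP Pool.Agent.H36.LH Pool.Agent.TH464.PO

/-- geometric series over a net -/
lemma geo_sum (g x : ℝ) (hg : 1 < g) (hx : 0 < x) (L : ℕ) :
    ∑ i ∈ (range L).filter (fun i => 1 ≤ g ^ i * x), 1 / (g ^ i * x) ≤ g / (g - 1) := by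
  have hg0 : 0 < g := by linarith
  have hg1 : 0 < g - 1 := by linarith
  have hc : 0 < g / (g - 1) := by positivity
  set F : ℕ → ℝ := fun i => min 1 (1 / (g ^ i * x)) with hF
  have hpos : ∀ i, 0 < g ^ i * x := fun i => by positivity
  have hanti : ∀ i, F (i + 1) ≤ F i := by
    intro i
    apply min_le_min le_rfl
    apply one_div_le_one_div_of_le (hpos i)
    rw [pow_succ]
    have := mul_le_mul_of_nonneg_left hg.le (hpos i).le
    linarith
  calc ∑ i ∈ (range L).filter (fun i => 1 ≤ g ^ i * x), 1 / (g ^ i * x) ≤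
      ∑ i ∈ (range L).filter (fun i => 1 ≤ g ^ i * x), g / (g - 1) * (F i - F (i + 1)) := by
        apply sum_le_sum
        intro i hi
        rw [mem_filter] at hi
        have h1 : 1 ≤ g ^ (i + 1) * x := by
          rw [pow_succ]
          have := mul_le_mul_of_nonneg_left hg.le (hpos i).le
          linarith [hi.2]
        have h2 : F i = 1 / (g ^ i * x) := by
          apply min_eq_right
          rw [div_le_one (hpos i)]
          exact hi.2
        have h3 : F (i + 1) = 1 / (g ^ (i + 1) * x) := by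
          apply min_eq_right
          rw [div_le_one (hpos _)]
          exact h1
        rw [h2, h3]
        have hgi : g ^ i ≠ 0 := by positivity
        apply le_of_eq
        rw [pow_succ]
        field_simp
    _ ≤ ∑ i ∈ range L, g / (g - 1) * (F i - F (i + 1)) := by
        apply sum_le_sum_of_subset_of_nonneg (filter_subset _ _)
        intro i _ _
        exact mul_nonneg hc.le (by linarith [hanti i])
    _ = g / (g - 1) * (F 0 - F L) := by rw [← mul_sum, sum_range_sub']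
    _ ≤ g / (g - 1) * 1 := by
        apply mul_le_mul_of_nonneg_left _ hc.le
        have h1 : F 0 ≤ 1 := min_le_left _ _
        have h2 : 0 ≤ F L := le_min zero_le_one (by positivity)
        linarith
    _ = g / (g - 1) := mul_one _

lemma Wc_mono (F : ℕ → Prop) (n T U : ℕ) (h : T ≤ U) : Wc F n T ≤ Wc F n U := by
  classical
  rw [Wc_eq, Wc_eq]
  exact card_le_card (filter_subset_filter _ (Icc_subset_Icc_right h))

/-- an irregular window contains or is contained in an irregular window of the net -/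
lemma net_one (F : ℕ → Prop) (n T : ℕ) (d ε g : ℝ) (hε : 0 < ε) (hε1 : ε ≤ 1) (hg : g = 1 + ε / 8) (hd : 0 < d)
    (hT : 8 / ε ≤ T) (hbad : ε * (T * d) < |(Wc F n T : ℝ) - T * d|) : ∃ i : ℕ, (T : ℝ) / g ≤ ⌈g ^ i⌉₊ ∧
      ((⌈g ^ i⌉₊ : ℕ) : ℝ) ≤ g * T + 1 ∧
      ε / 2 * ((⌈g ^ i⌉₊ : ℕ) * d) < |(Wc F n ⌈g ^ i⌉₊ : ℝ) - (⌈g ^ i⌉₊ : ℕ) * d| := by
  have hg1 : 1 < g := by rw [hg]; linarith
  have hg0 : 0 < g := by linarith
  rw [div_le_iff₀ hε] at hT
  have hT8 : (8 : ℝ) ≤ T := by nlinarith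
  obtain ⟨i, hi1, hi2⟩ := exists_nat_pow_near (show (1 : ℝ) ≤ T by linarith) hg1
  have hgi : 0 ≤ g ^ i := by positivity
  have hgi1 : 0 ≤ g ^ (i + 1) := by positivity
  have a1 : ⌈g ^ i⌉₊ ≤ T := Nat.ceil_le.2 hi1
  have a2 : (T : ℝ) ≤ ((⌈g ^ (i + 1)⌉₊ : ℕ) : ℝ) := hi2.le.trans (Nat.le_ceil _)
  have a2' : T ≤ ⌈g ^ (i + 1)⌉₊ := by exact_mod_cast a2
  have a3 : (T : ℝ) / g ≤ ((⌈g ^ i⌉₊ : ℕ) : ℝ) := by
    rw [div_le_iff₀ hg0]
    calc (T : ℝ) ≤ g ^ (i + 1) := hi2.le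
      _ = g ^ i * g := pow_succ _ _
      _ ≤ _ := mul_le_mul_of_nonneg_right (Nat.le_ceil _) hg0.le
  have a4 : ((⌈g ^ (i + 1)⌉₊ : ℕ) : ℝ) ≤ g * T + 1 := by
    have h1 := (Nat.ceil_lt_add_one hgi1).le
    have h2 : g ^ (i + 1) ≤ g * T := by
      rw [pow_succ, mul_comm]
      exact mul_le_mul_of_nonneg_left hi1 hg0.le
    linarith
  have a5 : (T : ℝ) / g ≤ T := by
    rw [div_le_iff₀ hg0]
    have : (T : ℝ) * 1 ≤ T * g := mul_le_mul_of_nonneg_left hg1.le (Nat.cast_nonneg _)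
    linarith
  have hgT : (T : ℝ) ≤ g * T := by
    have : 1 * (T : ℝ) ≤ g * T := mul_le_mul_of_nonneg_right hg1.le (Nat.cast_nonneg _)
    linarith
  by_contra hcon
  push Not at hcon
  have b1 := hcon i a3 (by
    have : ((⌈g ^ i⌉₊ : ℕ) : ℝ) ≤ T := by exact_mod_cast a1
    linarith)
  have b2 := hcon (i + 1) (a5.trans a2) a4
  have c1 : (Wc F n ⌈g ^ i⌉₊ : ℝ) ≤ Wc F n T := by exact_mod_cast Wc_mono F n _ _ a1
  have c2 : (Wc F n T : ℝ) ≤ Wc F n ⌈g ^ (i + 1)⌉₊ := by exact_mod_cast Wc_mono F n _ _ a2'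
  have d1 := (abs_le.1 b1).1
  have d2 := (abs_le.1 b2).2
  set U : ℝ := ((⌈g ^ i⌉₊ : ℕ) : ℝ) with hU
  set V : ℝ := ((⌈g ^ (i + 1)⌉₊ : ℕ) : ℝ) with hV
  have hTd : 0 < T * d := by
    have : (0 : ℝ) < T := by linarith
    positivity
  have e1 : (1 - ε / 8) * (T * d) ≤ U * d := by
    have h1 : (1 - ε / 8) * T ≤ U := by
      refine le_trans ?_ a3
      rw [le_div_iff₀ hg0, hg]
      have : (1 - ε / 8) * T * (1 + ε / 8) = T - ε ^ 2 / 64 * T := by ring
      rw [this]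
      have : 0 ≤ ε ^ 2 / 64 * (T : ℝ) := by positivity
      linarith
    calc (1 - ε / 8) * (T * d) = ((1 - ε / 8) * T) * d := by ring
      _ ≤ U * d := mul_le_mul_of_nonneg_right h1 hd.le
  have e2 : V * d ≤ (1 + ε / 4) * (T * d) := by
    have h1 : V ≤ (1 + ε / 4) * T := by
      refine a4.trans ?_
      rw [hg]
      nlinarith
    calc V * d ≤ ((1 + ε / 4) * T) * d := mul_le_mul_of_nonneg_right h1 hd.le
      _ = _ := by ring
  have f1 : (1 - ε / 2) * ((1 - ε / 8) * (T * d)) ≤ (1 - ε / 2) * (U * d) := mul_le_mul_of_nonneg_left e1 (by linarith)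
  have f2 : (1 + ε / 2) * (V * d) ≤ (1 + ε / 2) * ((1 + ε / 4) * (T * d)) := mul_le_mul_of_nonneg_left e2 (by linarith)
  have hε2 : 0 ≤ ε ^ 2 * (T * d) := by positivity
  have hε3 : ε * (ε * (T * d)) ≤ 1 * (ε * (T * d)) := mul_le_mul_of_nonneg_right hε1 (by positivity)
  have hεT : 0 < ε * (T * d) := by positivity
  have g1 : -(ε * (T * d)) ≤ (Wc F n T : ℝ) - T * d := by nlinarith
  have g2 : (Wc F n T : ℝ) - T * d ≤ ε * (T * d) := by nlinarith
  exact absurd (abs_le.2 ⟨g1, g2⟩) (not_le.2 hbad)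

open Classical in
/-- all windows up to a power of `log y` -/
theorem allMid (ε : ℝ) (hε : 0 < ε) (hε1 : ε ≤ 1) (A B : ℕ) : ∃ (K : ℕ) (C : ℝ), 0 < C ∧
    ∀ᶠ y : ℕ in atTop, ∀ Y : ℕ, y ^ K ≤ Y → ∀ P : Finset ℕ, P ⊆ pz y →
    ∀ (a : ℕ → ℕ) (N : ℕ) (lam : ℝ), 1 ≤ lam →
    (((Ioc N (N + Y)).filter (fun n => ∃ T : ℕ, (T : ℝ) ≤ Real.log y ^ B ∧ lam ≤ T * Wp P ∧ ε * (T * Wp P) <
      |(Wc (FreeS P a) n T : ℝ) - T * Wp P|)).card : ℝ) ≤ C * (Y / lam ^ A) := by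
  obtain ⟨K, C, hC, h1⟩ := winAll (ε / 2) (by positivity) (by linarith) (A + 1) (B + 1)
  set g : ℝ := 1 + ε / 8 with hg
  have hg1 : 1 < g := by rw [hg]; linarith
  have hg2 : g ≤ 2 := by rw [hg]; linarith
  have hg0 : 0 < g := by linarith
  have hgm : 0 < g - 1 := by linarith
  set M : ℝ := 8 / ε with hM
  have hM8 : 8 ≤ M := by
    rw [hM, le_div_iff₀ hε]
    linarith
  refine ⟨K, M ^ A + C * 2 ^ A * (g / (g - 1)), by positivity, ?_⟩
  have hLt : Tendsto (fun y : ℕ => Real.log (y : ℝ)) atTop atTop :=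
    Real.tendsto_log_atTop.comp tendsto_natCast_atTop_atTop
  filter_upwards [h1, hLt.eventually_ge_atTop 3] with y g1 g2 Y hY P hP a N lam hlam
  have hW := Wp_pos' P y hP
  have hW1 := Wp_le1 P y hP
  have hY0 : (0 : ℝ) ≤ Y := Nat.cast_nonneg Y
  set d := Wp P with hd
  set L := Real.log y with hL
  have hlam0 : 0 < lam := by linarith
  have hX0 : 0 ≤ (Y : ℝ) / lam ^ A := by positivity
  set E := (Ioc N (N + Y)).filter (fun n => ∃ T : ℕ, (T : ℝ) ≤ L ^ B ∧ lam ≤ T * d ∧ ε * (T * d) <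
      |(Wc (FreeS P a) n T : ℝ) - T * d|) with hE
  rcases le_or_gt lam M with hs | hs
  · have h3 : (E.card : ℝ) ≤ Y := by
      have := card_filter_le (Ioc N (N + Y)) (fun n => ∃ T : ℕ, (T : ℝ) ≤ L ^ B ∧ lam ≤ T * d ∧ ε * (T * d) <
        |(Wc (FreeS P a) n T : ℝ) - T * d|)
      rw [Nat.card_Ioc, Nat.add_sub_cancel_left] at this
      exact_mod_cast this
    refine h3.trans ?_
    have h4 : (Y : ℝ) ≤ M ^ A * (Y / lam ^ A) := by
      rw [mul_div_assoc', le_div_iff₀ (by positivity), mul_comm]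
      apply mul_le_mul_of_nonneg_right _ hY0
      exact pow_le_pow_left₀ hlam0.le hs A
    refine h4.trans (mul_le_mul_of_nonneg_right ?_ hX0)
    have : 0 ≤ C * 2 ^ A * (g / (g - 1)) := by positivity
    linarith
  · obtain ⟨Lb, hLb⟩ := pow_unbounded_of_one_lt (L ^ (B + 1)) hg1
    set I := (range Lb).filter (fun i => ((⌈g ^ i⌉₊ : ℕ) : ℝ) ≤ L ^ (B + 1) ∧ lam / 2 ≤ (⌈g ^ i⌉₊ : ℕ) * d) with hI
    have hsub : E ⊆ I.biUnion (fun i => (Ioc N (N + Y)).filter (fun n => ε / 2 * ((⌈g ^ i⌉₊ : ℕ) * d) <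
        |(Wc (FreeS P a) n ⌈g ^ i⌉₊ : ℝ) - (⌈g ^ i⌉₊ : ℕ) * d|)) := by
      intro n hn
      rw [hE, mem_filter] at hn
      obtain ⟨hn1, T, hT1, hT2, hT3⟩ := hn
      have hTd : (T : ℝ) * d ≤ T := mul_le_of_le_one_right (Nat.cast_nonneg _) hW1
      have hTM : M ≤ T := by linarith
      obtain ⟨i, hi1, hi2, hi3⟩ := net_one (FreeS P a) n T d ε g hε hε1 hg hW hTM hT3
      rw [mem_biUnion]
      refine ⟨i, ?_, mem_filter.2 ⟨hn1, hi3⟩⟩
      have hbd : ((⌈g ^ i⌉₊ : ℕ) : ℝ) ≤ L ^ (B + 1) := by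
        have h5 : g * T + 1 ≤ 3 * T := by nlinarith
        have h6 : (0 : ℝ) ≤ L ^ B := by positivity
        calc ((⌈g ^ i⌉₊ : ℕ) : ℝ) ≤ g * T + 1 := hi2
          _ ≤ 3 * T := h5
          _ ≤ 3 * L ^ B := by linarith
          _ ≤ L * L ^ B := mul_le_mul_of_nonneg_right g2 h6
          _ = L ^ (B + 1) := by rw [pow_succ]; ring
      rw [hI, mem_filter, mem_range]
      refine ⟨?_, hbd, ?_⟩
      · have h5 : g ^ i < g ^ Lb := lt_of_le_of_lt ((Nat.le_ceil _).trans hbd) hLb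
        exact (pow_lt_pow_iff_right₀ hg1).1 h5
      · have h5 : (T : ℝ) / g * d ≤ (⌈g ^ i⌉₊ : ℕ) * d := mul_le_mul_of_nonneg_right hi1 hW.le
        refine le_trans ?_ h5
        have h6 : lam / 2 ≤ lam / g := div_le_div_of_nonneg_left hlam0.le hg0 hg2
        have h7 : lam / g ≤ (T * d) / g := div_le_div_of_nonneg_right hT2 hg0.le
        calc lam / 2 ≤ (T * d) / g := h6.trans h7
          _ = _ := by ring
    have hsum : (E.card : ℝ) ≤ ∑ i ∈ I, (Dv (ε / 2) P a N Y ⌈g ^ i⌉₊ : ℝ) := by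
      have h5 := (card_le_card hsub).trans card_biUnion_le
      exact_mod_cast h5
    have hterm : ∀ i ∈ I, (Dv (ε / 2) P a N Y ⌈g ^ i⌉₊ : ℝ) ≤ C * (Y * (2 / lam) ^ A) * (1 / (g ^ i * d)) := by
      intro i hi
      rw [hI, mem_filter] at hi
      obtain ⟨_, hi2, hi3⟩ := hi
      have hgi : 0 < g ^ i := by positivity
      have hge : 1 ≤ ((⌈g ^ i⌉₊ : ℕ) : ℝ) * d := by linarith
      refine (g1 Y hY P hP a N ⌈g ^ i⌉₊ hi2 hge).trans ?_
      rw [mul_assoc]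
      apply mul_le_mul_of_nonneg_left _ hC.le
      have h5 : g ^ i * d ≤ (⌈g ^ i⌉₊ : ℕ) * d := mul_le_mul_of_nonneg_right (Nat.le_ceil _) hW.le
      have h6 : (lam / 2) ^ A * (g ^ i * d) ≤ ((⌈g ^ i⌉₊ : ℕ) * d) ^ (A + 1) := by
        rw [pow_succ]
        apply mul_le_mul _ h5 (by positivity) (by positivity)
        exact pow_le_pow_left₀ (by positivity) hi3 A
      calc (Y : ℝ) / ((⌈g ^ i⌉₊ : ℕ) * d) ^ (A + 1) ≤ Y / ((lam / 2) ^ A * (g ^ i * d)) :=
            div_le_div_of_nonneg_left hY0 (by positivity) h6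
        _ = Y * (2 / lam) ^ A * (1 / (g ^ i * d)) := by
            rw [div_pow, div_pow]
            field_simp
    have hIsub : I ⊆ (range Lb).filter (fun i => 1 ≤ g ^ i * d) := by
      intro i hi
      rw [hI, mem_filter] at hi
      rw [mem_filter]
      refine ⟨hi.1, ?_⟩
      have h5 : ((⌈g ^ i⌉₊ : ℕ) : ℝ) ≤ g ^ i + 1 := (Nat.ceil_lt_add_one (by positivity)).le
      have h6 : ((⌈g ^ i⌉₊ : ℕ) : ℝ) * d ≤ (g ^ i + 1) * d := mul_le_mul_of_nonneg_right h5 hW.le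
      have h7 := hi.2.2
      nlinarith
    calc (E.card : ℝ) ≤ ∑ i ∈ I, (Dv (ε / 2) P a N Y ⌈g ^ i⌉₊ : ℝ) := hsum
      _ ≤ ∑ i ∈ I, C * (Y * (2 / lam) ^ A) * (1 / (g ^ i * d)) := sum_le_sum hterm
      _ ≤ ∑ i ∈ (range Lb).filter (fun i => 1 ≤ g ^ i * d), C * (Y * (2 / lam) ^ A) * (1 / (g ^ i * d)) := by
          apply sum_le_sum_of_subset_of_nonneg hIsub
          intro i _ _
          positivity
      _ = C * (Y * (2 / lam) ^ A) * ∑ i ∈ (range Lb).filter (fun i => 1 ≤ g ^ i * d), 1 / (g ^ i * d) := by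
          rw [mul_sum]
      _ ≤ C * (Y * (2 / lam) ^ A) * (g / (g - 1)) :=
          mul_le_mul_of_nonneg_left (geo_sum g d hg1 hW Lb) (by positivity)
      _ = (C * 2 ^ A * (g / (g - 1))) * (Y / lam ^ A) := by
          rw [div_pow]
          field_simp
      _ ≤ _ := by
          apply mul_le_mul_of_nonneg_right _ hX0
          have : 0 < M ^ A := by positivity
          linarith

/-! ### small `y` -/

lemma Wc_add (F : ℕ → Prop) (n T U : ℕ) : Wc F n (T + U) = Wc F n T + Wc F (n + T) U := by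
  classical
  unfold Wc
  rw [card_filter, card_filter, card_filter, ← sum_Ioc_consecutive _ (show n ≤ n + T by omega) (show n + T ≤ n + (T + U) by omega)]
  rw [add_assoc]

lemma Wc_le (F : ℕ → Prop) (n T : ℕ) : Wc F n T ≤ T := by
  classical
  rw [Wc_eq]
  refine (card_filter_le _ _).trans ?_
  rw [Nat.card_Icc, Nat.add_sub_cancel]

lemma Wc_period (P : Finset ℕ) (hP : ∀ p ∈ P, p.Prime) (a : ℕ → ℕ) (n : ℕ) :
    (Wc (FreeS P a) n (∏ p ∈ P, p) : ℝ) = ((∏ p ∈ P, p : ℕ) : ℝ) * Wp P := by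
  classical
  obtain ⟨r, hr⟩ := shift_ex P hP a
  have h1 := per_count 1 (n + r) P {1} (fun p hp => ⟨hP p hp, fun h => (hP p hp).one_lt.ne' (Nat.dvd_one.1 h)⟩)
  have h2 : rho P {1} = Wp P := by
    unfold rho Wp
    apply prod_congr rfl
    intro p hp
    have : nu p {1} = 1 := by simp [nu]
    rw [this, Nat.cast_one]
  rw [h2] at h1
  rw [← h1, Nat.cast_inj, Wc_eq]
  apply card_bij (fun h _ => h - 1)
  · intro h hh
    rw [mem_filter, mem_Icc] at hh
    rw [mem_filter, mem_range]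
    refine ⟨by omega, ?_⟩
    intro p hp x hx hd
    rw [mem_singleton] at hx
    subst hx
    apply hh.2 p hp
    apply (hr p hp _).2
    have e : n + h + r = 1 * (h - 1) + (n + r) + 1 := by omega
    rw [e]
    exact hd
  · intro h hh h' hh' he
    rw [mem_filter, mem_Icc] at hh hh'
    have he' : h - 1 = h' - 1 := he
    omega
  · intro l hl
    rw [mem_filter, mem_range] at hl
    refine ⟨l + 1, ?_, by omega⟩
    rw [mem_filter, mem_Icc]
    refine ⟨by omega, ?_⟩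
    intro p hp hm
    have h3 := (hr p hp _).1 hm
    apply hl.2 p hp 1 (mem_singleton_self 1)
    have e : 1 * l + (n + r) + 1 = n + (l + 1) + r := by omega
    rw [e]
    exact h3

lemma Wc_periods (P : Finset ℕ) (hP : ∀ p ∈ P, p.Prime) (a : ℕ → ℕ) (m : ℕ) : ∀ n : ℕ,
    (Wc (FreeS P a) n (m * ∏ p ∈ P, p) : ℝ) = m * (((∏ p ∈ P, p : ℕ) : ℝ) * Wp P) := by
  induction m with
  | zero =>
    intro n
    have : Wc (FreeS P a) n (0 * ∏ p ∈ P, p) = 0 := by
      rw [zero_mul]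
      exact Nat.le_zero.1 (Wc_le _ _ _)
    rw [this]
    simp
  | succ m ih =>
    intro n
    rw [add_mul, one_mul, Wc_add, Nat.cast_add, ih, Wc_period P hP]
    push_cast
    ring

/-- the deviation is bounded by the period -/
lemma Wc_dev (P : Finset ℕ) (hP : ∀ p ∈ P, p.Prime) (a : ℕ → ℕ) (n T : ℕ) :
    |(Wc (FreeS P a) n T : ℝ) - T * Wp P| ≤ ((∏ p ∈ P, p : ℕ) : ℝ) := by
  set q := ∏ p ∈ P, p with hq
  have hq0 : 0 < q := Finset.prod_pos fun p hp => (hP p hp).pos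
  have hW := Wp_pos P fun p hp => (hP p hp).two_le
  have hW1 := Wp_le_one P fun p hp => (hP p hp).two_le
  have e : T = (T / q) * q + T % q := by
    rw [mul_comm]
    exact (Nat.div_add_mod T q).symm
  have h1 : Wc (FreeS P a) n T = Wc (FreeS P a) n ((T / q) * q) + Wc (FreeS P a) (n + (T / q) * q) (T % q) := by
    conv_lhs => rw [e]
    exact Wc_add _ _ _ _
  have h2 := Wc_periods P hP a (T / q) n
  rw [← hq] at h2
  have h3 : (T : ℝ) = (T / q : ℕ) * q + (T % q : ℕ) := by exact_mod_cast e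
  have h4 : ((Wc (FreeS P a) (n + (T / q) * q) (T % q) : ℕ) : ℝ) ≤ (T % q : ℕ) := by
    exact_mod_cast Wc_le _ _ _
  have h5 : ((T % q : ℕ) : ℝ) ≤ q := by exact_mod_cast (Nat.mod_lt T hq0).le
  have h6 : ((T % q : ℕ) : ℝ) * Wp P ≤ (T % q : ℕ) := mul_le_of_le_one_right (Nat.cast_nonneg _) hW1
  have h7 : 0 ≤ ((T % q : ℕ) : ℝ) * Wp P := by positivity
  have h8 : (0 : ℝ) ≤ ((Wc (FreeS P a) (n + (T / q) * q) (T % q) : ℕ) : ℝ) := Nat.cast_nonneg _
  rw [h1, Nat.cast_add, h2, h3, abs_le]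
  constructor
  · have : (((T / q : ℕ) : ℝ) * q + (T % q : ℕ)) * Wp P = (T / q : ℕ) * (q * Wp P) + (T % q : ℕ) * Wp P := by ring
    rw [this]
    linarith
  · have : (((T / q : ℕ) : ℝ) * q + (T % q : ℕ)) * Wp P = (T / q : ℕ) * (q * Wp P) + (T % q : ℕ) * Wp P := by ring
    rw [this]
    linarith

open Classical in
/-- **All windows, for all sets of primes and all `y`** -/
theorem allWindows (ε : ℝ) (hε : 0 < ε) (hε1 : ε ≤ 1) (A : ℕ) : ∃ (K : ℕ) (C : ℝ), 0 < C ∧ ∀ y Y : ℕ, y ^ K ≤ Y →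
    ∀ P : Finset ℕ, P ⊆ pz y → ∀ (a : ℕ → ℕ) (N : ℕ) (lam : ℝ), 1 ≤ lam →
    (((Ioc N (N + Y)).filter (fun n => ∃ T : ℕ, lam ≤ T * Wp P ∧ ε * (T * Wp P) <
      |(Wc (FreeS P a) n T : ℝ) - T * Wp P|)).card : ℝ) ≤ C * (Y / lam ^ A) := by
  obtain ⟨B, K1, h1⟩ := longAll ε hε A
  obtain ⟨K2, C2, hC2, h2⟩ := allMid ε hε hε1 A B
  obtain ⟨y0, hy0⟩ := eventually_atTop.1 ((h1.and h2).and (eventually_ge_atTop 1))
  obtain ⟨Q, hQ1, hQ⟩ := prod_le_small y0
  have hQr : (1 : ℝ) ≤ Q := by exact_mod_cast hQ1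
  refine ⟨K1 + K2, 1 + C2 + (Q / ε) ^ A, by positivity, ?_⟩
  intro y Y hY P hP a N lam hlam
  have hW := Wp_pos' P y hP
  have hW1 := Wp_le1 P y hP
  have hY0 : (0 : ℝ) ≤ Y := Nat.cast_nonneg Y
  have hlam0 : 0 < lam := by linarith
  have hX0 : 0 ≤ (Y : ℝ) / lam ^ A := by positivity
  have hQε : (0 : ℝ) < (Q / ε) ^ A := by positivity
  set E := (Ioc N (N + Y)).filter (fun n => ∃ T : ℕ, lam ≤ T * Wp P ∧ ε * (T * Wp P) <
      |(Wc (FreeS P a) n T : ℝ) - T * Wp P|) with hE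
  rcases Nat.lt_or_ge y y0 with hy | hy
  · rcases le_or_gt lam (Q / ε) with hs | hs
    · have h3 : (E.card : ℝ) ≤ Y := by
        have := card_filter_le (Ioc N (N + Y)) (fun n => ∃ T : ℕ, lam ≤ T * Wp P ∧ ε * (T * Wp P) <
          |(Wc (FreeS P a) n T : ℝ) - T * Wp P|)
        rw [Nat.card_Ioc, Nat.add_sub_cancel_left] at this
        exact_mod_cast this
      refine h3.trans ?_
      have h4 : (Y : ℝ) ≤ (Q / ε) ^ A * (Y / lam ^ A) := by
        rw [mul_div_assoc', le_div_iff₀ (by positivity), mul_comm]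
        apply mul_le_mul_of_nonneg_right _ hY0
        exact pow_le_pow_left₀ hlam0.le hs A
      refine h4.trans (mul_le_mul_of_nonneg_right ?_ hX0)
      linarith
    · have h3 : E = ∅ := by
        rw [hE, filter_eq_empty_iff]
        rintro n _ ⟨T, hT1, hT2⟩
        have h4 := Wc_dev P (fun p hp => (mem_pz.1 (hP hp)).2) a n T
        have h5 : ((∏ p ∈ P, p : ℕ) : ℝ) ≤ Q := by exact_mod_cast hQ y hy P hP
        rw [div_lt_iff₀ hε] at hs
        have h6 : lam * ε ≤ ε * (T * Wp P) := by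
          rw [mul_comm]
          exact mul_le_mul_of_nonneg_left hT1 hε.le
        linarith
      rw [h3, card_empty, Nat.cast_zero]
      positivity
  · obtain ⟨⟨k1, k2⟩, k3⟩ := hy0 y hy
    set L := Real.log y with hL
    set lam' := max lam (L ^ B) with hlam'
    have m1 := k1 Y ((Nat.pow_le_pow_right k3 (by omega)).trans hY) P hP a N lam' (le_max_right _ _)
    have m2 := k2 Y ((Nat.pow_le_pow_right k3 (by omega)).trans hY) P hP a N lam hlam
    have hsub : E ⊆ ((Ioc N (N + Y)).filter (fun n => ∃ T : ℕ, lam' ≤ T ∧ ε * (T * Wp P) <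
        |(Wc (FreeS P a) n T : ℝ) - T * Wp P|)) ∪
        ((Ioc N (N + Y)).filter (fun n => ∃ T : ℕ, (T : ℝ) ≤ L ^ B ∧ lam ≤ T * Wp P ∧ ε * (T * Wp P) <
        |(Wc (FreeS P a) n T : ℝ) - T * Wp P|)) := by
      intro n hn
      rw [hE, mem_filter] at hn
      obtain ⟨hn1, T, hT1, hT2⟩ := hn
      rw [mem_union, mem_filter, mem_filter]
      rcases le_or_gt (T : ℝ) (L ^ B) with h | h
      · exact Or.inr ⟨hn1, T, h, hT1, hT2⟩
      · refine Or.inl ⟨hn1, T, ?_, hT2⟩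
        apply max_le _ h.le
        refine hT1.trans ?_
        exact mul_le_of_le_one_right (Nat.cast_nonneg _) hW1
    have h3 : (E.card : ℝ) ≤ (((Ioc N (N + Y)).filter (fun n => ∃ T : ℕ, lam' ≤ T ∧ ε * (T * Wp P) <
        |(Wc (FreeS P a) n T : ℝ) - T * Wp P|)).card : ℝ) +
        (((Ioc N (N + Y)).filter (fun n => ∃ T : ℕ, (T : ℝ) ≤ L ^ B ∧ lam ≤ T * Wp P ∧ ε * (T * Wp P) <
        |(Wc (FreeS P a) n T : ℝ) - T * Wp P|)).card : ℝ) := by
      have := (card_le_card hsub).trans (card_union_le _ _)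
      exact_mod_cast this
    have h4 : (Y : ℝ) / lam' ^ A ≤ Y / lam ^ A := by
      apply div_le_div_of_nonneg_left hY0 (by positivity)
      exact pow_le_pow_left₀ hlam0.le (le_max_left _ _) A
    have h5 : 0 ≤ (Q / ε) ^ A * ((Y : ℝ) / lam ^ A) := mul_nonneg hQε.le hX0
    have e : (1 + C2 + (Q / ε) ^ A) * ((Y : ℝ) / lam ^ A) =
        Y / lam ^ A + C2 * (Y / lam ^ A) + (Q / ε) ^ A * ((Y : ℝ) / lam ^ A) := by ring
    rw [e]
    linarith

end Pool.Agent.H36.EX
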