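import Mathlib
import Pool.Agent.H36.EX.Net

/-!
Patterns of survivors: their frequencies depend on the set of primes only.
-/

set_option autoImplicit false

open Finset Filter Topology

namespace Pool.Agent.H36.EX

open Pool.Agent.H373R2.T7 Pool.Agent.H36.RW Pool.Agent.H36.BF Pool.Agent.H36.BE Pool.Agent.H36.KT
open Pool.Agent.H36.GP Pool.Agent.H36.LH Pool.Agent.TH464.PO

open Classical in
/-- the number of the `n` for which all positions of `A` and no positions of `B` survive -/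
noncomputable def Pt (F : ℕ → Prop) (A B : Finset ℕ) (N Y : ℕ) : ℕ :=
  ((Ioc N (N + Y)).filter (fun n => (∀ h ∈ A, F (n + h)) ∧ ∀ h ∈ B, ¬ F (n + h))).card

lemma Pt_le (F : ℕ → Prop) (A B : Finset ℕ) (N Y : ℕ) : Pt F A B N Y ≤ Y := by
  classical
  unfold Pt
  refine (card_filter_le _ _).trans ?_
  rw [Nat.card_Ioc, Nat.add_sub_cancel_left]

lemma Pt_insert (F : ℕ → Prop) (A B : Finset ℕ) (b N Y : ℕ) :
    Pt F A (insert b B) N Y + Pt F (insert b A) B N Y = Pt F A B N Y := by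
  classical
  have h := card_filter_add_card_filter_not
    (s := (Ioc N (N + Y)).filter (fun n => (∀ h ∈ A, F (n + h)) ∧ ∀ h ∈ B, ¬ F (n + h))) (fun n => F (n + b))
  rw [filter_filter, filter_filter] at h
  unfold Pt
  rw [← h, add_comm]
  congr 2
  · apply filter_congr
    intro n _
    simp only [mem_insert, forall_eq_or_imp]
    tauto
  · apply filter_congr
    intro n _
    simp only [mem_insert, forall_eq_or_imp]
    tauto

lemma Pt_add (F : ℕ → Prop) (A B : Finset ℕ) (N Y Z : ℕ) : Pt F A B N (Y + Z) = Pt F A B N Y + Pt F A B (N + Y) Z := by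
  classical
  unfold Pt
  rw [card_filter, card_filter, card_filter,
    ← sum_Ioc_consecutive _ (show N ≤ N + Y by omega) (show N + Y ≤ N + (Y + Z) by omega)]
  rw [add_assoc]

lemma Pt_period (P : Finset ℕ) (hP : ∀ p ∈ P, p.Prime) (a : ℕ → ℕ) (A : Finset ℕ) (N : ℕ) :
    (Pt (FreeS P a) A ∅ N (∏ p ∈ P, p) : ℝ) = ((∏ p ∈ P, p : ℕ) : ℝ) * rho P A := by
  classical
  obtain ⟨r, hr⟩ := shift_ex P hP a
  have h1 := per_count 1 (N + 1 + r) P A (fun p hp => ⟨hP p hp, fun h => (hP p hp).one_lt.ne' (Nat.dvd_one.1 h)⟩)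
  rw [← h1, Nat.cast_inj]
  unfold Pt
  symm
  apply card_bij (fun l _ => N + 1 + l)
  · intro l hl
    rw [mem_filter, mem_range] at hl
    rw [mem_filter, mem_Ioc]
    refine ⟨by omega, ?_, by simp⟩
    intro h hh p hp hm
    have h3 := (hr p hp _).1 hm
    apply hl.2 p hp h hh
    have e : 1 * l + (N + 1 + r) + h = N + 1 + l + h + r := by omega
    rw [e]
    exact h3
  · intro l _ l' _ h
    have : N + 1 + l = N + 1 + l' := h
    omega
  · intro n hn
    rw [mem_filter, mem_Ioc] at hn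
    refine ⟨n - N - 1, ?_, by omega⟩
    rw [mem_filter, mem_range]
    refine ⟨by omega, ?_⟩
    intro p hp h hh hd
    apply hn.2.1 h hh p hp
    apply (hr p hp _).2
    have e : 1 * (n - N - 1) + (N + 1 + r) + h = n + h + r := by omega
    rw [e] at hd
    exact hd

lemma Pt_periods (P : Finset ℕ) (hP : ∀ p ∈ P, p.Prime) (a : ℕ → ℕ) (A : Finset ℕ) (m : ℕ) : ∀ N : ℕ,
    (Pt (FreeS P a) A ∅ N (m * ∏ p ∈ P, p) : ℝ) = m * (((∏ p ∈ P, p : ℕ) : ℝ) * rho P A) := by
  induction m with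
  | zero =>
    intro N
    have : Pt (FreeS P a) A ∅ N (0 * ∏ p ∈ P, p) = 0 := by
      rw [zero_mul]
      exact Nat.le_zero.1 (Pt_le _ _ _ _ _)
    rw [this]
    simp
  | succ m ih =>
    intro N
    rw [add_mul, one_mul, Pt_add, Nat.cast_add, ih, Pt_period P hP]
    push_cast
    ring

lemma rho_01 (P A : Finset ℕ) (hP : ∀ p ∈ P, p.Prime) : 0 ≤ rho P A ∧ rho P A ≤ 1 := by
  unfold rho
  have h : ∀ p ∈ P, 0 ≤ (1 - (nu p A : ℝ) / p) ∧ (1 - (nu p A : ℝ) / p) ≤ 1 := by
    intro p hp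
    have hp0 : (0 : ℝ) < p := by exact_mod_cast (hP p hp).pos
    have h1 : nu p A ≤ p := by
      unfold nu
      have h2 : A.image (fun h => h % p) ⊆ range p := by
        intro x hx
        rw [mem_image] at hx
        obtain ⟨h, _, rfl⟩ := hx
        exact mem_range.2 (Nat.mod_lt _ (hP p hp).pos)
      have h3 := card_le_card h2
      rwa [card_range] at h3
    have h2 : (nu p A : ℝ) ≤ p := by exact_mod_cast h1
    constructor
    · rw [sub_nonneg, div_le_one hp0]
      exact h2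
    · have : 0 ≤ (nu p A : ℝ) / p := by positivity
      linarith
  exact ⟨prod_nonneg fun p hp => (h p hp).1, prod_le_one (fun p hp => (h p hp).1) fun p hp => (h p hp).2⟩

/-- the deviation is bounded by the period -/
lemma Pt_dev (P : Finset ℕ) (hP : ∀ p ∈ P, p.Prime) (a : ℕ → ℕ) (A : Finset ℕ) (N Y : ℕ) :
    |(Pt (FreeS P a) A ∅ N Y : ℝ) - Y * rho P A| ≤ ((∏ p ∈ P, p : ℕ) : ℝ) := by
  set q := ∏ p ∈ P, p with hq
  have hq0 : 0 < q := Finset.prod_pos fun p hp => (hP p hp).pos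
  obtain ⟨hr0, hr1⟩ := rho_01 P A hP
  have e : Y = (Y / q) * q + Y % q := by
    rw [mul_comm]
    exact (Nat.div_add_mod Y q).symm
  have h1 : Pt (FreeS P a) A ∅ N Y = Pt (FreeS P a) A ∅ N ((Y / q) * q) + Pt (FreeS P a) A ∅ (N + (Y / q) * q) (Y % q) := by
    conv_lhs => rw [e]
    exact Pt_add _ _ _ _ _ _
  have h2 := Pt_periods P hP a A (Y / q) N
  rw [← hq] at h2
  have h3 : (Y : ℝ) = (Y / q : ℕ) * q + (Y % q : ℕ) := by exact_mod_cast e
  have h4 : ((Pt (FreeS P a) A ∅ (N + (Y / q) * q) (Y % q) : ℕ) : ℝ) ≤ (Y % q : ℕ) := by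
    exact_mod_cast Pt_le _ _ _ _ _
  have h5 : ((Y % q : ℕ) : ℝ) ≤ q := by exact_mod_cast (Nat.mod_lt Y hq0).le
  have h6 : ((Y % q : ℕ) : ℝ) * rho P A ≤ (Y % q : ℕ) := mul_le_of_le_one_right (Nat.cast_nonneg _) hr1
  have h7 : 0 ≤ ((Y % q : ℕ) : ℝ) * rho P A := by positivity
  have h8 : (0 : ℝ) ≤ ((Pt (FreeS P a) A ∅ (N + (Y / q) * q) (Y % q) : ℕ) : ℝ) := Nat.cast_nonneg _
  have e2 : (((Y / q : ℕ) : ℝ) * q + (Y % q : ℕ)) * rho P A = (Y / q : ℕ) * (q * rho P A) + (Y % q : ℕ) * rho P A := by ring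
  rw [h1, Nat.cast_add, h2, h3, e2, abs_le]
  constructor <;> linarith

/-- **Tuples** -/
theorem tuples (κ : ℕ) (η : ℝ) (hη : 0 < η) : ∃ K : ℕ, ∀ y Y : ℕ, 2 ≤ y → y ^ K ≤ Y → ∀ P : Finset ℕ, P ⊆ pz y →
    ∀ (a : ℕ → ℕ) (N : ℕ) (A : Finset ℕ), A.card ≤ κ →
    |(Pt (FreeS P a) A ∅ N Y : ℝ) - Y * rho P A| ≤ η * Y := by
  classical
  obtain ⟨K1, x0, hK1, hfund⟩ := sys_fund (max κ 1) (le_max_right _ _) (η / 2) (by positivity)
  obtain ⟨Q0, hQ01, hQ0⟩ := prod_le_small x0
  obtain ⟨K2, hK2⟩ := pow_unbounded_of_one_lt (max (4 / η ^ 2) (Q0 / η)) (show (1 : ℝ) < 2 by norm_num)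
  refine ⟨K1 + K2, ?_⟩
  intro y Y hy hY P hP a N A hA
  have hPp : ∀ p ∈ P, p.Prime := fun p hp => (mem_pz.1 (hP hp)).2
  have hY2 : max (4 / η ^ 2) (Q0 / η) < (Y : ℝ) := by
    refine hK2.trans_le ?_
    have h1 : 2 ^ K2 ≤ Y := by
      calc 2 ^ K2 ≤ y ^ K2 := Nat.pow_le_pow_left hy K2
        _ ≤ y ^ (K1 + K2) := Nat.pow_le_pow_right (by omega) (by omega)
        _ ≤ Y := hY
    exact_mod_cast h1
  have hYp : (0 : ℝ) < Y := lt_trans (lt_of_lt_of_le (by positivity) (le_max_left _ _)) hY2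
  rcases Nat.lt_or_ge y x0 with hyx | hyx
  · refine (Pt_dev P hPp a A N Y).trans ?_
    have h1 : ((∏ p ∈ P, p : ℕ) : ℝ) ≤ Q0 := by exact_mod_cast hQ0 y hyx P hP
    have h2 : (Q0 : ℝ) / η ≤ Y := ((le_max_right _ _).trans_lt hY2).le
    rw [div_le_iff₀ hη] at h2
    linarith
  · obtain ⟨r, hr⟩ := shift_ex P hPp a
    obtain ⟨R, hR⟩ : ∃ R : ℕ → ℕ → Prop, ∀ p n, R p n ↔ (p ∈ P ∧ ∃ h ∈ A, p ∣ 1 * n + (N + r) + h) :=
      ⟨fun p n => p ∈ P ∧ ∃ h ∈ A, p ∣ 1 * n + (N + r) + h, fun _ _ => Iff.rfl⟩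
    have hnu1 : ∀ p ∈ P, nuB R p = nu p A := by
      intro p hp
      have h1 := class_card p 1 (N + r) (hPp p hp) (fun h => (hPp p hp).one_lt.ne' (Nat.dvd_one.1 h)) A
      rw [← h1]
      unfold nuB
      congr 1
      apply filter_congr
      intro n _
      rw [hR]
      exact and_iff_right hp
    have hnu0 : ∀ p, p ∉ P → nuB R p = 0 := by
      intro p hp
      unfold nuB
      rw [card_eq_zero, filter_eq_empty_iff]
      intro n _ h
      exact hp ((hR p n).1 h).1
    have hper : PerB R (max κ 1) := by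
      refine ⟨fun p n => ?_, fun p _ => ?_⟩
      · rw [hR, hR]
        apply and_congr_right
        intro _
        constructor
        · rintro ⟨h, hh, hd⟩
          exact ⟨h, hh, (dvd_mod_lin p 1 (N + r) n h).1 hd⟩
        · rintro ⟨h, hh, hd⟩
          exact ⟨h, hh, (dvd_mod_lin p 1 (N + r) n h).2 hd⟩
      · by_cases hp : p ∈ P
        · rw [hnu1 p hp]
          unfold nu
          exact card_image_le.trans (hA.trans (le_max_left _ _))
        · rw [hnu0 p hp]
          exact Nat.zero_le _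
    have key := hfund Y y hyx ((Nat.pow_le_pow_right (by omega) (by omega)).trans hY) R hper Y
    have e1 : ∏ p ∈ pz y, (1 - (nuB R p : ℝ) / p) = rho P A := by
      unfold rho
      symm
      rw [← prod_subset hP]
      · apply prod_congr rfl
        intro p hp
        rw [hnu1 p hp]
      · intro p _ hp
        rw [hnu0 p hp]
        simp
    have e2 : Pt (FreeS P a) A ∅ N Y = ((Icc 1 Y).filter (fun n : ℕ => ∀ p ∈ pz y, ¬ R p n)).card := by
      unfold Pt
      symm
      apply card_bij (fun n _ => N + n)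
      · intro n hn
        rw [mem_filter, mem_Icc] at hn
        rw [mem_filter, mem_Ioc]
        refine ⟨by omega, ?_, by simp⟩
        intro h hh p hp hm
        apply hn.2 p (hP hp)
        rw [hR]
        refine ⟨hp, h, hh, ?_⟩
        have h3 := (hr p hp _).1 hm
        have e : 1 * n + (N + r) + h = N + n + h + r := by omega
        rw [e]
        exact h3
      · intro n _ n' _ h
        have : N + n = N + n' := h
        omega
      · intro n hn
        rw [mem_filter, mem_Ioc] at hn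
        refine ⟨n - N, ?_, by omega⟩
        rw [mem_filter, mem_Icc]
        refine ⟨by omega, ?_⟩
        intro p _ hRp
        rw [hR] at hRp
        obtain ⟨hp, h, hh, hd⟩ := hRp
        apply hn.2.1 h hh p hp
        apply (hr p hp _).2
        have e : 1 * (n - N) + (N + r) + h = n + h + r := by omega
        rw [e] at hd
        exact hd
    rw [e1, ← e2] at key
    obtain ⟨hr0, hr1⟩ := rho_01 P A hPp
    have h1 : (Y : ℝ) * rho P A ≤ Y := mul_le_of_le_one_right hYp.le hr1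
    have h2 : √(Y : ℝ) ≤ η / 2 * Y := by
      have h3 : 4 / η ^ 2 ≤ (Y : ℝ) := ((le_max_left _ _).trans_lt hY2).le
      rw [div_le_iff₀ (by positivity)] at h3
      rw [Real.sqrt_le_left (by positivity)]
      nlinarith
    refine key.trans ?_
    have h3 : η / 2 * (Y * rho P A) ≤ η / 2 * Y := mul_le_mul_of_nonneg_left h1 (by positivity)
    linarith

/-- **Patterns**: the frequencies depend neither on the classes nor on the interval -/
theorem patterns (κ : ℕ) (η : ℝ) (hη : 0 < η) : ∃ K : ℕ, ∀ y Y Y' : ℕ, 2 ≤ y → y ^ K ≤ Y → y ^ K ≤ Y' →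
    ∀ P : Finset ℕ, P ⊆ pz y → ∀ (a a' : ℕ → ℕ) (N N' : ℕ) (A B : Finset ℕ), A.card + B.card ≤ κ →
    |(Pt (FreeS P a) A B N Y : ℝ) / Y - Pt (FreeS P a') A B N' Y' / Y'| ≤ η := by
  classical
  obtain ⟨K, hK⟩ := tuples κ (η / (2 * 2 ^ κ)) (by positivity)
  refine ⟨K, ?_⟩
  intro y Y Y' hy hY hY' P hP a a' N N' A B hAB
  have hYp : (0 : ℝ) < Y := by exact_mod_cast lt_of_lt_of_le (pow_pos (by omega) K) hY
  have hYp' : (0 : ℝ) < Y' := by exact_mod_cast lt_of_lt_of_le (pow_pos (by omega) K) hY'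
  set θ : ℝ := η / (2 * 2 ^ κ) with hθ
  have hθ0 : 0 < θ := by rw [hθ]; positivity
  have key : ∀ B A : Finset ℕ, A.card + B.card ≤ κ →
      |(Pt (FreeS P a) A B N Y : ℝ) / Y - Pt (FreeS P a') A B N' Y' / Y'| ≤ 2 ^ B.card * (2 * θ) := by
    intro B
    induction B using Finset.induction_on with
    | empty =>
      intro A hA
      rw [card_empty, add_zero] at hA
      have h1 := hK y Y hy hY P hP a N A hA
      have h2 := hK y Y' hy hY' P hP a' N' A hA
      have h3 : |(Pt (FreeS P a) A ∅ N Y : ℝ) / Y - rho P A| ≤ θ := by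
        have e : (Pt (FreeS P a) A ∅ N Y : ℝ) / Y - rho P A = ((Pt (FreeS P a) A ∅ N Y : ℝ) - Y * rho P A) / Y := by
          field_simp
        rw [e, abs_div, abs_of_pos hYp, div_le_iff₀ hYp]
        exact h1
      have h4 : |(Pt (FreeS P a') A ∅ N' Y' : ℝ) / Y' - rho P A| ≤ θ := by
        have e : (Pt (FreeS P a') A ∅ N' Y' : ℝ) / Y' - rho P A =
            ((Pt (FreeS P a') A ∅ N' Y' : ℝ) - Y' * rho P A) / Y' := by
          field_simp
        rw [e, abs_div, abs_of_pos hYp', div_le_iff₀ hYp']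
        exact h2
      rw [card_empty, pow_zero, one_mul]
      rw [abs_le] at h3 h4 ⊢
      constructor <;> linarith [h3.1, h3.2, h4.1, h4.2]
    | insert b B hb ih =>
      intro A hA
      rw [card_insert_of_notMem hb] at hA ⊢
      have h1 := ih A (by omega)
      have h2 := ih (insert b A) (by
        have := card_insert_le b A
        omega)
      have e1 : (Pt (FreeS P a) A (insert b B) N Y : ℝ) = Pt (FreeS P a) A B N Y - Pt (FreeS P a) (insert b A) B N Y := by
        have := Pt_insert (FreeS P a) A B b N Y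
        have h3 : (Pt (FreeS P a) A (insert b B) N Y : ℝ) + Pt (FreeS P a) (insert b A) B N Y = Pt (FreeS P a) A B N Y := by
          exact_mod_cast this
        linarith
      have e2 : (Pt (FreeS P a') A (insert b B) N' Y' : ℝ) =
          Pt (FreeS P a') A B N' Y' - Pt (FreeS P a') (insert b A) B N' Y' := by
        have := Pt_insert (FreeS P a') A B b N' Y'
        have h3 : (Pt (FreeS P a') A (insert b B) N' Y' : ℝ) + Pt (FreeS P a') (insert b A) B N' Y' =
          Pt (FreeS P a') A B N' Y' := by exact_mod_cast this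
        linarith
      rw [e1, e2, sub_div, sub_div]
      have e3 : (2 : ℝ) ^ (B.card + 1) * (2 * θ) = 2 ^ B.card * (2 * θ) + 2 ^ B.card * (2 * θ) := by ring
      rw [e3]
      rw [abs_le] at h1 h2 ⊢
      constructor <;> linarith [h1.1, h1.2, h2.1, h2.2]
  refine (key B A hAB).trans ?_
  have h1 : (2 : ℝ) ^ B.card ≤ 2 ^ κ := pow_le_pow_right₀ (by norm_num) (by omega)
  calc (2 : ℝ) ^ B.card * (2 * θ) ≤ 2 ^ κ * (2 * θ) := mul_le_mul_of_nonneg_right h1 (by positivity)
    _ = η := by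
        rw [hθ]
        field_simp

end Pool.Agent.H36.EX
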