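import Mathlib
import Pool.Agent.H36.EX.Pat

/-!
Gaps and windows: for sets of primes of density bounded from below neither the classes nor the interval matter.
-/

set_option autoImplicit false

open Finset Filter Topology

namespace Pool.Agent.H36.EX

open Pool.Agent.H373R2.T7 Pool.Agent.H36.RW Pool.Agent.H36.BF Pool.Agent.H36.BE Pool.Agent.H36.KT
open Pool.Agent.H36.GP Pool.Agent.H36.LH Pool.Agent.TH464.PO

open Classical in
/-- the number of long gaps -/
noncomputable def Gc (F : ℕ → Prop) (T N Y : ℕ) : ℕ :=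
  ((consec ((Ioc N (N + Y)).filter F)).filter (fun x => T < x.2 - x.1)).card

open Classical in
/-- long gaps are patterns -/
lemma gap_pt (F : ℕ → Prop) (T N Y : ℕ) :
    Pt F {0} (Icc 1 T) N Y ≤ Gc F T N Y + 1 ∧ Gc F T N Y ≤ Pt F {0} (Icc 1 T) N Y := by
  unfold Gc
  set S := (Ioc N (N + Y)).filter F with hS
  have hmem : ∀ n, n ∈ (Ioc N (N + Y)).filter (fun n => (∀ h ∈ ({0} : Finset ℕ), F (n + h)) ∧ ∀ h ∈ Icc 1 T, ¬ F (n + h)) ↔
      n ∈ S ∧ ∀ h ∈ Icc 1 T, ¬ F (n + h) := by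
    intro n
    rw [hS, mem_filter, mem_filter]
    simp only [mem_singleton, forall_eq, add_zero]
    tauto
  constructor
  · by_cases hne : S.Nonempty
    · have hsub : (Ioc N (N + Y)).filter (fun n => (∀ h ∈ ({0} : Finset ℕ), F (n + h)) ∧ ∀ h ∈ Icc 1 T, ¬ F (n + h)) ⊆
          ((consec S).filter (fun x => T < x.2 - x.1)).image Prod.fst ∪ {S.max' hne} := by
        intro n hn
        obtain ⟨hnS, hn2⟩ := (hmem n).1 hn
        rw [mem_union, mem_singleton]
        by_cases hmax : n = S.max' hne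
        · exact Or.inr hmax
        left
        have hlt : n < S.max' hne := lt_of_le_of_ne (le_max' S n hnS) hmax
        have hne2 : (S.filter (fun s => n < s)).Nonempty := ⟨S.max' hne, mem_filter.2 ⟨max'_mem S hne, hlt⟩⟩
        have hb := min'_mem _ hne2
        set b := (S.filter (fun s => n < s)).min' hne2 with hbd
        rw [mem_filter] at hb
        rw [mem_image]
        refine ⟨(n, b), ?_, rfl⟩
        rw [mem_filter, mem_consec]
        refine ⟨⟨⟨hnS, hb.1⟩, hb.2, ?_⟩, ?_⟩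
        · intro y hy hlt2
          simp only at hlt2
          have := min'_le (S.filter (fun s => n < s)) y (mem_filter.2 ⟨hy, hlt2.1⟩)
          omega
        · simp only
          by_contra hcon
          rw [not_lt] at hcon
          apply hn2 (b - n) (mem_Icc.2 ⟨by omega, hcon⟩)
          have e : n + (b - n) = b := by omega
          rw [e]
          have := hb.1
          rw [hS, mem_filter] at this
          exact this.2
      unfold Pt
      refine (card_le_card hsub).trans ((card_union_le _ _).trans ?_)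
      rw [card_singleton]
      exact Nat.add_le_add_right card_image_le 1
    · rw [not_nonempty_iff_eq_empty] at hne
      have h0 : (Ioc N (N + Y)).filter (fun n => (∀ h ∈ ({0} : Finset ℕ), F (n + h)) ∧ ∀ h ∈ Icc 1 T, ¬ F (n + h)) = ∅ := by
        rw [eq_empty_iff_forall_notMem]
        intro n hn
        have := ((hmem n).1 hn).1
        rw [hne] at this
        exact absurd this (notMem_empty n)
      unfold Pt
      rw [h0, card_empty]
      exact Nat.zero_le _
  · unfold Pt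
    apply card_le_card_of_injOn Prod.fst
    · intro x hx
      rw [mem_coe, mem_filter, mem_consec] at hx
      obtain ⟨⟨⟨h1, h2⟩, h3, h4⟩, h5⟩ := hx
      rw [mem_coe, hmem]
      refine ⟨h1, ?_⟩
      intro h hh hF
      rw [mem_Icc] at hh
      have h6 := h1
      have h7 := h2
      rw [hS, mem_filter, mem_Ioc] at h6 h7
      apply h4 (x.1 + h)
      · rw [hS, mem_filter, mem_Ioc]
        exact ⟨by omega, hF⟩
      · omega
    · intro x hx y hy hxy
      rw [mem_coe, mem_filter] at hx hy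
      have h1 := (mem_consec.1 hx.1).2.1
      have h2 := (mem_consec.1 hy.1).2.1
      apply consec_unique hx.1 hy.1 x.1 ⟨le_rfl, h1⟩
      rw [hxy]
      exact ⟨le_rfl, h2⟩

/-- truncated powers -/
lemma min_pow_sum (g T0 j : ℕ) (hj : 1 ≤ j) : ((min g T0 : ℕ) : ℝ) ^ j =
    ∑ t ∈ range T0, (if t < g then ((t : ℝ) + 1) ^ j - (t : ℝ) ^ j else 0) := by
  rw [← sum_filter]
  have e : (range T0).filter (fun t => t < g) = range (min g T0) := by
    ext t
    rw [mem_filter, mem_range, mem_range]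
    omega
  rw [e]
  have h := sum_range_sub (fun t : ℕ => (t : ℝ) ^ j) (min g T0)
  simp only [Nat.cast_zero, zero_pow (by omega : j ≠ 0), sub_zero, Nat.cast_add, Nat.cast_one] at h
  exact h.symm

open Classical in
/-- truncated moments -/
lemma trunc (F : ℕ → Prop) (N Y T0 j : ℕ) (hj : 1 ≤ j) (hT0 : 1 ≤ T0) :
    |∑ x ∈ consec ((Ioc N (N + Y)).filter F), ((x.2 - x.1 : ℕ) : ℝ) ^ j -
      ∑ t ∈ range T0, (((t : ℝ) + 1) ^ j - (t : ℝ) ^ j) * Gc F t N Y| ≤
      (∑ x ∈ consec ((Ioc N (N + Y)).filter F), ((x.2 - x.1 : ℕ) : ℝ) ^ (j + 1)) / T0 := by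
  have hTp : (0 : ℝ) < T0 := by exact_mod_cast hT0
  have e1 : ∑ t ∈ range T0, (((t : ℝ) + 1) ^ j - (t : ℝ) ^ j) * (Gc F t N Y : ℝ) =
      ∑ x ∈ consec ((Ioc N (N + Y)).filter F), ((min (x.2 - x.1) T0 : ℕ) : ℝ) ^ j := by
    have e2 : ∀ x ∈ consec ((Ioc N (N + Y)).filter F), ((min (x.2 - x.1) T0 : ℕ) : ℝ) ^ j =
        ∑ t ∈ range T0, (if t < x.2 - x.1 then ((t : ℝ) + 1) ^ j - (t : ℝ) ^ j else 0) := fun x _ =>
      min_pow_sum _ T0 j hj
    rw [sum_congr rfl e2, sum_comm]
    apply sum_congr rfl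
    intro t _
    rw [← sum_filter, sum_const, nsmul_eq_mul, mul_comm]
    unfold Gc
    rfl
  rw [e1, ← sum_sub_distrib, sum_div]
  refine (abs_sum_le_sum_abs _ _).trans (sum_le_sum ?_)
  intro x _
  set g := x.2 - x.1 with hg
  rcases Nat.le_or_ge g T0 with h | h
  · rw [min_eq_left h, sub_self, abs_zero]
    positivity
  · rw [min_eq_right h]
    have hgT : (T0 : ℝ) ≤ g := by exact_mod_cast h
    have h1 : (T0 : ℝ) ^ j ≤ (g : ℝ) ^ j := pow_le_pow_left₀ hTp.le hgT j
    rw [abs_of_nonneg (by linarith), le_div_iff₀ hTp, pow_succ]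
    have h2 : 0 ≤ (T0 : ℝ) ^ j := by positivity
    have h3 : (g : ℝ) ^ j * T0 ≤ (g : ℝ) ^ j * g := mul_le_mul_of_nonneg_left hgT (by positivity)
    nlinarith

open Classical in
/-- the law of the windows and patterns -/
lemma law_pt (F : ℕ → Prop) (H N Y : ℕ) (J : Finset ℕ) :
    ((Ioc N (N + Y)).filter (fun n => Wc F n H ∈ J)).card =
      ∑ S ∈ (Icc 1 H).powerset.filter (fun S => S.card ∈ J), Pt F S (Icc 1 H \ S) N Y := by
  rw [card_eq_sum_card_fiberwise (f := fun n => (Icc 1 H).filter (fun h => F (n + h)))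
    (t := (Icc 1 H).powerset.filter (fun S => S.card ∈ J))]
  · apply sum_congr rfl
    intro S hS
    rw [mem_filter, mem_powerset] at hS
    unfold Pt
    rw [filter_filter]
    congr 1
    apply filter_congr
    intro n _
    rw [Wc_eq]
    constructor
    · rintro ⟨_, h2⟩
      constructor
      · intro h hh
        rw [← h2, mem_filter] at hh
        exact hh.2
      · intro h hh hF
        rw [Finset.mem_sdiff] at hh
        apply hh.2
        rw [← h2, mem_filter]
        exact ⟨hh.1, hF⟩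
    · rintro ⟨h1, h2⟩
      have h3 : (Icc 1 H).filter (fun h => F (n + h)) = S := by
        ext h
        rw [mem_filter]
        constructor
        · rintro ⟨h4, h5⟩
          by_contra h6
          exact h2 h (Finset.mem_sdiff.2 ⟨h4, h6⟩) h5
        · intro h4
          exact ⟨hS.1 h4, h1 h h4⟩
      refine ⟨?_, h3⟩
      rw [h3]
      exact hS.2
  · intro n hn
    rw [mem_coe, mem_filter] at hn
    rw [mem_coe, mem_filter, mem_powerset]
    refine ⟨filter_subset _ _, ?_⟩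
    rw [← Wc_eq]
    exact hn.2

open Classical in
/-- **Universality**, density bounded from below -/
theorem univB (v : ℝ) (hv : 0 < v) (ε : ℝ) (hε : 0 < ε) (k : ℕ) : ∃ K : ℕ, ∀ y Y Y' : ℕ, 2 ≤ y → y ^ K ≤ Y →
    y ^ K ≤ Y' → ∀ P : Finset ℕ, P ⊆ pz y → v ≤ Wp P → ∀ (a a' : ℕ → ℕ) (N N' : ℕ),
    (∀ j : ℕ, 1 ≤ j → j ≤ k →
      |(∑ x ∈ consec ((Ioc N (N + Y)).filter (FreeS P a)), ((x.2 - x.1 : ℕ) : ℝ) ^ j) / Y -
        (∑ x ∈ consec ((Ioc N' (N' + Y')).filter (FreeS P a')), ((x.2 - x.1 : ℕ) : ℝ) ^ j) / Y'| ≤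
          ε / Wp P ^ (j - 1)) ∧
    (∀ T : ℕ, |(Gc (FreeS P a) T N Y : ℝ) / Y - Gc (FreeS P a') T N' Y' / Y'| ≤ ε * Wp P) ∧
    (∀ H : ℕ, H * Wp P ≤ k → ∀ J : Finset ℕ,
      |(((Ioc N (N + Y)).filter (fun n => Wc (FreeS P a) n H ∈ J)).card : ℝ) / Y -
        (((Ioc N' (N' + Y')).filter (fun n => Wc (FreeS P a') n H ∈ J)).card : ℝ) / Y'| ≤ ε) := by
  obtain ⟨K1, C, hC, hmom⟩ := momFull (k + 1)
  obtain ⟨T0, hT0⟩ := exists_nat_gt (max (4 * C / (ε * v)) (max (1 / (ε * v)) (max (k / v) 1)))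
  have t1 : 4 * C / (ε * v) < T0 := (le_max_left _ _).trans_lt hT0
  have t2 : 1 / (ε * v) < T0 := ((le_max_left _ _).trans (le_max_right _ _)).trans_lt hT0
  have t3 : k / v < T0 := ((le_max_left _ _).trans ((le_max_right _ _).trans (le_max_right _ _))).trans_lt hT0
  have t4 : (1 : ℝ) < T0 := ((le_max_right _ _).trans ((le_max_right _ _).trans (le_max_right _ _))).trans_lt hT0
  have hT01 : 1 ≤ T0 := by
    have : 1 < T0 := by exact_mod_cast t4
    omega
  have hTp : (0 : ℝ) < T0 := by linarith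
  set δ1 : ℝ := min (ε / (2 * (T0 : ℝ) ^ k)) (ε * v) with hδ1
  have hδ10 : 0 < δ1 := by rw [hδ1]; exact lt_min (by positivity) (by positivity)
  set η : ℝ := min (δ1 / 2) (ε / 2 ^ T0) with hη
  have hη0 : 0 < η := by rw [hη]; exact lt_min (by positivity) (by positivity)
  obtain ⟨K2, hpat⟩ := patterns (T0 + 1) η hη0
  obtain ⟨K3, hK3⟩ := pow_unbounded_of_one_lt (4 / δ1) (show (1 : ℝ) < 2 by norm_num)
  refine ⟨K1 + K2 + K3, ?_⟩
  intro y Y Y' hy hY hY' P hP hvP a a' N N'
  have hW := Wp_pos' P y hP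
  have hW1 := Wp_le1 P y hP
  have hle : ∀ e : ℕ, e ≤ K1 + K2 + K3 → ∀ Z : ℕ, y ^ (K1 + K2 + K3) ≤ Z → y ^ e ≤ Z := fun e he Z hZ =>
    (Nat.pow_le_pow_right (by omega) he).trans hZ
  have hbig : ∀ Z : ℕ, y ^ (K1 + K2 + K3) ≤ Z → 4 / δ1 ≤ (Z : ℝ) := by
    intro Z hZ
    refine hK3.le.trans ?_
    have h1 : 2 ^ K3 ≤ Z := (Nat.pow_le_pow_left hy K3).trans (hle K3 (by omega) Z hZ)
    exact_mod_cast h1
  have hYb := hbig Y hY
  have hYb' := hbig Y' hY'
  have h4δ : 0 < 4 / δ1 := by positivity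
  have hYp : (0 : ℝ) < Y := by linarith
  have hYp' : (0 : ℝ) < Y' := by linarith
  have hinv : 1 / (Y : ℝ) ≤ δ1 / 4 := by
    rw [div_le_iff₀ hYp]
    rw [div_le_iff₀ hδ10] at hYb
    linarith
  have hinv' : 1 / (Y' : ℝ) ≤ δ1 / 4 := by
    rw [div_le_iff₀ hYp']
    rw [div_le_iff₀ hδ10] at hYb'
    linarith
  set F := FreeS P a with hF
  set F' := FreeS P a' with hF'
  have hG : ∀ t ≤ T0, |(Gc F t N Y : ℝ) / Y - Gc F' t N' Y' / Y'| ≤ δ1 := by
    intro t ht
    have h1 := hpat y Y Y' hy (hle K2 (by omega) Y hY) (hle K2 (by omega) Y' hY') P hP a a' N N' {0} (Icc 1 t) (by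
      rw [card_singleton, Nat.card_Icc]
      omega)
    obtain ⟨g1, g2⟩ := gap_pt F t N Y
    obtain ⟨g3, g4⟩ := gap_pt F' t N' Y'
    have g1' : (Pt F {0} (Icc 1 t) N Y : ℝ) / Y ≤ Gc F t N Y / Y + 1 / Y := by
      rw [← add_div]
      apply div_le_div_of_nonneg_right _ hYp.le
      exact_mod_cast g1
    have g2' : (Gc F t N Y : ℝ) / Y ≤ Pt F {0} (Icc 1 t) N Y / Y := by
      apply div_le_div_of_nonneg_right _ hYp.le
      exact_mod_cast g2
    have g3' : (Pt F' {0} (Icc 1 t) N' Y' : ℝ) / Y' ≤ Gc F' t N' Y' / Y' + 1 / Y' := by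
      rw [← add_div]
      apply div_le_div_of_nonneg_right _ hYp'.le
      exact_mod_cast g3
    have g4' : (Gc F' t N' Y' : ℝ) / Y' ≤ Pt F' {0} (Icc 1 t) N' Y' / Y' := by
      apply div_le_div_of_nonneg_right _ hYp'.le
      exact_mod_cast g4
    have h2 : η ≤ δ1 / 2 := min_le_left _ _
    rw [abs_le] at h1 ⊢
    constructor <;> linarith [h1.1, h1.2]
  refine ⟨?_, ?_, ?_⟩
  · intro j hj hjk
    have m1 := trunc F N Y T0 j hj hT01
    have m2 := trunc F' N' Y' T0 j hj hT01
    have m3 := hmom y Y (hle K1 (by omega) Y hY) P hP a N (j + 1) (by omega) (by omega)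
    have m4 := hmom y Y' (hle K1 (by omega) Y' hY') P hP a' N' (j + 1) (by omega) (by omega)
    rw [← hF, Nat.add_sub_cancel] at m3
    rw [← hF', Nat.add_sub_cancel] at m4
    set M1 := ∑ x ∈ consec ((Ioc N (N + Y)).filter F), ((x.2 - x.1 : ℕ) : ℝ) ^ j with hM1
    set M2 := ∑ x ∈ consec ((Ioc N' (N' + Y')).filter F'), ((x.2 - x.1 : ℕ) : ℝ) ^ j with hM2
    set S1 := ∑ t ∈ range T0, (((t : ℝ) + 1) ^ j - (t : ℝ) ^ j) * (Gc F t N Y : ℝ) with hS1
    set S2 := ∑ t ∈ range T0, (((t : ℝ) + 1) ^ j - (t : ℝ) ^ j) * (Gc F' t N' Y' : ℝ) with hS2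
    have hdj : 0 < Wp P ^ j := by positivity
    have hdj1 : 0 < Wp P ^ (j - 1) := by positivity
    have ej : Wp P ^ j = Wp P ^ (j - 1) * Wp P := by
      rw [← pow_succ]
      congr 1
      omega
    have hb : ∀ Z : ℝ, 0 < Z → C * (Z / Wp P ^ j) / T0 / Z ≤ ε / 4 / Wp P ^ (j - 1) := by
      intro Z hZ
      have e : C * (Z / Wp P ^ j) / T0 / Z = C / (T0 * Wp P) / Wp P ^ (j - 1) := by
        rw [ej]
        field_simp
      rw [e]
      apply div_le_div_of_nonneg_right _ hdj1.le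
      rw [div_le_iff₀ (by positivity)]
      have h5 : 4 * C / (ε * v) ≤ T0 := t1.le
      rw [div_le_iff₀ (by positivity)] at h5
      have h6 : (T0 : ℝ) * (ε * v) ≤ T0 * (ε * Wp P) := by gcongr
      linarith
    have n1 : |M1 / Y - S1 / Y| ≤ ε / 4 / Wp P ^ (j - 1) := by
      rw [← sub_div, abs_div, abs_of_pos hYp]
      refine le_trans ?_ (hb Y hYp)
      apply div_le_div_of_nonneg_right _ hYp.le
      exact m1.trans (div_le_div_of_nonneg_right m3 hTp.le)
    have n2 : |M2 / Y' - S2 / Y'| ≤ ε / 4 / Wp P ^ (j - 1) := by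
      rw [← sub_div, abs_div, abs_of_pos hYp']
      refine le_trans ?_ (hb Y' hYp')
      apply div_le_div_of_nonneg_right _ hYp'.le
      exact m2.trans (div_le_div_of_nonneg_right m4 hTp.le)
    have n3 : |S1 / Y - S2 / Y'| ≤ (T0 : ℝ) ^ j * δ1 := by
      rw [hS1, hS2, sum_div, sum_div, ← sum_sub_distrib]
      refine (abs_sum_le_sum_abs _ _).trans ?_
      have h5 : ∑ t ∈ range T0, (((t : ℝ) + 1) ^ j - (t : ℝ) ^ j) = (T0 : ℝ) ^ j := by
        have h := sum_range_sub (fun t : ℕ => (t : ℝ) ^ j) T0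
        simp only [Nat.cast_zero, zero_pow (by omega : j ≠ 0), sub_zero, Nat.cast_add, Nat.cast_one] at h
        exact h
      rw [← h5, sum_mul]
      apply sum_le_sum
      intro t ht
      rw [mem_range] at ht
      have hw : 0 ≤ ((t : ℝ) + 1) ^ j - (t : ℝ) ^ j := by
        have : (t : ℝ) ^ j ≤ ((t : ℝ) + 1) ^ j := pow_le_pow_left₀ (Nat.cast_nonneg t) (by linarith) j
        linarith
      rw [mul_div_assoc, mul_div_assoc, ← mul_sub, abs_mul, abs_of_nonneg hw]
      exact mul_le_mul_of_nonneg_left (hG t ht.le) hw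
    have n4 : (T0 : ℝ) ^ j * δ1 ≤ ε / 2 / Wp P ^ (j - 1) := by
      have h5 : (T0 : ℝ) ^ j ≤ (T0 : ℝ) ^ k := pow_le_pow_right₀ t4.le hjk
      have h6 : δ1 ≤ ε / (2 * (T0 : ℝ) ^ k) := min_le_left _ _
      have h7 : (T0 : ℝ) ^ j * δ1 ≤ ε / 2 := by
        calc (T0 : ℝ) ^ j * δ1 ≤ (T0 : ℝ) ^ k * (ε / (2 * (T0 : ℝ) ^ k)) := mul_le_mul h5 h6 hδ10.le (by positivity)
          _ = ε / 2 := by field_simp
      refine h7.trans ?_
      rw [le_div_iff₀ hdj1]
      have h8 : Wp P ^ (j - 1) ≤ 1 := pow_le_one₀ hW.le hW1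
      exact mul_le_of_le_one_right (by positivity) h8
    have e9 : ε / Wp P ^ (j - 1) = ε / 4 / Wp P ^ (j - 1) + ε / 4 / Wp P ^ (j - 1) + ε / 2 / Wp P ^ (j - 1) := by
      field_simp
      ring
    rw [e9]
    rw [abs_le] at n1 n2 n3 ⊢
    constructor <;> linarith [n1.1, n1.2, n2.1, n2.2, n3.1, n3.2]
  · intro T
    have hεv : ε * v ≤ ε * Wp P := mul_le_mul_of_nonneg_left hvP hε.le
    rcases Nat.le_or_ge T T0 with h | h
    · exact (hG T h).trans ((min_le_right _ _).trans hεv)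
    · have hTT : (T0 : ℝ) ≤ T := by exact_mod_cast h
      have hb : ∀ (G : ℕ → Prop) (M Z : ℕ), (0 : ℝ) < Z → (Gc G T M Z : ℝ) / Z ≤ ε * Wp P := by
        intro G M Z hZ
        have h1 := gap_one G M Z
        have h2 : (Gc G T M Z : ℝ) * T ≤ Z := by
          refine le_trans ?_ h1
          calc (Gc G T M Z : ℝ) * T = ∑ x ∈ (consec ((Ioc M (M + Z)).filter G)).filter (fun x => T < x.2 - x.1), (T : ℝ) := by
                rw [sum_const, nsmul_eq_mul]
                rfl
            _ ≤ ∑ x ∈ (consec ((Ioc M (M + Z)).filter G)).filter (fun x => T < x.2 - x.1), ((x.2 - x.1 : ℕ) : ℝ) := by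
                apply sum_le_sum
                intro x hx
                rw [mem_filter] at hx
                exact_mod_cast hx.2.le
            _ ≤ _ := sum_le_sum_of_subset_of_nonneg (filter_subset _ _) fun _ _ _ => Nat.cast_nonneg _
        have h3 : 1 ≤ ε * v * T0 := by
          have h5 : 1 / (ε * v) ≤ T0 := t2.le
          rw [div_le_iff₀ (by positivity)] at h5
          linarith
        rw [div_le_iff₀ hZ]
        have h4 : (Gc G T M Z : ℝ) * 1 ≤ Gc G T M Z * (ε * v * T) := by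
          apply mul_le_mul_of_nonneg_left _ (Nat.cast_nonneg _)
          refine h3.trans ?_
          gcongr
        calc (Gc G T M Z : ℝ) = Gc G T M Z * 1 := (mul_one _).symm
          _ ≤ Gc G T M Z * (ε * v * T) := h4
          _ = ε * v * (Gc G T M Z * T) := by ring
          _ ≤ ε * v * Z := mul_le_mul_of_nonneg_left h2 (by positivity)
          _ ≤ ε * Wp P * Z := mul_le_mul_of_nonneg_right hεv hZ.le
      have h1 := hb F N Y hYp
      have h2 := hb F' N' Y' hYp'
      have h3 : 0 ≤ (Gc F T N Y : ℝ) / Y := by positivity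
      have h4 : 0 ≤ (Gc F' T N' Y' : ℝ) / Y' := by positivity
      rw [abs_le]
      constructor <;> linarith
  · intro H hH J
    have hHT : H ≤ T0 := by
      have h1 : (H : ℝ) * v ≤ k := (mul_le_mul_of_nonneg_left hvP (Nat.cast_nonneg H)).trans hH
      have h2 : (H : ℝ) ≤ k / v := by
        rw [le_div_iff₀ hv]
        exact h1
      have h3 : (H : ℝ) ≤ T0 := h2.trans t3.le
      exact_mod_cast h3
    rw [law_pt F H N Y J, law_pt F' H N' Y' J]
    push_cast
    rw [sum_div, sum_div, ← sum_sub_distrib]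
    refine (abs_sum_le_sum_abs _ _).trans ?_
    calc ∑ S ∈ (Icc 1 H).powerset.filter (fun S => S.card ∈ J),
          |(Pt F S (Icc 1 H \ S) N Y : ℝ) / Y - Pt F' S (Icc 1 H \ S) N' Y' / Y'| ≤
        ∑ _S ∈ (Icc 1 H).powerset.filter (fun S => S.card ∈ J), η := by
          apply sum_le_sum
          intro S hS
          rw [mem_filter, mem_powerset] at hS
          apply hpat y Y Y' hy (hle K2 (by omega) Y hY) (hle K2 (by omega) Y' hY') P hP a a' N N'
          have h1 : (Icc 1 H \ S).card + S.card = (Icc 1 H).card := card_sdiff_add_card_eq_card hS.1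
          rw [Nat.card_Icc] at h1
          omega
      _ ≤ 2 ^ T0 * η := by
          rw [sum_const, nsmul_eq_mul]
          apply mul_le_mul_of_nonneg_right _ hη0.le
          have h1 : ((Icc 1 H).powerset.filter (fun S => S.card ∈ J)).card ≤ 2 ^ T0 := by
            refine (card_filter_le _ _).trans ?_
            rw [card_powerset, Nat.card_Icc, Nat.add_sub_cancel]
            exact Nat.pow_le_pow_right (by norm_num) hHT
          exact_mod_cast h1
      _ ≤ 2 ^ T0 * (ε / 2 ^ T0) := mul_le_mul_of_nonneg_left (min_le_right _ _) (by positivity)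
      _ = ε := by field_simp

end Pool.Agent.H36.EX
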